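import Mathlib

/-!
Entropy step: the relative entropy budget.
-/

set_option autoImplicit false

namespace Pool.Agent.Lib.MP_b0b8df_co

open Finset

/-- lower bound for the relative entropy of a `q`-coin with respect to a `p`-coin. -/
noncomputable def Dq (p q : ℝ) : ℝ := (max (q - p) 0) ^ 2 / (2 * q)

lemma Dq_nonneg {p q : ℝ} (hq : 0 ≤ q) : 0 ≤ Dq p q := by
  unfold Dq
  positivity

lemma Dq_zero (p : ℝ) : Dq p 0 = 0 := by
  simp [Dq]

lemma neg_log_ge {s : ℝ} (h0 : 0 ≤ s) (h1 : s < 1) : s + s ^ 2 / 2 ≤ - Real.log (1 - s) := by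
  have h := Real.hasSum_pow_div_log_of_abs_lt_one (x := s) (by rw [abs_of_nonneg h0]; exact h1)
  have h2 := h.summable.sum_le_tsum (Finset.range 2) (fun i _ => by positivity)
  rw [h.tsum_eq] at h2
  simp [Finset.sum_range_succ] at h2
  linarith [h2]

/-- `q log (q/p) ≥ (q-p) + D(q)` -/
lemma mul_log_ge {p q : ℝ} (hp : 0 < p) (hq : 0 < q) :
    (q - p) + Dq p q ≤ q * (Real.log q - Real.log p) := by
  rw [← Real.log_div hq.ne' hp.ne']
  by_cases h : p ≤ q
  · have hs0 : 0 ≤ (q - p) / q := div_nonneg (by linarith) hq.le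
    have hs1 : (q - p) / q < 1 := by
      rw [div_lt_one hq]; linarith
    have h1 := neg_log_ge hs0 hs1
    have h2 : 1 - (q - p) / q = (q / p)⁻¹ := by
      field_simp; ring
    rw [h2, Real.log_inv, neg_neg] at h1
    have h3 : q * ((q - p) / q + ((q - p) / q) ^ 2 / 2) = (q - p) + Dq p q := by
      unfold Dq
      rw [max_eq_left (by linarith)]
      field_simp
    rw [← h3]
    exact mul_le_mul_of_nonneg_left h1 hq.le
  · push Not at h
    have h1 : Dq p q = 0 := by
      unfold Dq
      rw [max_eq_right (by linarith)]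
      simp
    rw [h1, add_zero]
    have h2 := Real.one_sub_inv_le_log_of_pos (div_pos hq hp)
    have h3 : q * (1 - (q / p)⁻¹) = q - p := by
      field_simp
    rw [← h3]
    exact mul_le_mul_of_nonneg_left h2 hq.le

lemma mul_log_ge' {p q : ℝ} (hp : p < 1) (hq : q < 1) :
    -(q - p) ≤ (1 - q) * (Real.log (1 - q) - Real.log (1 - p)) := by
  have hp' : 0 < 1 - p := by linarith
  have hq' : 0 < 1 - q := by linarith
  rw [← Real.log_div hq'.ne' hp'.ne']
  have h2 := Real.one_sub_inv_le_log_of_pos (div_pos hq' hp')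
  have h3 : (1 - q) * (1 - ((1 - q) / (1 - p))⁻¹) = -(q - p) := by
    field_simp
    ring
  rw [← h3]
  exact mul_le_mul_of_nonneg_left h2 hq'.le

lemma entropy_step {p b1 b0 : ℝ} (hp0 : 0 < p) (hp1 : p < 1) (h1 : 0 ≤ b1) (h0 : 0 ≤ b0)
    (hb : 0 < p * b1 + (1 - p) * b0) :
    (p * b1 / (p * b1 + (1 - p) * b0)) * (- Real.log b1)
      + (1 - p * b1 / (p * b1 + (1 - p) * b0)) * (- Real.log b0)
      ≤ - Real.log (p * b1 + (1 - p) * b0)
        - Dq p (p * b1 / (p * b1 + (1 - p) * b0)) := by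
  set b := p * b1 + (1 - p) * b0 with hbdef
  set q := p * b1 / b with hq
  have hp1' : 0 < 1 - p := by linarith
  have hq0 : 0 ≤ q := by positivity
  have hq' : 1 - q = (1 - p) * b0 / b := by
    rw [hq]; field_simp; rw [hbdef]; ring
  have hq1 : q ≤ 1 := by
    have : 0 ≤ 1 - q := by rw [hq']; positivity
    linarith
  rcases h1.lt_or_eq with hb1 | hb1
  · have hqpos : 0 < q := by positivity
    have e1 : q * (- Real.log b1) = q * (- Real.log b) - q * (Real.log q - Real.log p) := by
      have h2 : b1 = q * b / p := by rw [hq]; field_simp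
      have h3 : Real.log b1 = Real.log q + Real.log b - Real.log p := by
        conv_lhs => rw [h2]
        rw [Real.log_div (by positivity) hp0.ne', Real.log_mul hqpos.ne' hb.ne']
      rw [h3]; ring
    have i1 := mul_log_ge hp0 hqpos
    rcases h0.lt_or_eq with hb0 | hb0
    · have hq1pos : 0 < 1 - q := by rw [hq']; positivity
      have e2 : (1 - q) * (- Real.log b0)
          = (1 - q) * (- Real.log b) - (1 - q) * (Real.log (1 - q) - Real.log (1 - p)) := by
        have h2 : b0 = (1 - q) * b / (1 - p) := by rw [hq']; field_simp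
        have h3 : Real.log b0 = Real.log (1 - q) + Real.log b - Real.log (1 - p) := by
          conv_lhs => rw [h2]
          rw [Real.log_div (by positivity) hp1'.ne', Real.log_mul hq1pos.ne' hb.ne']
        rw [h3]; ring
      have i2 := mul_log_ge' hp1 (show q < 1 by linarith)
      rw [e1, e2]
      linarith
    · have hq1' : q = 1 := by
        have : 1 - q = 0 := by rw [hq', ← hb0]; simp
        linarith
      rw [e1]
      rw [hq1'] at i1 ⊢
      linarith
  · have hq0' : q = 0 := by rw [hq, ← hb1]; simp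
    rw [hq0', Dq_zero]
    have hbb : b = (1 - p) * b0 := by rw [hbdef, ← hb1]; ring
    have hb0 : 0 < b0 := by
      rcases h0.lt_or_eq with h | h
      · exact h
      · exfalso; rw [hbb, ← h] at hb; simp at hb
    rw [hbb, Real.log_mul hp1'.ne' hb0.ne']
    have : Real.log (1 - p) ≤ 0 := Real.log_nonpos hp1'.le (by linarith)
    linarith

lemma cost_le {p q ϵ : ℝ} (hp : 0 < p) (hq : 0 ≤ q) (h0 : 0 < ϵ) (h1 : ϵ ≤ 1 / 4) :
    max (q - p) 0 ≤ Dq p q / ϵ + ϵ * p := by
  by_cases h : p ≤ q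
  · unfold Dq
    rw [max_eq_left (by linarith)]
    have hqpos : 0 < q := by linarith
    set y := q - p with hy
    have hqy : q = p + y := by rw [hy]; ring
    have hy0 : 0 ≤ y := by rw [hy]; linarith
    rw [hqy]
    have hpy : 0 < p + y := by linarith
    have key : y * (2 * (p + y) * ϵ) ≤ y ^ 2 + ϵ * p * (2 * (p + y) * ϵ) := by
      nlinarith [sq_nonneg (y - 2 * ϵ * p), mul_nonneg hy0 hp.le, sq_nonneg (ϵ * p), sq_nonneg y,
        mul_nonneg (mul_nonneg hy0 hp.le) h0.le,
        mul_nonneg (mul_nonneg h0.le (sub_nonneg.2 h1)) (sq_nonneg p),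
        mul_nonneg (sub_nonneg.2 h1) (sq_nonneg y), mul_nonneg (mul_nonneg hy0 hp.le) (sq_nonneg ϵ)]
    have h3 : y ^ 2 / (2 * (p + y)) / ϵ + ϵ * p
        = (y ^ 2 + ϵ * p * (2 * (p + y) * ϵ)) / (2 * (p + y) * ϵ) := by
      field_simp
    rw [h3, le_div_iff₀ (by positivity)]
    exact key
  · push Not at h
    rw [max_eq_right (by linarith)]
    have := Dq_nonneg (p := p) hq
    positivity

lemma one_le_Dq {p q : ℝ} (hp : 0 < p) (hp1 : p ≤ 1 / 8) (hq : 1 / 2 ≤ q) :
    1 ≤ 8 * Dq p q := by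
  unfold Dq
  rw [max_eq_left (by linarith)]
  have hqpos : 0 < q := by linarith
  rw [← mul_div_assoc, le_div_iff₀ (by positivity)]
  nlinarith [mul_nonneg (sub_nonneg.2 hp1) (sub_nonneg.2 hq), sq_nonneg (q - 1 / 2)]

end Pool.Agent.Lib.MP_b0b8df_co
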