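import Mathlib

/-!
One-step inequality for the sequential construction of clusters.
-/

set_option autoImplicit false

namespace Pool.Agent.Lib.MP_b0b8df_co

open Finset

/-- core of the one-step inequality, with reduced costs `a i` -/
lemma one_step_core (d : ℕ) (hd : 1 ≤ d) (p α c P1 : ℝ) (hp : 0 < p)
    (hP1 : P1 = (1 + 1 / (d : ℝ)) * p) (hP1' : P1 ≤ 1 / 2) (hα : 0 ≤ α) (hc0 : 0 ≤ c) (hc1 : c ≤ 1)
    (q a : Fin (d + 1) → ℝ) (hq0 : ∀ i, 0 ≤ q i) (hq1 : ∀ i, q i ≤ 1)
    (ha0 : ∀ i, q i = 0 → a i = 0) (ha1 : ∀ i, q i = 1 → a i = 1) (G0 G1 : ℝ) :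
    ∃ (u : Bool) (x : Fin (d + 1) → Bool), (∀ i, x i = true → 0 < q i) ∧
      (∀ i, x i = false → q i < 1) ∧
      (if u = true then G1 else G0)
        + ∑ i, (if x i = true then - ((1 - q i) * a i) else q i * a i)
        + α * (if u = false ∧ ∃ i, x i = true then 1 else 0)
        + c * (if ∀ i, x i = true then 1 else 0)
      ≤ P1 * G1 + (1 - P1) * G0 + 2 * α * ∑ i, max (q i - p) 0
        + c * max (∑ i, q i - d) 0 := by
  classical
  have hdpos : (0 : ℝ) < d := by exact_mod_cast hd
  set X : ℝ := ∑ i, max (q i - p) 0 with hX
  set Qa : ℝ := ∑ i, q i * a i with hQa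
  set S : ℝ := ∑ i, max (a i) 0 with hS
  have hXnn : 0 ≤ X := Finset.sum_nonneg fun i _ => le_max_right _ _
  have hSnn : 0 ≤ S := Finset.sum_nonneg fun i _ => le_max_right _ _
  have hP1pos : 0 < P1 := by rw [hP1]; positivity
  have hPp : P1 * (d / (d + 1)) = p := by
    rw [hP1]; field_simp
  have hpP : p < P1 := by
    rw [hP1]
    have : 0 < 1 / (d : ℝ) * p := by positivity
    linarith
  -- the index with the smallest positive part
  obtain ⟨j, _, hj⟩ := Finset.exists_min_image (Finset.univ : Finset (Fin (d + 1)))
    (fun i => max (a i) 0) ⟨0, Finset.mem_univ _⟩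
  have hjmin : ∀ i, max (a j) 0 ≤ max (a i) 0 := fun i => hj i (Finset.mem_univ i)
  obtain ⟨s, _, hs⟩ := Finset.exists_max_image (Finset.univ : Finset (Fin (d + 1)))
    (fun i => a i) ⟨0, Finset.mem_univ _⟩
  have hsmax : ∀ i, a i ≤ a s := fun i => hs i (Finset.mem_univ i)
  have hjS : ((d : ℝ) + 1) * max (a j) 0 ≤ S := by
    have h := Finset.card_nsmul_le_sum (Finset.univ : Finset (Fin (d + 1)))
      (fun i => max (a i) 0) (max (a j) 0) (fun i _ => hjmin i)
    simp only [Finset.card_univ, Fintype.card_fin, nsmul_eq_mul] at h
    push_cast at h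
    exact h
  have hjnn : 0 ≤ max (a j) 0 := le_max_right _ _
  -- value of a choice: dropping a set of indices
  have hval : ∀ x : Fin (d + 1) → Bool,
      ∑ i, (if x i = true then - ((1 - q i) * a i) else q i * a i)
        = Qa - ∑ i, (if x i = true then a i else 0) := by
    intro x
    rw [hQa, ← Finset.sum_sub_distrib]
    apply Finset.sum_congr rfl
    intro i _
    split_ifs <;> ring
  -- the choice A
  set xA : Fin (d + 1) → Bool := fun i => decide (0 < a i ∧ i ≠ j) with hxA
  have hxAsum : ∑ i, (if xA i = true then a i else 0) = S - max (a j) 0 := by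
    have h1 : S = ∑ i, ((if xA i = true then a i else 0) + (if i = j then max (a j) 0 else 0)) := by
      rw [hS]
      apply Finset.sum_congr rfl
      intro i _
      by_cases hij : i = j
      · subst hij
        simp [hxA]
      · by_cases hai : 0 < a i
        · simp [hxA, hij, hai, max_eq_left hai.le]
        · simp only [hxA, hai, false_and, decide_false, hij]
          simp [max_eq_right (not_lt.mp hai)]
    rw [h1, Finset.sum_add_distrib]
    simp
  have hxAj : xA j = false := by simp [hxA]
  have hxAnot : ¬ ∀ i, xA i = true := by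
    intro h
    have := h j
    rw [hxAj] at this
    exact absurd this (by simp)
  have hqpos : ∀ i, 0 < a i → 0 < q i := by
    intro i hi
    rcases (hq0 i).lt_or_eq with h | h
    · exact h
    · exfalso
      rw [ha0 i h.symm] at hi
      exact lt_irrefl _ hi
  have hxApos : ∀ i, xA i = true → 0 < q i := by
    intro i hi
    simp only [hxA, decide_eq_true_eq] at hi
    exact hqpos i hi.1
  by_cases hcase : X ≤ 1 - P1
  · -- no big step
    have hqlt : ∀ i, q i < 1 := by
      intro i
      rcases (hq1 i).lt_or_eq with h | h
      · exact h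
      · exfalso
        have h1 : max (q i - p) 0 ≤ X :=
          Finset.single_le_sum (f := fun i => max (q i - p) 0) (fun i _ => le_max_right _ _)
            (Finset.mem_univ i)
        have h2 : q i - p ≤ max (q i - p) 0 := le_max_left _ _
        rw [h] at h1 h2
        linarith
    -- key inequality
    have hkey : Qa ≤ p * S + (1 - P1) * max (a s - α) 0 + α * X := by
      have h1 : ∀ i, q i * a i ≤ p * max (a i) 0
          + max (q i - p) 0 * (α + max (a s - α) 0) := by
        intro i
        have h2 : q i * a i ≤ q i * max (a i) 0 :=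
          mul_le_mul_of_nonneg_left (le_max_left _ _) (hq0 i)
        have h3 : (q i - p) * max (a i) 0 ≤ max (q i - p) 0 * max (a i) 0 :=
          mul_le_mul_of_nonneg_right (le_max_left _ _) (le_max_right _ _)
        have h4 : max (a i) 0 ≤ α + max (a s - α) 0 := by
          apply max_le
          · have := hsmax i
            have := le_max_left (a s - α) 0
            linarith
          · have := le_max_right (a s - α) 0
            linarith
        have h5 : max (q i - p) 0 * max (a i) 0 ≤ max (q i - p) 0 * (α + max (a s - α) 0) :=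
          mul_le_mul_of_nonneg_left h4 (le_max_right _ _)
        nlinarith
      have h2 : Qa ≤ ∑ i, (p * max (a i) 0 + max (q i - p) 0 * (α + max (a s - α) 0)) :=
        Finset.sum_le_sum fun i _ => h1 i
      rw [Finset.sum_add_distrib, ← Finset.mul_sum, ← Finset.sum_mul] at h2
      have h3 : X * (α + max (a s - α) 0) ≤ α * X + (1 - P1) * max (a s - α) 0 := by
        have := mul_le_mul_of_nonneg_right hcase (le_max_right (a s - α) 0)
        nlinarith
      linarith
    have hPS : p * S ≤ P1 * (S - max (a j) 0) := by
      have h1 : P1 * max (a j) 0 ≤ P1 * (S / (d + 1)) := by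
        apply mul_le_mul_of_nonneg_left _ hP1pos.le
        rw [le_div_iff₀ (by positivity)]
        linarith
      have h2 : P1 * (S - S / (d + 1)) = p * S := by
        rw [← hPp]; field_simp; ring
      nlinarith
    have hrest : 0 ≤ c * max (∑ i, q i - d) 0 := mul_nonneg hc0 (le_max_right _ _)
    have hαX : 0 ≤ α * X := mul_nonneg hα hXnn
    -- option A
    by_cases hA : G1 + (Qa - (S - max (a j) 0)) ≤ P1 * G1 + (1 - P1) * G0 + α * X
    · refine ⟨true, xA, hxApos, fun i _ => hqlt i, ?_⟩
      rw [hval, hxAsum]
      simp only [if_true, hxAnot, if_false]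
      have : ¬ (true = false ∧ ∃ i, xA i = true) := by simp
      simp only [this, if_false, mul_zero, add_zero]
      linarith
    · push Not at hA
      -- option B
      have hB : G0 + (Qa - max (a s - α) 0) ≤ P1 * G1 + (1 - P1) * G0 + α * X := by
        by_contra hcon
        push Not at hcon
        have h1 : P1 * (P1 * G1 + (1 - P1) * G0 + α * X)
            < P1 * (G1 + (Qa - (S - max (a j) 0))) := mul_lt_mul_of_pos_left hA hP1pos
        have h2 : (1 - P1) * (P1 * G1 + (1 - P1) * G0 + α * X)
            < (1 - P1) * (G0 + (Qa - max (a s - α) 0)) :=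
          mul_lt_mul_of_pos_left hcon (by linarith)
        nlinarith
      by_cases hsα : α < a s
      · refine ⟨false, fun i => decide (i = s), ?_, fun i _ => hqlt i, ?_⟩
        · intro i hi
          have : i = s := by simpa using hi
          rw [this]
          exact hqpos s (lt_of_le_of_lt hα hsα)
        · rw [hval]
          have h1 : ∑ i, (if (decide (i = s)) = true then a i else 0) = a s := by
            simp
          rw [h1]
          have h2 : ¬ ∀ i : Fin (d + 1), (decide (i = s)) = true := by
            intro h
            have h3 := h 0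
            have h4 := h 1
            simp only [decide_eq_true_eq] at h3 h4
            have h5 : (0 : Fin (d + 1)) = 1 := h3.trans h4.symm
            have h6 := congrArg Fin.val h5
            have h7 : ((1 : Fin (d + 1)) : ℕ) = 1 := by
              rw [Fin.val_one']
              exact Nat.mod_eq_of_lt (by omega)
            rw [h7] at h6
            simp at h6
          have h3 : (false = false ∧ ∃ i : Fin (d + 1), (decide (i = s)) = true) :=
            ⟨rfl, s, by simp⟩
          rw [if_pos h3, if_neg h2]
          have h4 : max (a s - α) 0 = a s - α := max_eq_left (by linarith)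
          rw [h4] at hB
          simp only [Bool.false_eq_true, if_false]
          linarith
      · refine ⟨false, fun _ => false, ?_, fun i _ => hqlt i, ?_⟩
        · intro i hi
          exact absurd hi (by simp)
        · rw [hval]
          have h4 : max (a s - α) 0 = 0 := max_eq_right (by linarith [not_lt.mp hsα])
          rw [h4] at hB
          simp
          linarith
  · -- big step
    push Not at hcase
    have hX2 : 1 / 2 ≤ X := by linarith
    obtain ⟨u, hu⟩ : ∃ u : Bool, (if u = true then G1 else G0) ≤ P1 * G1 + (1 - P1) * G0 := by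
      by_cases h : G1 ≤ G0
      · refine ⟨true, ?_⟩
        simp only [if_true]
        nlinarith
      · refine ⟨false, ?_⟩
        push Not at h
        simp only [Bool.false_eq_true, if_false]
        nlinarith
    have hext : ∀ (x : Fin (d + 1) → Bool),
        α * (if u = false ∧ ∃ i, x i = true then (1 : ℝ) else 0) ≤ 2 * α * X := by
      intro x
      have h1 : (if u = false ∧ ∃ i, x i = true then (1 : ℝ) else 0) ≤ 1 := by
        split_ifs <;> norm_num
      calc α * (if u = false ∧ ∃ i, x i = true then (1 : ℝ) else 0) ≤ α * 1 :=
            mul_le_mul_of_nonneg_left h1 hα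
        _ ≤ 2 * α * X := by nlinarith
    -- bound on S - Qa
    set E : ℝ := (d : ℝ) + 1 - ∑ i, q i with hE
    have hEsum : E = ∑ i, (1 - q i) := by
      rw [hE, Finset.sum_sub_distrib]
      simp
    have hSQ : E * max (a j) 0 ≤ S - Qa := by
      rw [hEsum, hS, hQa, ← Finset.sum_sub_distrib, Finset.sum_mul]
      apply Finset.sum_le_sum
      intro i _
      have h1 : q i * a i ≤ q i * max (a i) 0 :=
        mul_le_mul_of_nonneg_left (le_max_left _ _) (hq0 i)
      have h2 : (1 - q i) * max (a j) 0 ≤ (1 - q i) * max (a i) 0 :=
        mul_le_mul_of_nonneg_left (hjmin i) (by linarith [hq1 i])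
      nlinarith
    have hfinal : ∀ v : ℝ, v ≤ c → v ≤ max (a j) 0 →
        Qa - S + v ≤ c * max (∑ i, q i - d) 0 := by
      intro v hv1 hv2
      have hrest : 0 ≤ c * max (∑ i, q i - d) 0 := mul_nonneg hc0 (le_max_right _ _)
      by_cases hE1 : 1 ≤ E
      · have : max (a j) 0 ≤ E * max (a j) 0 := le_mul_of_one_le_left hjnn hE1
        linarith
      · push Not at hE1
        have hE0 : 0 ≤ E := by
          rw [hEsum]; exact Finset.sum_nonneg fun i _ => by linarith [hq1 i]
        have h1 : max (∑ i, q i - d) 0 = 1 - E := by
          rw [hE]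
          rw [max_eq_left (by linarith)]
          ring
        rw [h1]
        have h2 : E * v ≤ E * max (a j) 0 := mul_le_mul_of_nonneg_left hv2 hE0
        have h3 : (1 - E) * v ≤ (1 - E) * c := mul_le_mul_of_nonneg_left hv1 (by linarith)
        nlinarith
    by_cases hall : c ≤ max (a j) 0 ∧ ∀ i, 0 < a i
    · refine ⟨u, fun _ => true, fun i _ => hqpos i (hall.2 i), ?_, ?_⟩
      · intro i hi
        exact absurd hi (by simp)
      · rw [hval]
        have h1 : ∑ i, (if (true : Bool) = true then a i else 0) = S := by
          rw [hS]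
          apply Finset.sum_congr rfl
          intro i _
          simp [max_eq_left (hall.2 i).le]
        rw [h1]
        have h2 := hfinal c le_rfl hall.1
        have h3 := hext (fun _ => true)
        have h4 : (∀ i : Fin (d + 1), (fun _ => true : Fin (d + 1) → Bool) i = true) :=
          fun _ => rfl
        rw [if_pos h4]
        linarith
    · refine ⟨u, xA, hxApos, ?_, ?_⟩
      · intro i hi
        rcases (hq1 i).lt_or_eq with h | h
        · exact h
        · exfalso
          have hai : a i = 1 := ha1 i h
          simp only [hxA, decide_eq_false_iff_not, not_and, not_not] at hi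
          have hij : i = j := hi (by rw [hai]; norm_num)
          apply hall
          have haj : a j = 1 := by rw [← hij]; exact hai
          constructor
          · rw [haj]
            exact hc1.trans (le_max_left _ _)
          · intro i'
            by_contra hcon
            have h1 := hjmin i'
            rw [haj, max_eq_right (not_lt.mp hcon)] at h1
            have := le_max_left (1 : ℝ) 0
            linarith
      · rw [hval, hxAsum]
        simp only [hxAnot, if_false, mul_zero, add_zero]
        have hv : max (a j) 0 ≤ c := by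
          by_contra hcon
          push Not at hcon
          apply hall
          refine ⟨hcon.le, ?_⟩
          intro i
          by_contra hi
          have h1 := hjmin i
          rw [max_eq_right (not_lt.mp hi)] at h1
          linarith
        have h2 := hfinal (max (a j) 0) hv le_rfl
        have h3 := hext xA
        linarith

/-- One-step inequality. -/
lemma one_step (d : ℕ) (hd : 1 ≤ d) (p α c P1 : ℝ) (hp : 0 < p)
    (hP1 : P1 = (1 + 1 / (d : ℝ)) * p) (hP1' : P1 ≤ 1 / 2) (hα : 0 ≤ α) (hc0 : 0 ≤ c) (hc1 : c ≤ 1)
    (q H0 H1 : Fin (d + 1) → ℝ) (hq0 : ∀ i, 0 ≤ q i) (hq1 : ∀ i, q i ≤ 1) (G0 G1 : ℝ) :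
    ∃ (u : Bool) (x : Fin (d + 1) → Bool), (∀ i, x i = true → 0 < q i) ∧
      (∀ i, x i = false → q i < 1) ∧
      (if u = true then G1 else G0)
        + ∑ i, (if x i = true then H1 i else H0 i)
        + α * (if u = false ∧ ∃ i, x i = true then 1 else 0)
        + c * (if ∀ i, x i = true then 1 else 0)
      ≤ P1 * G1 + (1 - P1) * G0 + ∑ i, (q i * H1 i + (1 - q i) * H0 i)
        + 2 * α * ∑ i, max (q i - p) 0
        + c * max (∑ i, q i - d) 0 := by
  classical
  set a : Fin (d + 1) → ℝ := fun i => if q i = 0 then 0 else if q i = 1 then 1 else H0 i - H1 i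
    with ha
  obtain ⟨u, x, hx1, hx2, hx3⟩ := one_step_core d hd p α c P1 hp hP1 hP1' hα hc0 hc1 q a hq0 hq1
    (fun i hi => by simp [ha, hi]) (fun i hi => by simp [ha, hi]) G0 G1
  refine ⟨u, x, hx1, hx2, ?_⟩
  have hsum : ∑ i, (if x i = true then H1 i else H0 i)
      = ∑ i, (q i * H1 i + (1 - q i) * H0 i)
        + ∑ i, (if x i = true then - ((1 - q i) * a i) else q i * a i) := by
    rw [← Finset.sum_add_distrib]
    apply Finset.sum_congr rfl
    intro i _
    by_cases hxi : x i = true
    · have hqi := hx1 i hxi
      simp only [hxi, if_true, ha]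
      rw [if_neg hqi.ne']
      by_cases h1 : q i = 1
      · rw [if_pos h1, h1]; ring
      · rw [if_neg h1]; ring
    · have hxi' : x i = false := by simpa using hxi
      have hqi := hx2 i hxi'
      simp only [hxi', ha]
      simp only [Bool.false_eq_true, if_false]
      by_cases h0 : q i = 0
      · rw [if_pos h0, h0]; ring
      · rw [if_neg h0, if_neg hqi.ne]; ring
  rw [hsum]
  linarith

end Pool.Agent.Lib.MP_b0b8df_co
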