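import Mathlib
import Pool.Agent.Lib.MP_b0b8df_co.OneStep
import Pool.Agent.Lib.MP_b0b8df_co.Entropy

/-!
Master lemma: sequential construction.
-/

set_option autoImplicit false

namespace Pool.Agent.Lib.MP_b0b8df_co

open Finset

/-- `B N p φ r T` is the expectation of `φ (T ∪ R)`, where `R` is a random subset of
`[N - r, N)` of density `p`. -/
noncomputable def B (N : ℕ) (p : ℝ) (φ : Finset ℕ → ℝ) : ℕ → Finset ℕ → ℝ
  | 0, T => φ T
  | r + 1, T => p * B N p φ r (insert (N - (r + 1)) T) + (1 - p) * B N p φ r T

lemma B_nonneg {N : ℕ} {p : ℝ} (hp0 : 0 ≤ p) (hp1 : p ≤ 1) {φ : Finset ℕ → ℝ}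
    (h : ∀ S, 0 ≤ φ S) : ∀ r T, 0 ≤ B N p φ r T
  | 0, T => h T
  | r + 1, T => by
    have h1 := B_nonneg (N := N) hp0 hp1 h r (insert (N - (r + 1)) T)
    have h2 := B_nonneg (N := N) hp0 hp1 h r T
    have : 0 ≤ 1 - p := by linarith
    simp only [B]
    positivity

lemma B_const {N : ℕ} {p : ℝ} (c : ℝ) : ∀ r T, B N p (fun _ => c) r T = c
  | 0, T => rfl
  | r + 1, T => by
    simp only [B]
    rw [B_const c r, B_const c r]
    ring

lemma B_mono {N : ℕ} {p : ℝ} (hp0 : 0 ≤ p) (hp1 : p ≤ 1) {φ ψ : Finset ℕ → ℝ}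
    (h : ∀ S, φ S ≤ ψ S) : ∀ r T, B N p φ r T ≤ B N p ψ r T
  | 0, T => h T
  | r + 1, T => by
    have h1 := B_mono (N := N) hp0 hp1 h r (insert (N - (r + 1)) T)
    have h2 := B_mono (N := N) hp0 hp1 h r T
    have : 0 ≤ 1 - p := by linarith
    simp only [B]
    exact add_le_add (mul_le_mul_of_nonneg_left h1 hp0) (mul_le_mul_of_nonneg_left h2 this)

lemma B_le_one {N : ℕ} {p : ℝ} (hp0 : 0 ≤ p) (hp1 : p ≤ 1) {φ : Finset ℕ → ℝ}
    (h : ∀ S, φ S ≤ 1) (r : ℕ) (T : Finset ℕ) : B N p φ r T ≤ 1 := by
  have := B_mono (N := N) hp0 hp1 h r T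
  rwa [B_const] at this

lemma B_add {N : ℕ} {p : ℝ} {φ ψ : Finset ℕ → ℝ} : ∀ r T,
    B N p (fun S => φ S + ψ S) r T = B N p φ r T + B N p ψ r T
  | 0, T => rfl
  | r + 1, T => by
    simp only [B]
    rw [B_add r, B_add r]
    ring

lemma B_smul {N : ℕ} {p : ℝ} (c : ℝ) {φ : Finset ℕ → ℝ} : ∀ r T,
    B N p (fun S => c * φ S) r T = c * B N p φ r T
  | 0, T => rfl
  | r + 1, T => by
    simp only [B]
    rw [B_smul c r, B_smul c r]
    ring

lemma B_congr {N : ℕ} {p : ℝ} {φ ψ : Finset ℕ → ℝ} : ∀ r T,
    (∀ R ⊆ Finset.Ico (N - r) N, φ (T ∪ R) = ψ (T ∪ R)) → r ≤ N → B N p φ r T = B N p ψ r T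
  | 0, T, h, _ => by
    have := h ∅ (by simp)
    simpa [B] using this
  | r + 1, T, h, hr => by
    simp only [B]
    rw [B_congr r (insert (N - (r + 1)) T), B_congr r T]
    · intro R hR
      exact h R (hR.trans (Finset.Ico_subset_Ico (by omega) le_rfl))
    · omega
    · intro R hR
      have h1 : insert (N - (r + 1)) T ∪ R = T ∪ insert (N - (r + 1)) R := by
        ext y; simp
      rw [h1]
      apply h
      intro y hy
      rw [Finset.mem_insert] at hy
      rcases hy with rfl | hy
      · rw [Finset.mem_Ico]; omega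
      · have := hR hy
        rw [Finset.mem_Ico] at this ⊢; omega
    · omega

/-- generic single step -/
lemma gen_step {d : ℕ} {p α c P1 τ ϵ : ℝ} (hd : 1 ≤ d) (hp0 : 0 < p) (hp1 : p < 1)
    (hP1 : P1 = (1 + 1 / (d : ℝ)) * p) (hP1' : P1 ≤ 1 / 2) (hα : 0 ≤ α) (hc0 : 0 ≤ c)
    (hc1 : c ≤ 1) (hτ : 0 < τ) (hϵ : 0 < ϵ) (hϵ' : ϵ ≤ 1 / 4)
    (b1 b0 κ ρ Q1 Q0 Q : Fin (d + 1) → ℝ) (hb1 : ∀ i, 0 ≤ b1 i) (hb0 : ∀ i, 0 ≤ b0 i)
    (hb : ∀ i, 0 < p * b1 i + (1 - p) * b0 i) (hρ : ∀ i, 0 ≤ ρ i)
    (hκ : ∀ i, 2 * α / ϵ + c * ρ i ≤ κ i)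
    (hQ1 : ∀ i, 0 ≤ Q1 i) (hQ0 : ∀ i, 0 ≤ Q0 i)
    (hQ : ∀ i, p * Q1 i + (1 - p) * Q0 i ≤ Q i)
    (hM : c * max (∑ i, (p * b1 i / (p * b1 i + (1 - p) * b0 i)) - d) 0
      ≤ c * ∑ i, ρ i * Dq p (p * b1 i / (p * b1 i + (1 - p) * b0 i)))
    (x r : ℝ) :
    ∃ (u : Bool) (X : Fin (d + 1) → Bool), (∀ i, X i = true → 0 < b1 i) ∧
      (∀ i, X i = false → 0 < b0 i) ∧
      ((x + ((if u = true then 1 else 0) - P1)) ^ 2 + r * P1) / τ ^ 2
        + ∑ i, (κ i * (- Real.log (if X i = true then b1 i else b0 i))
          + (if X i = true then Q1 i else Q0 i) / (if X i = true then b1 i else b0 i))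
        + α * (if u = false ∧ ∃ i, X i = true then 1 else 0)
        + c * (if ∀ i, X i = true then 1 else 0)
      ≤ (x ^ 2 + (r + 1) * P1) / τ ^ 2
        + ∑ i, (κ i * (- Real.log (p * b1 i + (1 - p) * b0 i))
          + Q i / (p * b1 i + (1 - p) * b0 i))
        + 2 * α * ϵ * p * (d + 1) := by
  have hp1' : 0 < 1 - p := by linarith
  set b : Fin (d + 1) → ℝ := fun i => p * b1 i + (1 - p) * b0 i with hbdef
  set q : Fin (d + 1) → ℝ := fun i => p * b1 i / b i with hqdef
  have hbpos : ∀ i, 0 < b i := hb
  have hq0 : ∀ i, 0 ≤ q i := by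
    intro i
    have h1 := hb1 i
    have h2 := hbpos i
    change 0 ≤ p * b1 i / b i
    positivity
  have hq' : ∀ i, 1 - q i = (1 - p) * b0 i / b i := by
    intro i
    have := (hbpos i).ne'
    change 1 - p * b1 i / b i = (1 - p) * b0 i / b i
    rw [eq_div_iff this, sub_mul, div_mul_cancel₀ _ this]
    simp only [hbdef]; ring
  have hq1 : ∀ i, q i ≤ 1 := by
    intro i
    have : 0 ≤ 1 - q i := by
      rw [hq']
      have h1 := hb0 i
      have h2 := hbpos i
      positivity
    linarith
  obtain ⟨u, X, hX1, hX2, hX3⟩ := one_step d hd p α c P1 hp0 hP1 hP1' hα hc0 hc1 q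
    (fun i => κ i * (- Real.log (b0 i)) + Q0 i / b0 i)
    (fun i => κ i * (- Real.log (b1 i)) + Q1 i / b1 i) hq0 hq1
    (((x - P1) ^ 2 + r * P1) / τ ^ 2) (((x + (1 - P1)) ^ 2 + r * P1) / τ ^ 2)
  refine ⟨u, X, ?_, ?_, ?_⟩
  · intro i hi
    have h := hX1 i hi
    rcases (hb1 i).lt_or_eq with h1 | h1
    · exact h1
    · exfalso
      change 0 < p * b1 i / b i at h
      rw [← h1] at h
      simp at h
  · intro i hi
    have h := hX2 i hi
    rcases (hb0 i).lt_or_eq with h1 | h1
    · exact h1
    · exfalso
      have h2 := hq' i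
      rw [← h1] at h2
      simp at h2
      linarith
  · have eG : (if u = true then ((x + (1 - P1)) ^ 2 + r * P1) / τ ^ 2
        else ((x - P1) ^ 2 + r * P1) / τ ^ 2)
        = ((x + ((if u = true then 1 else 0) - P1)) ^ 2 + r * P1) / τ ^ 2 := by
      by_cases h : u = true
      · rw [if_pos h, if_pos h]
      · rw [if_neg h, if_neg h]; ring
    have eH : ∑ i, (if X i = true then κ i * (- Real.log (b1 i)) + Q1 i / b1 i
        else κ i * (- Real.log (b0 i)) + Q0 i / b0 i)
        = ∑ i, (κ i * (- Real.log (if X i = true then b1 i else b0 i))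
          + (if X i = true then Q1 i else Q0 i) / (if X i = true then b1 i else b0 i)) := by
      apply Finset.sum_congr rfl
      intro i _
      by_cases h : X i = true
      · simp [h]
      · simp [h]
    rw [eG, eH] at hX3
    refine hX3.trans ?_
    -- now the right side
    have hG : P1 * (((x + (1 - P1)) ^ 2 + r * P1) / τ ^ 2)
        + (1 - P1) * (((x - P1) ^ 2 + r * P1) / τ ^ 2)
        ≤ (x ^ 2 + (r + 1) * P1) / τ ^ 2 := by
      have : P1 * (((x + (1 - P1)) ^ 2 + r * P1) / τ ^ 2)
        + (1 - P1) * (((x - P1) ^ 2 + r * P1) / τ ^ 2)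
          = (x ^ 2 + (r + 1) * P1 - P1 ^ 2) / τ ^ 2 := by
        ring
      rw [this]
      apply div_le_div_of_nonneg_right _ (by positivity)
      nlinarith [sq_nonneg P1]
    have hS : ∑ i, (q i * (κ i * (- Real.log (b1 i)) + Q1 i / b1 i)
        + (1 - q i) * (κ i * (- Real.log (b0 i)) + Q0 i / b0 i))
        ≤ ∑ i, (κ i * (- Real.log (b i)) + Q i / b i - κ i * Dq p (q i)) := by
      apply Finset.sum_le_sum
      intro i _
      have hκ0 : 0 ≤ κ i := by
        have h1 := hκ i
        have h2 : 0 ≤ 2 * α / ϵ := by positivity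
        have h3 : 0 ≤ c * ρ i := mul_nonneg hc0 (hρ i)
        linarith
      have h1 := entropy_step hp0 hp1 (hb1 i) (hb0 i) (hb i)
      have h1' : q i * (- Real.log (b1 i)) + (1 - q i) * (- Real.log (b0 i))
          ≤ - Real.log (b i) - Dq p (q i) := h1
      have h2 := mul_le_mul_of_nonneg_left h1' hκ0
      have h3 : q i * (Q1 i / b1 i) + (1 - q i) * (Q0 i / b0 i) ≤ Q i / b i := by
        have hbi := hbpos i
        have e1 : q i * (Q1 i / b1 i) ≤ p * Q1 i / b i := by
          change p * b1 i / b i * (Q1 i / b1 i) ≤ p * Q1 i / b i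
          rcases (hb1 i).lt_or_eq with h | h
          · have : p * b1 i / b i * (Q1 i / b1 i) = p * Q1 i / b i := by
              field_simp
            rw [this]
          · rw [← h]
            simp
            have := hQ1 i
            positivity
        have e2 : (1 - q i) * (Q0 i / b0 i) ≤ (1 - p) * Q0 i / b i := by
          rw [hq']
          rcases (hb0 i).lt_or_eq with h | h
          · have : (1 - p) * b0 i / b i * (Q0 i / b0 i) = (1 - p) * Q0 i / b i := by
              field_simp
            rw [this]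
          · rw [← h]
            simp
            have := hQ0 i
            positivity
        calc q i * (Q1 i / b1 i) + (1 - q i) * (Q0 i / b0 i)
            ≤ p * Q1 i / b i + (1 - p) * Q0 i / b i := add_le_add e1 e2
          _ = (p * Q1 i + (1 - p) * Q0 i) / b i := by ring
          _ ≤ Q i / b i := div_le_div_of_nonneg_right (hQ i) hbi.le
      nlinarith
    have hC : 2 * α * ∑ i, max (q i - p) 0
        ≤ ∑ i, (2 * α / ϵ * Dq p (q i)) + 2 * α * ϵ * p * (d + 1) := by
      have h1 : ∑ i, max (q i - p) 0 ≤ ∑ i, (Dq p (q i) / ϵ + ϵ * p) :=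
        Finset.sum_le_sum fun i _ => cost_le hp0 (hq0 i) hϵ hϵ'
      have h2 := mul_le_mul_of_nonneg_left h1 (show (0 : ℝ) ≤ 2 * α by positivity)
      refine h2.trans (le_of_eq ?_)
      rw [Finset.sum_add_distrib, mul_add, Finset.mul_sum]
      congr 1
      · apply Finset.sum_congr rfl
        intro i _
        ring
      · simp
        ring
    have hD : ∑ i, (2 * α / ϵ * Dq p (q i)) + c * ∑ i, ρ i * Dq p (q i)
        ≤ ∑ i, κ i * Dq p (q i) := by
      rw [Finset.mul_sum, ← Finset.sum_add_distrib]
      apply Finset.sum_le_sum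
      intro i _
      have h1 := mul_le_mul_of_nonneg_right (hκ i) (Dq_nonneg (p := p) (hq0 i))
      nlinarith
    have hS' : ∑ i, (κ i * (- Real.log (b i)) + Q i / b i - κ i * Dq p (q i))
        = ∑ i, (κ i * (- Real.log (b i)) + Q i / b i) - ∑ i, κ i * Dq p (q i) := by
      rw [Finset.sum_sub_distrib]
    rw [hS'] at hS
    have hM' : c * max (∑ i, q i - d) 0 ≤ c * ∑ i, ρ i * Dq p (q i) := hM
    linarith

open Classical in
/-- real-valued indicator of a proposition -/
noncomputable def ind (P : Prop) : ℝ := if P then 1 else 0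

lemma ind_pos {P : Prop} (h : P) : ind P = 1 := by simp [ind, h]

lemma ind_neg {P : Prop} (h : ¬ P) : ind P = 0 := by simp [ind, h]

lemma ind_nonneg (P : Prop) : 0 ≤ ind P := by
  unfold ind; split_ifs <;> norm_num

lemma ind_le_one (P : Prop) : ind P ≤ 1 := by
  unfold ind; split_ifs <;> norm_num

/-- cardinality book-keeping -/
lemma bookkeep {d : ℕ} (e : ℕ) (X : Fin (d + 1) → Bool) (R' : Fin (d + 1) → Finset ℕ) :
    ((Finset.univ.biUnion (fun i => if X i = true then insert e (R' i) else R' i)).card : ℝ)
      ≤ (Finset.univ.biUnion R').card + (if ∃ i, X i = true then 1 else 0) := by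
  by_cases h : ∃ i, X i = true
  · rw [if_pos h]
    have h1 : Finset.univ.biUnion (fun i => if X i = true then insert e (R' i) else R' i)
        ⊆ insert e (Finset.univ.biUnion R') := by
      intro y hy
      simp only [Finset.mem_biUnion, Finset.mem_univ, true_and] at hy
      obtain ⟨i, hi⟩ := hy
      rw [Finset.mem_insert]
      by_cases hX : X i = true
      · rw [if_pos hX, Finset.mem_insert] at hi
        rcases hi with hi | hi
        · exact Or.inl hi
        · exact Or.inr (Finset.mem_biUnion.2 ⟨i, Finset.mem_univ _, hi⟩)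
      · rw [if_neg hX] at hi
        exact Or.inr (Finset.mem_biUnion.2 ⟨i, Finset.mem_univ _, hi⟩)
    have h2 := (Finset.card_le_card h1).trans (Finset.card_insert_le _ _)
    exact_mod_cast h2
  · rw [if_neg h]
    push Not at h
    have h1 : (fun i => if X i = true then insert e (R' i) else R' i) = R' := by
      funext i
      rw [if_neg (h i)]
    rw [h1, add_zero]

/-- master lemma without collision control. -/
theorem master0 {d N : ℕ} {p α P1 τ ϵ : ℝ} (hd : 1 ≤ d) (hp0 : 0 < p) (hp1 : p < 1)
    (hP1 : P1 = (1 + 1 / (d : ℝ)) * p) (hP1' : P1 ≤ 1 / 2) (hα : 0 ≤ α)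
    (hτ : 0 < τ) (hϵ : 0 < ϵ) (hϵ' : ϵ ≤ 1 / 4)
    (f : Fin (d + 1) → Finset ℕ → ℝ) (hf0 : ∀ i S, 0 ≤ f i S) (hf1 : ∀ i S, f i S ≤ 1)
    (κ : Fin (d + 1) → ℝ) (hκ : ∀ i, 2 * α / ϵ ≤ κ i) :
    ∀ r, r ≤ N → ∀ (T : Fin (d + 1) → Finset ℕ) (x : ℝ), (∀ i, 0 < B N p (f i) r (T i)) →
    ∃ (R : Fin (d + 1) → Finset ℕ) (D E : ℝ), (∀ i, R i ⊆ Finset.Ico (N - r) N) ∧
      (∀ i, 0 < f i (T i ∪ R i)) ∧ 0 ≤ E ∧
      ((Finset.univ.biUnion R).card : ℝ) ≤ P1 * r + D + E ∧
      (x + D) ^ 2 / τ ^ 2 + α * E
      ≤ (x ^ 2 + r * P1) / τ ^ 2 + ∑ i, κ i * (- Real.log (B N p (f i) r (T i)))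
        + 2 * α * ϵ * p * (d + 1) * r := by
  have hκ0 : ∀ i, 0 ≤ κ i := fun i => le_trans (by positivity) (hκ i)
  intro r
  induction r with
  | zero =>
    intro _ T x hT
    refine ⟨fun _ => ∅, 0, 0, ?_, ?_, le_rfl, ?_, ?_⟩
    · intro i; simp
    · intro i; simpa [B] using hT i
    · have h0 : (Finset.univ.biUnion fun _ : Fin (d + 1) => (∅ : Finset ℕ)) = ∅ := by
        ext y; simp
      rw [h0]; simp
    · have h1 : 0 ≤ ∑ i, κ i * (- Real.log (B N p (f i) 0 (T i))) := by
        apply Finset.sum_nonneg
        intro i _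
        apply mul_nonneg (hκ0 i)
        have := Real.log_nonpos (hT i).le (B_le_one hp0.le hp1.le (hf1 i) 0 (T i))
        linarith
      simp
      simp at h1
      linarith
  | succ r ih =>
    intro hr T x hT
    set e := N - (r + 1) with he
    obtain ⟨u, X, hX1, hX2, hX3⟩ := gen_step (c := 0) hd hp0 hp1 hP1 hP1' hα le_rfl zero_le_one
      hτ hϵ hϵ' (fun i => B N p (f i) r (insert e (T i))) (fun i => B N p (f i) r (T i)) κ
      (fun _ => 0) (fun _ => 0) (fun _ => 0) (fun _ => 0)
      (fun i => B_nonneg hp0.le hp1.le (hf0 i) _ _) (fun i => B_nonneg hp0.le hp1.le (hf0 i) _ _)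
      (fun i => hT i) (fun _ => le_rfl) (fun i => by simpa using hκ i)
      (fun _ => le_rfl) (fun _ => le_rfl) (fun i => by simp) (by simp) x r
    have hpos : ∀ i, 0 < B N p (f i) r (if X i = true then insert e (T i) else T i) := by
      intro i
      by_cases h : X i = true
      · rw [if_pos h]; exact hX1 i h
      · rw [if_neg h]; exact hX2 i (by simpa using h)
    obtain ⟨R', D, E, h1, h2, h3, h4, h5⟩ := ih (by omega)
      (fun i => if X i = true then insert e (T i) else T i)
      (x + ((if u = true then 1 else 0) - P1)) hpos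
    refine ⟨fun i => if X i = true then insert e (R' i) else R' i,
      D + ((if u = true then 1 else 0) - P1),
      E + (if u = false ∧ ∃ i, X i = true then 1 else 0), ?_, ?_, ?_, ?_, ?_⟩
    · intro i y hy
      have h1i := h1 i
      by_cases h : X i = true
      · simp only [if_pos h, Finset.mem_insert] at hy
        rcases hy with rfl | hy
        · rw [Finset.mem_Ico]; omega
        · have := h1i hy
          rw [Finset.mem_Ico] at this ⊢; omega
      · simp only [if_neg h] at hy
        have := h1i hy
        rw [Finset.mem_Ico] at this ⊢; omega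
    · intro i
      have h2i := h2 i
      by_cases h : X i = true
      · simp only [if_pos h] at h2i ⊢
        have : T i ∪ insert e (R' i) = insert e (T i) ∪ R' i := by
          ext y; simp
        rw [this]; exact h2i
      · simp only [if_neg h] at h2i ⊢
        exact h2i
    · have : (0 : ℝ) ≤ (if u = false ∧ ∃ i, X i = true then 1 else 0) := by
        split_ifs <;> norm_num
      linarith
    · have hb := bookkeep e X R'
      have hu : (if ∃ i, X i = true then (1 : ℝ) else 0)
          ≤ (if u = true then 1 else 0) + (if u = false ∧ ∃ i, X i = true then 1 else 0) := by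
        by_cases h : ∃ i, X i = true
        · cases u
          · simp [h]
          · simp [h]
        · simp only [h, if_false, and_false]
          split_ifs <;> norm_num
      push_cast
      linarith
    · have hsum : ∑ i, (κ i * (- Real.log (if X i = true then B N p (f i) r (insert e (T i))
            else B N p (f i) r (T i))) + (if X i = true then (0 : ℝ) else 0)
            / (if X i = true then B N p (f i) r (insert e (T i)) else B N p (f i) r (T i)))
          = ∑ i, κ i * (- Real.log (B N p (f i) r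
            (if X i = true then insert e (T i) else T i))) := by
        apply Finset.sum_congr rfl
        intro i _
        by_cases h : X i = true
        · simp [h]
        · simp [h]
      have hsum2 : ∑ i, (κ i * (- Real.log (p * B N p (f i) r (insert e (T i))
            + (1 - p) * B N p (f i) r (T i)))
            + (0 : ℝ) / (p * B N p (f i) r (insert e (T i)) + (1 - p) * B N p (f i) r (T i)))
          = ∑ i, κ i * (- Real.log (B N p (f i) (r + 1) (T i))) := by
        apply Finset.sum_congr rfl
        intro i _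
        rw [zero_div, add_zero]
        rfl
      have hX3 := hX3.trans_eq (by rw [hsum2])
      rw [hsum] at hX3
      push_cast
      have e1 : x + (D + ((if u = true then 1 else 0) - P1))
          = x + ((if u = true then 1 else 0) - P1) + D := by ring
      rw [e1]
      simp only [zero_mul, add_zero] at hX3
      linarith

/-- master lemma with collision control. -/
theorem master1 {d N : ℕ} {p α P1 τ ϵ : ℝ} (hd : 1 ≤ d) (hp0 : 0 < p) (hp1 : p < 1)
    (hP1 : P1 = (1 + 1 / (d : ℝ)) * p) (hP1' : P1 ≤ 1 / 2) (hα : 0 ≤ α)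
    (hτ : 0 < τ) (hϵ : 0 < ϵ) (hϵ' : ϵ ≤ 1 / 4)
    (f : Fin (d + 1) → Finset ℕ → ℝ) (hf0 : ∀ i S, 0 ≤ f i S) (hf1 : ∀ i S, f i S ≤ 1)
    (κ ρ : Fin (d + 1) → ℝ) (hρ : ∀ i, 0 ≤ ρ i) (hκ : ∀ i, 2 * α / ϵ + ρ i ≤ κ i)
    (P : Fin (d + 1) → ℕ → Finset ℕ → ℝ) (hP : ∀ i r T, 0 ≤ P i r T)
    (M1 : ∀ i r T, r + 1 ≤ N → T ⊆ Finset.range (N - (r + 1)) →
      0 < B N p (f i) (r + 1) T → P i (r + 1) T < B N p (f i) (r + 1) T →
      p * P i r (insert (N - (r + 1)) T) + (1 - p) * P i r T ≤ P i (r + 1) T)
    (M2 : ∀ r (T : Fin (d + 1) → Finset ℕ), r + 1 ≤ N →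
      (∀ i, T i ⊆ Finset.range (N - (r + 1))) →
      (∀ i, 0 < B N p (f i) (r + 1) (T i)) →
      (∀ i, P i (r + 1) (T i) < B N p (f i) (r + 1) (T i)) →
      max (∑ i, (p * B N p (f i) r (insert (N - (r + 1)) (T i))
        / B N p (f i) (r + 1) (T i)) - d) 0
      ≤ ∑ i, ρ i * Dq p (p * B N p (f i) r (insert (N - (r + 1)) (T i))
        / B N p (f i) (r + 1) (T i))) :
    ∀ r, r ≤ N → ∀ (T : Fin (d + 1) → Finset ℕ) (x : ℝ),
    (∀ i, T i ⊆ Finset.range (N - r)) → (∀ i, 0 < B N p (f i) r (T i)) →
    ∃ (R : Fin (d + 1) → Finset ℕ) (D E : ℝ), (∀ i, R i ⊆ Finset.Ico (N - r) N) ∧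
      (∀ i, 0 < f i (T i ∪ R i)) ∧ 0 ≤ E ∧
      ((Finset.univ.biUnion R).card : ℝ) ≤ P1 * r + D + E ∧
      (x + D) ^ 2 / τ ^ 2 + α * E
        + ind ((∃ y, ∀ i, y ∈ R i) ∨ (∃ i, f i (T i ∪ R i) ≤ P i 0 (T i ∪ R i)))
      ≤ (x ^ 2 + r * P1) / τ ^ 2
        + ∑ i, (κ i * (- Real.log (B N p (f i) r (T i))) + P i r (T i) / B N p (f i) r (T i))
        + 2 * α * ϵ * p * (d + 1) * r := by
  have hκ' : ∀ i, 2 * α / ϵ ≤ κ i := fun i => le_trans (by linarith [hρ i]) (hκ i)
  have hκ0 : ∀ i, 0 ≤ κ i := fun i => le_trans (by positivity) (hκ' i)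
  intro r
  induction r with
  | zero =>
    intro _ T x _ hT
    refine ⟨fun _ => ∅, 0, 0, ?_, ?_, le_rfl, ?_, ?_⟩
    · intro i; simp
    · intro i; simpa [B] using hT i
    · have h0 : (Finset.univ.biUnion fun _ : Fin (d + 1) => (∅ : Finset ℕ)) = ∅ := by
        ext y; simp
      rw [h0]; simp
    · have h1 : ∀ i, 0 ≤ κ i * (- Real.log (B N p (f i) 0 (T i))) := by
        intro i
        apply mul_nonneg (hκ0 i)
        have := Real.log_nonpos (hT i).le (B_le_one hp0.le hp1.le (hf1 i) 0 (T i))
        linarith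
      have h2 : ∀ i, 0 ≤ P i 0 (T i) / B N p (f i) 0 (T i) := fun i =>
        div_nonneg (hP i 0 (T i)) (hT i).le
      have h3 : ind ((∃ y, ∀ i : Fin (d + 1), y ∈ (∅ : Finset ℕ))
          ∨ (∃ i, f i (T i ∪ ∅) ≤ P i 0 (T i ∪ ∅)))
          ≤ ∑ i, (κ i * (- Real.log (B N p (f i) 0 (T i))) + P i 0 (T i) / B N p (f i) 0 (T i)) := by
        by_cases h : ((∃ y, ∀ i : Fin (d + 1), y ∈ (∅ : Finset ℕ))
          ∨ (∃ i, f i (T i ∪ ∅) ≤ P i 0 (T i ∪ ∅)))
        · rw [ind_pos h]
          rcases h with ⟨y, hy⟩ | ⟨i, hi⟩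
          · exact absurd (hy 0) (by simp)
          · have h4 : 1 ≤ P i 0 (T i) / B N p (f i) 0 (T i) := by
              rw [one_le_div (hT i)]
              simpa [B] using hi
            have h5 := Finset.single_le_sum (f := fun i => κ i * (- Real.log (B N p (f i) 0 (T i)))
              + P i 0 (T i) / B N p (f i) 0 (T i)) (fun i _ => add_nonneg (h1 i) (h2 i))
              (Finset.mem_univ i)
            have := h1 i
            linarith
        · rw [ind_neg h]
          exact Finset.sum_nonneg fun i _ => add_nonneg (h1 i) (h2 i)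
      simp only [Nat.cast_zero, zero_mul, mul_zero, add_zero]
      linarith
  | succ r ih =>
    intro hr T x hTr hT
    by_cases hstop : ∃ i, B N p (f i) (r + 1) (T i) ≤ P i (r + 1) (T i)
    · -- stopped
      obtain ⟨i₀, hi₀⟩ := hstop
      obtain ⟨R, D, E, h1, h2, h3, h4, h5⟩ := master0 hd hp0 hp1 hP1 hP1' hα hτ hϵ hϵ' f hf0 hf1 κ
        hκ' (r + 1) hr T x hT
      refine ⟨R, D, E, h1, h2, h3, h4, ?_⟩
      have h6 : (1 : ℝ) ≤ ∑ i, P i (r + 1) (T i) / B N p (f i) (r + 1) (T i) := by
        have h7 : 1 ≤ P i₀ (r + 1) (T i₀) / B N p (f i₀) (r + 1) (T i₀) := by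
          rw [one_le_div (hT i₀)]; exact hi₀
        exact h7.trans (Finset.single_le_sum
          (f := fun i => P i (r + 1) (T i) / B N p (f i) (r + 1) (T i))
          (fun i _ => div_nonneg (hP _ _ _) (hT i).le) (Finset.mem_univ i₀))
      have h8 := ind_le_one ((∃ y, ∀ i, y ∈ R i) ∨ (∃ i, f i (T i ∪ R i) ≤ P i 0 (T i ∪ R i)))
      rw [Finset.sum_add_distrib]
      linarith
    · push Not at hstop
      set e := N - (r + 1) with he
      obtain ⟨u, X, hX1, hX2, hX3⟩ := gen_step (c := 1) hd hp0 hp1 hP1 hP1' hα zero_le_one le_rfl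
        hτ hϵ hϵ' (fun i => B N p (f i) r (insert e (T i))) (fun i => B N p (f i) r (T i)) κ
        ρ (fun i => P i r (insert e (T i))) (fun i => P i r (T i)) (fun i => P i (r + 1) (T i))
        (fun i => B_nonneg hp0.le hp1.le (hf0 i) _ _) (fun i => B_nonneg hp0.le hp1.le (hf0 i) _ _)
        (fun i => hT i) hρ (fun i => by simpa using hκ i)
        (fun i => hP _ _ _) (fun i => hP _ _ _)
        (fun i => M1 i r (T i) hr (hTr i) (hT i) (hstop i))
        (by
          rw [one_mul, one_mul]
          exact M2 r T hr hTr hT hstop) x r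
      have hpos : ∀ i, 0 < B N p (f i) r (if X i = true then insert e (T i) else T i) := by
        intro i
        by_cases h : X i = true
        · rw [if_pos h]; exact hX1 i h
        · rw [if_neg h]; exact hX2 i (by simpa using h)
      have hTr' : ∀ i, (if X i = true then insert e (T i) else T i) ⊆ Finset.range (N - r) := by
        intro i y hy
        have := hTr i
        by_cases h : X i = true
        · rw [if_pos h, Finset.mem_insert] at hy
          rcases hy with rfl | hy
          · rw [Finset.mem_range]; omega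
          · have h2 := this hy
            rw [Finset.mem_range] at h2 ⊢; omega
        · rw [if_neg h] at hy
          have h2 := this hy
          rw [Finset.mem_range] at h2 ⊢; omega
      -- abbreviations
      have hsum : ∑ i, (κ i * (- Real.log (if X i = true then B N p (f i) r (insert e (T i))
            else B N p (f i) r (T i))) + (if X i = true then P i r (insert e (T i)) else P i r (T i))
            / (if X i = true then B N p (f i) r (insert e (T i)) else B N p (f i) r (T i)))
          = ∑ i, (κ i * (- Real.log (B N p (f i) r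
            (if X i = true then insert e (T i) else T i)))
            + P i r (if X i = true then insert e (T i) else T i)
              / B N p (f i) r (if X i = true then insert e (T i) else T i)) := by
        apply Finset.sum_congr rfl
        intro i _
        by_cases h : X i = true
        · simp [h]
        · simp [h]
      have hsum2 : ∑ i, (κ i * (- Real.log (p * B N p (f i) r (insert e (T i))
            + (1 - p) * B N p (f i) r (T i)))
            + P i (r + 1) (T i)
              / (p * B N p (f i) r (insert e (T i)) + (1 - p) * B N p (f i) r (T i)))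
          = ∑ i, (κ i * (- Real.log (B N p (f i) (r + 1) (T i)))
            + P i (r + 1) (T i) / B N p (f i) (r + 1) (T i)) := rfl
      rw [hsum, hsum2, one_mul] at hX3
      -- general construction
      have hmain : ∀ (R' : Fin (d + 1) → Finset ℕ) (D E v : ℝ),
          (∀ i, R' i ⊆ Finset.Ico (N - r) N) →
          (∀ i, 0 < f i ((if X i = true then insert e (T i) else T i) ∪ R' i)) → 0 ≤ E →
          ((Finset.univ.biUnion R').card : ℝ) ≤ P1 * r + D + E →
          (x + ((if u = true then 1 else 0) - P1) + D) ^ 2 / τ ^ 2 + α * E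
            + v ≤ ((x + ((if u = true then 1 else 0) - P1)) ^ 2 + r * P1) / τ ^ 2
            + ∑ i, (κ i * (- Real.log (B N p (f i) r
              (if X i = true then insert e (T i) else T i)))
              + P i r (if X i = true then insert e (T i) else T i)
                / B N p (f i) r (if X i = true then insert e (T i) else T i))
            + 2 * α * ϵ * p * (d + 1) * r →
          (ind ((∃ y, ∀ i, y ∈ (if X i = true then insert e (R' i) else R' i))
            ∨ (∃ i, f i (T i ∪ (if X i = true then insert e (R' i) else R' i))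
              ≤ P i 0 (T i ∪ (if X i = true then insert e (R' i) else R' i))))
            ≤ v + (if ∀ i, X i = true then 1 else 0)) →
          ∃ (R : Fin (d + 1) → Finset ℕ) (D E : ℝ), (∀ i, R i ⊆ Finset.Ico (N - (r + 1)) N) ∧
            (∀ i, 0 < f i (T i ∪ R i)) ∧ 0 ≤ E ∧
            ((Finset.univ.biUnion R).card : ℝ) ≤ P1 * (r + 1 : ℕ) + D + E ∧
            (x + D) ^ 2 / τ ^ 2 + α * E
              + ind ((∃ y, ∀ i, y ∈ R i) ∨ (∃ i, f i (T i ∪ R i) ≤ P i 0 (T i ∪ R i)))
            ≤ (x ^ 2 + (r + 1 : ℕ) * P1) / τ ^ 2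
              + ∑ i, (κ i * (- Real.log (B N p (f i) (r + 1) (T i)))
                + P i (r + 1) (T i) / B N p (f i) (r + 1) (T i))
              + 2 * α * ϵ * p * (d + 1) * (r + 1 : ℕ) := by
        intro R' D E v h1 h2 h3 h4 h5 h6
        refine ⟨fun i => if X i = true then insert e (R' i) else R' i,
          D + ((if u = true then 1 else 0) - P1),
          E + (if u = false ∧ ∃ i, X i = true then 1 else 0), ?_, ?_, ?_, ?_, ?_⟩
        · intro i y hy
          have h1i := h1 i
          by_cases h : X i = true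
          · simp only [if_pos h, Finset.mem_insert] at hy
            rcases hy with rfl | hy
            · rw [Finset.mem_Ico]; omega
            · have := h1i hy
              rw [Finset.mem_Ico] at this ⊢; omega
          · simp only [if_neg h] at hy
            have := h1i hy
            rw [Finset.mem_Ico] at this ⊢; omega
        · intro i
          have h2i := h2 i
          by_cases h : X i = true
          · simp only [if_pos h] at h2i ⊢
            have : T i ∪ insert e (R' i) = insert e (T i) ∪ R' i := by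
              ext y; simp
            rw [this]; exact h2i
          · simp only [if_neg h] at h2i ⊢
            exact h2i
        · have : (0 : ℝ) ≤ (if u = false ∧ ∃ i, X i = true then 1 else 0) := by
            split_ifs <;> norm_num
          linarith
        · have hb := bookkeep e X R'
          have hu : (if ∃ i, X i = true then (1 : ℝ) else 0)
              ≤ (if u = true then 1 else 0) + (if u = false ∧ ∃ i, X i = true then 1 else 0) := by
            by_cases h : ∃ i, X i = true
            · cases u
              · simp [h]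
              · simp [h]
            · simp only [h, if_false, and_false]
              split_ifs <;> norm_num
          push_cast
          linarith
        · have e1 : x + (D + ((if u = true then 1 else 0) - P1))
              = x + ((if u = true then 1 else 0) - P1) + D := by ring
          rw [e1]
          have h7 := h6
          push_cast
          linarith
      by_cases hall : ∀ i, X i = true
      · -- collision
        obtain ⟨R', D, E, h1, h2, h3, h4, h5⟩ := master0 hd hp0 hp1 hP1 hP1' hα hτ hϵ hϵ' f hf0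
          hf1 κ hκ' r (by omega) (fun i => if X i = true then insert e (T i) else T i)
          (x + ((if u = true then 1 else 0) - P1)) hpos
        refine hmain R' D E 0 h1 h2 h3 h4 ?_ ?_
        · have h6 : 0 ≤ ∑ i, P i r (if X i = true then insert e (T i) else T i)
                / B N p (f i) r (if X i = true then insert e (T i) else T i) :=
            Finset.sum_nonneg fun i _ => div_nonneg (hP _ _ _) (hpos i).le
          rw [Finset.sum_add_distrib]
          linarith
        · rw [if_pos hall, zero_add]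
          exact ind_le_one _
      · obtain ⟨R', D, E, h1, h2, h3, h4, h5⟩ := ih (by omega)
          (fun i => if X i = true then insert e (T i) else T i)
          (x + ((if u = true then 1 else 0) - P1)) hTr' hpos
        refine hmain R' D E _ h1 h2 h3 h4 h5 ?_
        rw [if_neg hall, add_zero]
        have himp : ((∃ y, ∀ i, y ∈ (if X i = true then insert e (R' i) else R' i))
            ∨ (∃ i, f i (T i ∪ (if X i = true then insert e (R' i) else R' i))
              ≤ P i 0 (T i ∪ (if X i = true then insert e (R' i) else R' i)))) →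
            ((∃ y, ∀ i, y ∈ R' i)
            ∨ (∃ i, f i ((if X i = true then insert e (T i) else T i) ∪ R' i)
              ≤ P i 0 ((if X i = true then insert e (T i) else T i) ∪ R' i))) := by
          rintro (⟨y, hy⟩ | ⟨i, hi⟩)
          · left
            refine ⟨y, ?_⟩
            have hye : y ≠ e := by
              rintro rfl
              apply hall
              intro i
              by_contra h
              have h2 := hy i
              rw [if_neg h] at h2
              have h3 := h1 i h2
              rw [Finset.mem_Ico] at h3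
              omega
            intro i
            have h2 := hy i
            by_cases h : X i = true
            · rw [if_pos h, Finset.mem_insert] at h2
              exact h2.resolve_left hye
            · rw [if_neg h] at h2
              exact h2
          · right
            refine ⟨i, ?_⟩
            by_cases h : X i = true
            · rw [if_pos h] at hi ⊢
              have : T i ∪ insert e (R' i) = insert e (T i) ∪ R' i := by
                ext y; simp
              rw [this] at hi; exact hi
            · rw [if_neg h] at hi ⊢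
              exact hi
        by_cases hc : ((∃ y, ∀ i, y ∈ (if X i = true then insert e (R' i) else R' i))
            ∨ (∃ i, f i (T i ∪ (if X i = true then insert e (R' i) else R' i))
              ≤ P i 0 (T i ∪ (if X i = true then insert e (R' i) else R' i))))
        · rw [ind_pos hc, ind_pos (himp hc)]
        · rw [ind_neg hc]
          exact ind_nonneg _

end Pool.Agent.Lib.MP_b0b8df_co
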