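import Mathlib
import Pool.Agent.Lib.MP_b0b8df_co.Master

/-!
Product measure computations.
-/

set_option autoImplicit false

namespace Pool.Agent.Lib.MP_b0b8df_co

open Finset

/-- `p`-biased expectation over subsets of `U`. -/
noncomputable def Ew (p : ℝ) (U : Finset ℕ) (φ : Finset ℕ → ℝ) : ℝ :=
  ∑ S ∈ U.powerset, p ^ S.card * (1 - p) ^ (U.card - S.card) * φ S

lemma Ew_insert {p : ℝ} {U : Finset ℕ} {x : ℕ} (hx : x ∉ U) (φ : Finset ℕ → ℝ) :
    Ew p (insert x U) φ = p * Ew p U (fun S => φ (insert x S)) + (1 - p) * Ew p U φ := by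
  unfold Ew
  rw [Finset.sum_powerset_insert hx, add_comm, Finset.mul_sum, Finset.mul_sum]
  congr 1
  · apply Finset.sum_congr rfl
    intro S hS
    rw [Finset.mem_powerset] at hS
    have hxS : x ∉ S := fun h => hx (hS h)
    have hc := Finset.card_le_card hS
    rw [Finset.card_insert_of_notMem hx, Finset.card_insert_of_notMem hxS]
    have : U.card + 1 - (S.card + 1) = U.card - S.card := by omega
    rw [this]; ring
  · apply Finset.sum_congr rfl
    intro S hS
    rw [Finset.mem_powerset] at hS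
    have hc := Finset.card_le_card hS
    rw [Finset.card_insert_of_notMem hx]
    have : U.card + 1 - S.card = (U.card - S.card) + 1 := by omega
    rw [this]; ring

lemma Ew_congr {p : ℝ} {U : Finset ℕ} {φ ψ : Finset ℕ → ℝ} (h : ∀ S ⊆ U, φ S = ψ S) :
    Ew p U φ = Ew p U ψ := by
  unfold Ew
  apply Finset.sum_congr rfl
  intro S hS
  rw [h S (Finset.mem_powerset.1 hS)]

lemma Ew_mono {p : ℝ} (hp0 : 0 ≤ p) (hp1 : p ≤ 1) {U : Finset ℕ} {φ ψ : Finset ℕ → ℝ}
    (h : ∀ S ⊆ U, φ S ≤ ψ S) : Ew p U φ ≤ Ew p U ψ := by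
  unfold Ew
  apply Finset.sum_le_sum
  intro S hS
  have : 0 ≤ 1 - p := by linarith
  exact mul_le_mul_of_nonneg_left (h S (Finset.mem_powerset.1 hS)) (by positivity)

lemma Ew_nonneg {p : ℝ} (hp0 : 0 ≤ p) (hp1 : p ≤ 1) {U : Finset ℕ} {φ : Finset ℕ → ℝ}
    (h : ∀ S ⊆ U, 0 ≤ φ S) : 0 ≤ Ew p U φ := by
  unfold Ew
  apply Finset.sum_nonneg
  intro S hS
  have : 0 ≤ 1 - p := by linarith
  have := h S (Finset.mem_powerset.1 hS)
  positivity

lemma Ew_add {p : ℝ} {U : Finset ℕ} {φ ψ : Finset ℕ → ℝ} :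
    Ew p U (fun S => φ S + ψ S) = Ew p U φ + Ew p U ψ := by
  unfold Ew
  rw [← Finset.sum_add_distrib]
  apply Finset.sum_congr rfl
  intro S _
  ring

lemma B_eq_Ew {N : ℕ} {p : ℝ} (φ : Finset ℕ → ℝ) : ∀ r T, r ≤ N →
    B N p φ r T = Ew p (Finset.Ico (N - r) N) (fun R => φ (T ∪ R))
  | 0, T, _ => by simp [B, Ew]
  | r + 1, T, hr => by
    have h1 : Finset.Ico (N - (r + 1)) N = insert (N - (r + 1)) (Finset.Ico (N - r) N) := by
      ext y
      rw [Finset.mem_insert, Finset.mem_Ico, Finset.mem_Ico]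
      omega
    have h2 : N - (r + 1) ∉ Finset.Ico (N - r) N := by
      rw [Finset.mem_Ico]; omega
    rw [h1, Ew_insert h2]
    simp only [B]
    rw [B_eq_Ew φ r _ (by omega), B_eq_Ew φ r _ (by omega)]
    congr 3
    funext R
    congr 1
    ext y; simp

lemma B_eq_Ew' {N : ℕ} {p : ℝ} (φ : Finset ℕ → ℝ) :
    B N p φ N ∅ = Ew p (Finset.range N) φ := by
  rw [B_eq_Ew φ N ∅ le_rfl, Nat.sub_self, ← Finset.range_eq_Ico]
  simp

/-- density of the family `𝒞` of `k`-sets inside `S`. -/
noncomputable def fd (k : ℕ) (𝒞 : Finset (Finset ℕ)) (S : Finset ℕ) : ℝ :=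
  ((𝒞.filter (· ⊆ S)).card : ℝ) / (S.card.choose k)

lemma fd_nonneg (k : ℕ) (𝒞 : Finset (Finset ℕ)) (S : Finset ℕ) : 0 ≤ fd k 𝒞 S := by
  unfold fd; positivity

lemma fd_le_one {k : ℕ} {𝒞 : Finset (Finset ℕ)} (h : ∀ C ∈ 𝒞, C.card = k) (S : Finset ℕ) :
    fd k 𝒞 S ≤ 1 := by
  unfold fd
  apply div_le_one_of_le₀ _ (by positivity)
  have h1 : 𝒞.filter (· ⊆ S) ⊆ Finset.powersetCard k S := by
    intro C hC
    rw [Finset.mem_filter] at hC
    rw [Finset.mem_powersetCard]
    exact ⟨hC.2, h C hC.1⟩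
  have h2 := Finset.card_le_card h1
  rw [Finset.card_powersetCard] at h2
  exact_mod_cast h2

lemma exists_of_fd_pos {k : ℕ} {𝒞 : Finset (Finset ℕ)} {S : Finset ℕ} (h : 0 < fd k 𝒞 S) :
    ∃ C ∈ 𝒞, C ⊆ S := by
  unfold fd at h
  by_contra hcon
  push Not at hcon
  have : 𝒞.filter (· ⊆ S) = ∅ := by
    rw [Finset.filter_eq_empty_iff]
    intro C hC
    exact hcon C hC
  rw [this] at h
  simp at h

lemma fd_union {k : ℕ} {𝒜 ℬ : Finset (Finset ℕ)} (h : Disjoint 𝒜 ℬ) (S : Finset ℕ) :
    fd k (𝒜 ∪ ℬ) S = fd k 𝒜 S + fd k ℬ S := by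
  unfold fd
  rw [Finset.filter_union, Finset.card_union_of_disjoint (Finset.disjoint_filter_filter h)]
  push_cast
  ring

/-- number-type sum: sets containing a fixed `k`-set -/
lemma sum_superset {U C : Finset ℕ} (hC : C ⊆ U) (h : ℕ → ℝ) :
    ∑ S ∈ U.powerset, (if C ⊆ S then h S.card else 0)
      = ∑ j ∈ Finset.range (U.card - C.card + 1), (U.card - C.card).choose j * h (j + C.card) := by
  have e1 : ∑ S ∈ U.powerset, (if C ⊆ S then h S.card else 0)
      = ∑ S' ∈ (U \ C).powerset, h (S'.card + C.card) := by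
    rw [← Finset.sum_filter]
    apply Finset.sum_nbij' (fun S => S \ C) (fun S' => S' ∪ C)
    · intro S hS
      rw [Finset.mem_filter, Finset.mem_powerset] at hS
      rw [Finset.mem_powerset]
      exact Finset.sdiff_subset_sdiff hS.1 le_rfl
    · intro S' hS'
      rw [Finset.mem_powerset] at hS'
      rw [Finset.mem_filter, Finset.mem_powerset]
      exact ⟨Finset.union_subset (hS'.trans Finset.sdiff_subset) hC, Finset.subset_union_right⟩
    · intro S hS
      rw [Finset.mem_filter, Finset.mem_powerset] at hS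
      exact Finset.sdiff_union_of_subset hS.2
    · intro S' hS'
      rw [Finset.mem_powerset] at hS'
      ext y
      simp only [Finset.mem_sdiff, Finset.mem_union]
      constructor
      · rintro ⟨h1 | h1, h2⟩
        · exact h1
        · exact absurd h1 h2
      · intro h1
        exact ⟨Or.inl h1, (Finset.mem_sdiff.1 (hS' h1)).2⟩
    · intro S hS
      rw [Finset.mem_filter, Finset.mem_powerset] at hS
      rw [Finset.card_sdiff_add_card_eq_card hS.2]
  rw [e1, Finset.sum_powerset_apply_card (fun j => h (j + C.card)), Finset.card_sdiff_of_subset hC]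
  simp only [nsmul_eq_mul]

/-- expectation of the local density -/
lemma Ew_fd {p : ℝ} {U : Finset ℕ} {k : ℕ} {𝒞 : Finset (Finset ℕ)}
    (h𝒞 : ∀ C ∈ 𝒞, C ⊆ U ∧ C.card = k) :
    Ew p U (fd k 𝒞)
      = Ew p U (fun S => if k ≤ S.card then 1 else 0) * (𝒞.card / (U.card.choose k)) := by
  set u := U.card with hu
  -- one set
  have hone : ∀ C ∈ 𝒞, ∑ S ∈ U.powerset, (if C ⊆ S then
      (p ^ S.card * (1 - p) ^ (u - S.card) / (S.card.choose k) : ℝ) else 0)
      = Ew p U (fun S => if k ≤ S.card then 1 else 0) / (u.choose k) := by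
    intro C hC
    obtain ⟨hCU, hCk⟩ := h𝒞 C hC
    have hku : k ≤ u := by rw [← hCk]; exact Finset.card_le_card hCU
    rw [sum_superset hCU (fun s => (p ^ s * (1 - p) ^ (u - s) / (s.choose k) : ℝ)), hCk]
    have hR : Ew p U (fun S => if k ≤ S.card then 1 else 0)
        = ∑ j ∈ Finset.range (u - k + 1),
          (u.choose (j + k) : ℝ) * (p ^ (j + k) * (1 - p) ^ (u - (j + k))) := by
      have h1 : Ew p U (fun S => if k ≤ S.card then 1 else 0)
          = ∑ S ∈ U.powerset, (fun s : ℕ => (if k ≤ s then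
            (p ^ s * (1 - p) ^ (u - s) : ℝ) else 0)) S.card := by
        unfold Ew
        apply Finset.sum_congr rfl
        intro S _
        simp only
        split_ifs
        · rw [mul_one]
        · rw [mul_zero]
      rw [h1, Finset.sum_powerset_apply_card (fun s : ℕ => (if k ≤ s then
            (p ^ s * (1 - p) ^ (u - s) : ℝ) else 0))]
      simp only [nsmul_eq_mul]
      rw [← hu]
      have h2 : u + 1 = k + (u - k + 1) := by omega
      rw [h2, Finset.sum_range_add]
      have h3 : ∑ j ∈ Finset.range k, (u.choose j : ℝ) * (if k ≤ j then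
            (p ^ j * (1 - p) ^ (u - j) : ℝ) else 0) = 0 := by
        apply Finset.sum_eq_zero
        intro j hj
        rw [Finset.mem_range] at hj
        rw [if_neg (by omega), mul_zero]
      rw [h3, zero_add]
      apply Finset.sum_congr rfl
      intro j _
      rw [if_pos (by omega), add_comm k j]
    rw [hR, Finset.sum_div]
    apply Finset.sum_congr rfl
    intro j hj
    rw [Finset.mem_range] at hj
    have hj' : j + k ≤ u := by omega
    have hid : (u.choose (j + k)) * ((j + k).choose k) = (u.choose k) * ((u - k).choose j) := by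
      have := Nat.choose_mul (n := u) (k := j + k) (s := k) (by omega)
      rw [this]
      congr 2
      omega
    have hid' : ((u.choose (j + k) : ℝ)) * ((j + k).choose k) = (u.choose k) * ((u - k).choose j) := by
      exact_mod_cast hid
    have hp1 : (0 : ℝ) < (j + k).choose k := by
      exact_mod_cast Nat.choose_pos (by omega)
    have hp2 : (0 : ℝ) < u.choose k := by
      exact_mod_cast Nat.choose_pos hku
    rw [eq_div_iff hp2.ne', ← mul_div_assoc, div_mul_eq_mul_div, div_eq_iff hp1.ne']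
    linear_combination (-(p ^ (j + k) * (1 - p) ^ (u - (j + k)))) * hid'
  have h1 : Ew p U (fd k 𝒞) = ∑ C ∈ 𝒞, ∑ S ∈ U.powerset, (if C ⊆ S then
      (p ^ S.card * (1 - p) ^ (u - S.card) / (S.card.choose k) : ℝ) else 0) := by
    rw [Finset.sum_comm]
    unfold Ew fd
    apply Finset.sum_congr rfl
    intro S _
    rw [← Finset.sum_filter, Finset.sum_const, nsmul_eq_mul]
    ring
  rw [h1, Finset.sum_congr rfl hone, Finset.sum_const, nsmul_eq_mul]
  ring

lemma B_sq {N : ℕ} {p a : ℝ} : ∀ r T, r ≤ N → T ⊆ Finset.range (N - r) →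
    B N p (fun S => ((S.card : ℝ) - a) ^ 2) r T
      = ((T.card : ℝ) + p * r - a) ^ 2 + r * (p * (1 - p))
  | 0, T, _, _ => by simp [B]
  | r + 1, T, hr, hT => by
    simp only [B]
    have h1 : N - (r + 1) ∉ T := by
      intro h
      have := hT h
      rw [Finset.mem_range] at this
      omega
    rw [B_sq r (insert (N - (r + 1)) T) (by omega), B_sq r T (by omega),
      Finset.card_insert_of_notMem h1]
    · push_cast; ring
    · intro y hy
      have := hT hy
      rw [Finset.mem_range] at this ⊢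
      omega
    · intro y hy
      rw [Finset.mem_insert] at hy
      rw [Finset.mem_range]
      rcases hy with rfl | hy
      · omega
      · have := hT hy
        rw [Finset.mem_range] at this
        omega

lemma tail_bound {n k : ℕ} {p ε : ℝ} (hk : 0 < k) (hε : 0 < ε)
    (hp : p * n = (1 + ε) * k) (hp0 : 0 ≤ p) (hp1 : p ≤ 1) :
    B n p (fun S => if k ≤ S.card then 0 else 1) n ∅ ≤ (1 + ε) / (ε ^ 2 * k) := by
  have hk' : (0 : ℝ) < k := by exact_mod_cast hk
  have h1 : B n p (fun S => if k ≤ S.card then 0 else 1) n ∅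
      ≤ B n p (fun S => (1 / (ε * k) ^ 2) * ((S.card : ℝ) - (1 + ε) * k) ^ 2) n ∅ := by
    apply B_mono hp0 hp1
    intro S
    split_ifs with h
    · positivity
    · rw [div_mul_eq_mul_div, le_div_iff₀ (by positivity), one_mul, one_mul]
      push Not at h
      have h2 : (S.card : ℝ) < k := by exact_mod_cast h
      have h3 : ε * k ≤ (1 + ε) * k - S.card := by linarith
      have h4 : 0 ≤ ε * k := by positivity
      calc (ε * k) ^ 2 ≤ ((1 + ε) * k - S.card) ^ 2 := pow_le_pow_left₀ h4 h3 2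
        _ = ((S.card : ℝ) - (1 + ε) * k) ^ 2 := by ring
  refine h1.trans ?_
  rw [B_smul, B_sq n ∅ le_rfl (by simp)]
  have h2 : ((∅ : Finset ℕ).card : ℝ) + p * n - (1 + ε) * k = 0 := by
    rw [hp]; simp
  rw [h2]
  have h3 : (n : ℝ) * (p * (1 - p)) ≤ (1 + ε) * k := by
    rw [← hp]
    nlinarith [mul_nonneg hp0 (Nat.cast_nonneg (α := ℝ) n), mul_nonneg (mul_nonneg hp0 hp0)
      (Nat.cast_nonneg (α := ℝ) n)]
  calc 1 / (ε * k) ^ 2 * (0 ^ 2 + n * (p * (1 - p)))
      ≤ 1 / (ε * k) ^ 2 * ((1 + ε) * k) := by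
        apply mul_le_mul_of_nonneg_left _ (by positivity)
        linarith
    _ = (1 + ε) / (ε ^ 2 * k) := by
        field_simp

lemma tail_bound' {n k : ℕ} {p ε : ℝ} (hk : 0 < k) (hε : 0 < ε)
    (hp : p * n = (1 + ε) * k) (hp0 : 0 ≤ p) (hp1 : p ≤ 1) :
    1 - (1 + ε) / (ε ^ 2 * k) ≤ B n p (fun S => if k ≤ S.card then 1 else 0) n ∅ := by
  have h1 := tail_bound hk hε hp hp0 hp1
  have h2 : B n p (fun S => (if k ≤ S.card then (1 : ℝ) else 0)
      + (if k ≤ S.card then 0 else 1)) n ∅ = 1 := by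
    have : (fun S : Finset ℕ => (if k ≤ S.card then (1 : ℝ) else 0)
      + (if k ≤ S.card then 0 else 1)) = fun _ => 1 := by
      funext S
      split_ifs <;> norm_num
    rw [this, B_const]
  rw [B_add] at h2
  linarith

/-- the contribution of sets avoiding `x` to the event `x ∈ S` is small -/
lemma Ew_pair {p : ℝ} (hp0 : 0 ≤ p) (hp1 : p < 1) {U : Finset ℕ} {x : ℕ} (hx : x ∈ U) {k : ℕ}
    {ℬ : Finset (Finset ℕ)} (hℬ : ∀ C ∈ ℬ, x ∉ C ∧ C.card = k) :
    Ew p U (fun S => if x ∈ S then fd k ℬ S else 0) ≤ p / (1 - p) * Ew p U (fd k ℬ) := by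
  have hp1' : 0 < 1 - p := by linarith
  obtain ⟨U', hU', hxU'⟩ : ∃ U', U = insert x U' ∧ x ∉ U' :=
    ⟨U.erase x, (Finset.insert_erase hx).symm, Finset.notMem_erase x U⟩
  rw [hU', Ew_insert hxU', Ew_insert hxU']
  have h1 : Ew p U' (fun S => if x ∈ S then fd k ℬ S else 0) = 0 := by
    have : Ew p U' (fun S => if x ∈ S then fd k ℬ S else 0) = Ew p U' (fun _ => 0) := by
      apply Ew_congr
      intro S hS
      rw [if_neg (fun h => hxU' (hS h))]
    rw [this]
    simp [Ew]
  have h2 : Ew p U' (fun S => if x ∈ insert x S then fd k ℬ (insert x S) else 0)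
      ≤ Ew p U' (fd k ℬ) := by
    apply Ew_mono hp0 hp1.le
    intro S hS
    rw [if_pos (Finset.mem_insert_self x S)]
    have hxS : x ∉ S := fun h => hxU' (hS h)
    unfold fd
    have h3 : ℬ.filter (· ⊆ insert x S) = ℬ.filter (· ⊆ S) := by
      apply Finset.filter_congr
      intro C hC
      rw [Finset.subset_insert_iff_of_notMem (hℬ C hC).1]
    rw [h3, Finset.card_insert_of_notMem hxS]
    by_cases hk : k ≤ S.card
    · have h4 : (0 : ℝ) < S.card.choose k := by exact_mod_cast Nat.choose_pos hk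
      apply div_le_div_of_nonneg_left (by positivity) h4
      exact_mod_cast Nat.choose_le_choose k (Nat.le_succ _)
    · have h4 : ℬ.filter (· ⊆ S) = ∅ := by
        rw [Finset.filter_eq_empty_iff]
        intro C hC hCS
        apply hk
        rw [← (hℬ C hC).2]
        exact Finset.card_le_card hCS
      rw [h4]; simp
  have h3 : 0 ≤ Ew p U' (fun S => fd k ℬ (insert x S)) :=
    Ew_nonneg hp0 hp1.le (fun S _ => fd_nonneg _ _ _)
  rw [h1, mul_zero, add_zero]
  calc p * Ew p U' (fun S => if x ∈ insert x S then fd k ℬ (insert x S) else 0)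
      ≤ p * Ew p U' (fd k ℬ) := mul_le_mul_of_nonneg_left h2 hp0
    _ = p / (1 - p) * ((1 - p) * Ew p U' (fd k ℬ)) := by field_simp
    _ ≤ p / (1 - p) * (p * Ew p U' (fun S => fd k ℬ (insert x S)) + (1 - p) * Ew p U' (fd k ℬ)) := by
        apply mul_le_mul_of_nonneg_left _ (by positivity)
        have := mul_nonneg hp0 h3
        linarith

end Pool.Agent.Lib.MP_b0b8df_co
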