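import Mathlib
import Pool.Agent.Lib.MP_b0b8df_co.Product

/-!
The master lemma with the parameters used in the applications.
-/

set_option autoImplicit false

namespace Pool.Agent.Lib.MP_b0b8df_co

open Finset

theorem app {d n k : ℕ} {ζ p : ℝ} (hd : 2 ≤ d) (hk : 0 < k) (hζ0 : 0 < ζ) (hζ1 : ζ ≤ 1)
    (hp0 : 0 < p) (hp : p * n = (1 + ζ / 6) * k) (hp8 : p ≤ 1 / 8)
    (f : Fin (d + 1) → Finset ℕ → ℝ) (hf0 : ∀ i S, 0 ≤ f i S) (hf1 : ∀ i S, f i S ≤ 1)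
    (ρ : Fin (d + 1) → ℝ) (hρ : ∀ i, 0 ≤ ρ i)
    (P : Fin (d + 1) → ℕ → Finset ℕ → ℝ) (hP : ∀ i r T, 0 ≤ P i r T)
    (M1 : ∀ i r T, r + 1 ≤ n → T ⊆ Finset.range (n - (r + 1)) →
      0 < B n p (f i) (r + 1) T → P i (r + 1) T < B n p (f i) (r + 1) T →
      p * P i r (insert (n - (r + 1)) T) + (1 - p) * P i r T ≤ P i (r + 1) T)
    (M2 : ∀ r (T : Fin (d + 1) → Finset ℕ), r + 1 ≤ n →
      (∀ i, T i ⊆ Finset.range (n - (r + 1))) →
      (∀ i, 0 < B n p (f i) (r + 1) (T i)) →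
      (∀ i, P i (r + 1) (T i) < B n p (f i) (r + 1) (T i)) →
      max (∑ i, (p * B n p (f i) r (insert (n - (r + 1)) (T i))
        / B n p (f i) (r + 1) (T i)) - d) 0
      ≤ ∑ i, ρ i * Dq p (p * B n p (f i) r (insert (n - (r + 1)) (T i))
        / B n p (f i) (r + 1) (T i)))
    (hb : ∀ i, 0 < B n p (f i) n ∅)
    (hΦ : ∑ i, ((1280 * (d + 1) / (ζ ^ 2 * k) + ρ i) * (- Real.log (B n p (f i) n ∅))
      + P i n ∅ / B n p (f i) n ∅) + 32 / (ζ ^ 2 * k) + 1 / 16 < 1) :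
    ∃ A : Fin (d + 1) → Finset ℕ, (∀ i, A i ⊆ Finset.range n) ∧ (∀ i, 0 < f i (A i)) ∧
      (∀ i, P i 0 (A i) < f i (A i)) ∧ (∀ y, ∃ i, y ∉ A i) ∧
      ((Finset.univ.biUnion A).card : ℝ) ≤ (1 + 1 / (d : ℝ)) * k + 3 / 4 * (ζ * k) := by
  have hk' : (0 : ℝ) < k := by exact_mod_cast hk
  have hd' : (2 : ℝ) ≤ d := by exact_mod_cast hd
  have hdinv : 1 / (d : ℝ) ≤ 1 / 2 := by
    apply one_div_le_one_div_of_le (by norm_num) hd'
  have hdinv0 : 0 ≤ 1 / (d : ℝ) := by positivity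
  set α : ℝ := 4 / (ζ * k) with hα
  set ϵ : ℝ := ζ / (160 * (d + 1)) with hϵ
  set τ : ℝ := ζ * k / 4 with hτ
  set P1 : ℝ := (1 + 1 / (d : ℝ)) * p with hP1
  have hα0 : 0 < α := by positivity
  have hϵ0 : 0 < ϵ := by positivity
  have hτ0 : 0 < τ := by positivity
  have hϵ1 : ϵ ≤ 1 / 4 := by
    rw [hϵ, div_le_iff₀ (by positivity)]
    nlinarith
  have hP1' : P1 ≤ 1 / 2 := by
    rw [hP1]; nlinarith
  have hκ : 2 * α / ϵ = 1280 * (d + 1) / (ζ ^ 2 * k) := by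
    rw [hα, hϵ]; field_simp; ring
  have e1 : P1 * n = (1 + 1 / (d : ℝ)) * k + (1 + 1 / (d : ℝ)) * (ζ / 6) * k := by
    have : P1 * n = (1 + 1 / (d : ℝ)) * (p * n) := by rw [hP1]; ring
    rw [this, hp]; ring
  have e2 : (1 + 1 / (d : ℝ)) * (ζ / 6) * k ≤ ζ * k / 4 := by
    have : (1 + 1 / (d : ℝ)) * (ζ / 6 * k) ≤ (3 / 2) * (ζ / 6 * k) :=
      mul_le_mul_of_nonneg_right (by linarith) (by positivity)
    linarith
  obtain ⟨R, D, E, h1, h2, h3, h4, h5⟩ := master1 (N := n) (P1 := P1) (τ := τ) (by omega : 1 ≤ d) hp0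
    (by linarith) hP1
    hP1' hα0.le hτ0 hϵ0 hϵ1 f hf0 hf1
    (fun i => 1280 * (d + 1) / (ζ ^ 2 * k) + ρ i) ρ hρ (fun i => by rw [hκ]) P hP M1 M2 n le_rfl
    (fun _ => ∅) 0 (fun _ => Finset.empty_subset _) hb
  have hnP1 : (n : ℝ) * P1 / τ ^ 2 ≤ 32 / (ζ ^ 2 * k) := by
    have e1 : (n : ℝ) * P1 = (1 + 1 / (d : ℝ)) * ((1 + ζ / 6) * k) := by
      rw [hP1, ← hp]; ring
    rw [e1]
    have e2 : (1 + 1 / (d : ℝ)) * ((1 + ζ / 6) * k) ≤ 2 * k := by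
      have e3 : (1 + 1 / (d : ℝ)) * (1 + ζ / 6) ≤ 2 := by nlinarith
      nlinarith
    calc (1 + 1 / (d : ℝ)) * ((1 + ζ / 6) * k) / τ ^ 2 ≤ 2 * k / τ ^ 2 := by
          apply div_le_div_of_nonneg_right e2 (by positivity)
      _ = 32 / (ζ ^ 2 * k) := by
          rw [hτ]; field_simp; norm_num
  have hcost : 2 * α * ϵ * p * (d + 1) * n ≤ 1 / 16 := by
    have e1 : 2 * α * ϵ * p * (d + 1) * n = 2 * α * ϵ * (d + 1) * (p * n) := by ring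
    rw [e1, hp]
    have e2 : 2 * α * ϵ * (d + 1) * ((1 + ζ / 6) * k) = 1 / 20 * (1 + ζ / 6) := by
      rw [hα, hϵ]; field_simp; norm_num
    rw [e2]; linarith
  have hsum : ∑ i, (((fun i => 1280 * (d + 1) / (ζ ^ 2 * k) + ρ i) i : ℝ)
      * (- Real.log (B n p (f i) n ∅)) + P i n ∅ / B n p (f i) n ∅)
      = ∑ i, ((1280 * (d + 1) / (ζ ^ 2 * k) + ρ i) * (- Real.log (B n p (f i) n ∅))
      + P i n ∅ / B n p (f i) n ∅) := rfl
  rw [hsum] at h5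
  have h6 : (0 + D) ^ 2 / τ ^ 2 + α * E
      + ind ((∃ y, ∀ i, y ∈ R i) ∨ (∃ i, f i (∅ ∪ R i) ≤ P i 0 (∅ ∪ R i))) < 1 := by
    refine lt_of_le_of_lt h5 ?_
    have : ((0 : ℝ) ^ 2 + n * P1) / τ ^ 2 = n * P1 / τ ^ 2 := by ring
    rw [this]
    linarith
  have hD2 : 0 ≤ (0 + D) ^ 2 / τ ^ 2 := by positivity
  have hE2 : 0 ≤ α * E := mul_nonneg hα0.le h3
  have hind := ind_nonneg ((∃ y, ∀ i, y ∈ R i) ∨ (∃ i, f i (∅ ∪ R i) ≤ P i 0 (∅ ∪ R i)))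
  have hno : ¬ ((∃ y, ∀ i, y ∈ R i) ∨ (∃ i, f i (∅ ∪ R i) ≤ P i 0 (∅ ∪ R i))) := by
    intro h
    rw [ind_pos h] at h6
    linarith
  push Not at hno
  refine ⟨R, ?_, ?_, ?_, hno.1, ?_⟩
  · intro i
    have := h1 i
    rwa [Nat.sub_self, ← Finset.range_eq_Ico] at this
  · intro i
    have := h2 i
    simpa using this
  · intro i
    have := hno.2 i
    simpa using this
  · have hD : D ≤ τ := by
      by_contra hcon
      push Not at hcon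
      have : 1 ≤ (0 + D) ^ 2 / τ ^ 2 := by
        rw [one_le_div (by positivity), zero_add]
        exact pow_le_pow_left₀ hτ0.le hcon.le 2
      linarith
    have hE : E ≤ ζ * k / 4 := by
      by_contra hcon
      push Not at hcon
      have : 1 < α * E := by
        calc 1 = α * (ζ * k / 4) := by rw [hα]; field_simp
          _ < α * E := mul_lt_mul_of_pos_left hcon hα0
      linarith
    rw [e1] at h4
    rw [hτ] at hD
    clear h5 h6 hsum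
    linarith

end Pool.Agent.Lib.MP_b0b8df_co
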