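import Mathlib

/-!
Averaging over partitions into blocks.
-/

set_option autoImplicit false

namespace Pool.Agent.Lib.MP_b0b8df_co

open Finset

lemma exists_perm_map {α : Type*} [Fintype α] [DecidableEq α] (Q1 Q2 : Finset α)
    (h : Q1.card = Q2.card) : ∃ π : Equiv.Perm α, Q1.map π.toEmbedding = Q2 := by
  have e : {a // a ∈ Q1} ≃ {a // a ∈ Q2} := Finset.equivOfCardEq h
  refine ⟨e.extendSubtype, ?_⟩
  apply Finset.eq_of_subset_of_card_le
  · intro y hy
    rw [Finset.mem_map] at hy
    obtain ⟨a, ha, rfl⟩ := hy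
    exact e.extendSubtype_mem a ha
  · rw [Finset.card_map, h]

/-- In any set of `w'`-subsets meeting every ordered partition into blocks of size `w'`
there are at least a `1/d` fraction of all `w'`-subsets. -/
lemma blocks {d w' : ℕ} (𝒬 : Finset (Finset (Fin d × Fin w')))
    (h𝒬 : ∀ Q ∈ 𝒬, Q.card = w')
    (hbad : ∀ P : Fin d → Finset (Fin d × Fin w'), (∀ i, (P i).card = w') →
      (∀ a, ∃ i, a ∈ P i) → ∃ i, P i ∈ 𝒬) :
    (d * w').choose w' ≤ d * 𝒬.card := by
  classical
  set base : Fin d → Finset (Fin d × Fin w') := fun i => {i} ×ˢ Finset.univ with hbase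
  have hbasecard : ∀ i, (base i).card = w' := by
    intro i
    simp [hbase]
  have hbasecov : ∀ a, ∃ i, a ∈ base i := by
    intro a
    exact ⟨a.1, by simp [hbase]⟩
  -- fibers
  set N : Fin d → Finset (Fin d × Fin w') → ℕ := fun i Q =>
    (Finset.univ.filter (fun τ : Equiv.Perm (Fin d × Fin w') =>
      (base i).map τ.toEmbedding = Q)).card with hN
  have hNsymm : ∀ i Q1 Q2, Q1.card = Q2.card → N i Q1 ≤ N i Q2 := by
    intro i Q1 Q2 h
    obtain ⟨π, hπ⟩ := exists_perm_map Q1 Q2 h
    simp only [hN]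
    apply Finset.card_le_card_of_injOn (fun τ => τ.trans π)
    · intro τ hτ
      simp only [Finset.coe_filter, Finset.mem_univ, true_and, Set.mem_ofPred_eq] at hτ ⊢
      rw [← hπ, ← hτ, Finset.map_map]
      rfl
    · intro τ1 _ τ2 _ h12
      ext1 a
      have := congrArg (fun (σ : Equiv.Perm _) => σ a) h12
      simpa using this
  have hNtotal : ∀ i, ∑ Q ∈ Finset.powersetCard w' Finset.univ, N i Q
      = (d * w').factorial := by
    intro i
    have h1 : (Finset.univ : Finset (Equiv.Perm (Fin d × Fin w'))).card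
        = ∑ Q ∈ Finset.powersetCard w' Finset.univ, N i Q := by
      apply Finset.card_eq_sum_card_fiberwise
      intro τ _
      rw [Finset.mem_coe, Finset.mem_powersetCard]
      exact ⟨Finset.subset_univ _, by rw [Finset.card_map, hbasecard]⟩
    rw [← h1, Finset.card_univ, Fintype.card_perm]
    simp
  have hNval : ∀ i Q, Q.card = w' → N i Q * (d * w').choose w' = (d * w').factorial := by
    intro i Q hQ
    rw [← hNtotal i]
    have h1 : ∑ Q' ∈ Finset.powersetCard w' (Finset.univ : Finset (Fin d × Fin w')), N i Q'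
        = ∑ _Q' ∈ Finset.powersetCard w' (Finset.univ : Finset (Fin d × Fin w')), N i Q := by
      apply Finset.sum_congr rfl
      intro Q' hQ'
      rw [Finset.mem_powersetCard] at hQ'
      exact le_antisymm (hNsymm i Q' Q (by rw [hQ'.2, hQ])) (hNsymm i Q Q' (by rw [hQ'.2, hQ]))
    rw [h1, Finset.sum_const, Finset.card_powersetCard, Finset.card_univ, smul_eq_mul]
    simp only [Fintype.card_prod, Fintype.card_fin]
    ring
  -- every permutation gives a bad block
  have hcount : (d * w').factorial ≤ ∑ i : Fin d, ∑ Q ∈ 𝒬, N i Q := by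
    have h1 : (Finset.univ : Finset (Equiv.Perm (Fin d × Fin w'))).card
        = (d * w').factorial := by
      rw [Finset.card_univ, Fintype.card_perm]
      simp
    have h2 : (Finset.univ : Finset (Equiv.Perm (Fin d × Fin w')))
        ⊆ Finset.univ.biUnion (fun i : Fin d => 𝒬.biUnion (fun Q =>
          Finset.univ.filter (fun τ : Equiv.Perm (Fin d × Fin w') =>
            (base i).map τ.toEmbedding = Q))) := by
      intro τ _
      obtain ⟨i, hi⟩ := hbad (fun i => (base i).map τ.toEmbedding)
        (fun i => by rw [Finset.card_map, hbasecard])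
        (fun a => by
          obtain ⟨i, hi⟩ := hbasecov (τ.symm a)
          exact ⟨i, Finset.mem_map.2 ⟨τ.symm a, hi, by simp⟩⟩)
      rw [Finset.mem_biUnion]
      refine ⟨i, Finset.mem_univ _, ?_⟩
      rw [Finset.mem_biUnion]
      exact ⟨_, hi, by simp⟩
    rw [← h1]
    refine (Finset.card_le_card h2).trans ?_
    refine Finset.card_biUnion_le.trans ?_
    exact Finset.sum_le_sum fun i _ => Finset.card_biUnion_le
  have hfinal : (d * w').factorial * (d * w').choose w' ≤ d * 𝒬.card * (d * w').factorial := by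
    calc (d * w').factorial * (d * w').choose w'
        ≤ (∑ i : Fin d, ∑ Q ∈ 𝒬, N i Q) * (d * w').choose w' := Nat.mul_le_mul_right _ hcount
      _ = ∑ i : Fin d, ∑ Q ∈ 𝒬, (N i Q * (d * w').choose w') := by
          rw [Finset.sum_mul]
          apply Finset.sum_congr rfl
          intro i _
          rw [Finset.sum_mul]
      _ = ∑ _i : Fin d, ∑ _Q ∈ 𝒬, (d * w').factorial := by
          apply Finset.sum_congr rfl
          intro i _
          apply Finset.sum_congr rfl
          intro Q hQ
          exact hNval i Q (h𝒬 Q hQ)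
      _ = d * 𝒬.card * (d * w').factorial := by
          simp [mul_assoc]
  have hpos : 0 < (d * w').factorial := Nat.factorial_pos _
  rw [mul_comm] at hfinal
  exact Nat.le_of_mul_le_mul_right hfinal hpos

/-- transported version: blocks of a finset `W` with `d * w'` elements -/
lemma blocks' {β : Type*} [DecidableEq β] {d w' : ℕ} (W : Finset β) (hW : W.card = d * w')
    (𝒬 : Finset (Finset β))
    (hbad : ∀ P : Fin d → Finset β, (∀ i, P i ⊆ W) → (∀ i, (P i).card = w') →
      (∀ a ∈ W, ∃ i, a ∈ P i) → ∃ i, P i ∈ 𝒬) :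
    (d * w').choose w' ≤ d * 𝒬.card := by
  classical
  have hc : Fintype.card (Fin d × Fin w') = Fintype.card {a // a ∈ W} := by
    simp [hW]
  have e : (Fin d × Fin w') ≃ {a // a ∈ W} := Fintype.equivOfCardEq hc
  set φ : (Fin d × Fin w') ↪ β := e.toEmbedding.trans (Function.Embedding.subtype _) with hφ
  have hφW : ∀ a, φ a ∈ W := fun a => (e a).2
  have hφsurj : ∀ b ∈ W, ∃ a, φ a = b := by
    intro b hb
    refine ⟨e.symm ⟨b, hb⟩, ?_⟩
    simp [hφ]
  set 𝒬' : Finset (Finset (Fin d × Fin w')) :=
    Finset.univ.filter (fun Q => Q.card = w' ∧ Q.map φ ∈ 𝒬) with h𝒬'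
  have h1 := blocks 𝒬' (fun Q hQ => (Finset.mem_filter.1 hQ).2.1) (by
    intro P hP1 hP2
    obtain ⟨i, hi⟩ := hbad (fun i => (P i).map φ)
      (fun i y hy => by
        rw [Finset.mem_map] at hy
        obtain ⟨a, _, rfl⟩ := hy
        exact hφW a)
      (fun i => by rw [Finset.card_map, hP1])
      (fun b hb => by
        obtain ⟨a, rfl⟩ := hφsurj b hb
        obtain ⟨i, hi⟩ := hP2 a
        exact ⟨i, Finset.mem_map.2 ⟨a, hi, rfl⟩⟩)
    exact ⟨i, Finset.mem_filter.2 ⟨Finset.mem_univ _, hP1 i, hi⟩⟩)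
  refine h1.trans (Nat.mul_le_mul_left _ ?_)
  apply Finset.card_le_card_of_injOn (fun Q => Q.map φ)
  · intro Q hQ
    exact (Finset.mem_filter.1 hQ).2.2
  · intro Q1 _ Q2 _ h
    exact Finset.map_injective φ h

end Pool.Agent.Lib.MP_b0b8df_co
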