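import Mathlib

/-!
Choice of the constants.
-/

set_option autoImplicit false

namespace Pool.Agent.Lib.MP_b0b8df_co

lemma sqrt_mul_log_le {p w : ℝ} (hp : 0 < p) (hw : 0 < w) (h : 2 * p / w ≤ (1 / 320) ^ 4) :
    8 * Real.sqrt p * Real.log (2 / (w * p)) ≤ 1 / 10 := by
  have hy : 0 < 2 / (w * p) := by positivity
  have h1 := Real.log_le_rpow_div hy.le (by norm_num : (0 : ℝ) < 1 / 4)
  set y := 2 / (w * p) with hydef
  have h2 : Real.sqrt p * y ^ (1 / 4 : ℝ) ≤ 1 / 320 := by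
    have h3 : (Real.sqrt p * y ^ (1 / 4 : ℝ)) ^ 4 ≤ (1 / 320) ^ 4 := by
      have e1 : (y ^ (1 / 4 : ℝ)) ^ 4 = y := by
        rw [← Real.rpow_natCast, ← Real.rpow_mul hy.le]
        norm_num
      have e2 : (Real.sqrt p) ^ 4 = p ^ 2 := by
        have : (Real.sqrt p) ^ 4 = (Real.sqrt p ^ 2) ^ 2 := by ring
        rw [this, Real.sq_sqrt hp.le]
      rw [mul_pow, e1, e2, hydef]
      have e3 : p ^ 2 * (2 / (w * p)) = 2 * p / w := by field_simp
      rw [e3]; exact h
    exact le_of_pow_le_pow_left₀ (by norm_num) (by norm_num) h3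
  have h4 : 0 ≤ Real.sqrt p := Real.sqrt_nonneg p
  calc 8 * Real.sqrt p * Real.log y ≤ 8 * Real.sqrt p * (y ^ (1 / 4 : ℝ) / (1 / 4)) :=
        mul_le_mul_of_nonneg_left h1 (by positivity)
    _ = 32 * (Real.sqrt p * y ^ (1 / 4 : ℝ)) := by ring
    _ ≤ 32 * (1 / 320) := mul_le_mul_of_nonneg_left h2 (by norm_num)
    _ = 1 / 10 := by norm_num

lemma sqrt_le_of {p a : ℝ} (ha : 0 ≤ a) (h : p ≤ a ^ 2) : Real.sqrt p ≤ a :=
  (Real.sqrt_le_sqrt h).trans_eq (Real.sqrt_sq ha)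

theorem constants (d : ℕ) (hd : 2 ≤ d) (ζ : ℝ) (hζ0 : 0 < ζ) (hζ1 : ζ ≤ 1) :
    ∃ C c : ℝ, 0 < C ∧ 0 < c ∧ ∀ n k : ℕ, 0 < k → C * Real.log n ≤ k → (k : ℝ) ≤ c * n →
      0 < n ∧ k ≤ n ∧
      ∀ p w γ δ : ℝ, p = (1 + ζ / 6) * k / n → w = 1 / (40 * d) → γ = w / (20 * (d + 1)) →
        δ = ζ ^ 2 / (25600 * (d + 1)) →
      0 < p ∧ p * n = (1 + ζ / 6) * k ∧ p ≤ 1 / 8 ∧ p ≤ 1 / (40 * d) ∧
      1280 * (d + 1) ^ 2 / (ζ ^ 2 * k) * Real.log (2 / (w * p)) ≤ 1 / 10 ∧
      32 / (ζ ^ 2 * k) ≤ 1 / 16 ∧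
      8 * Real.sqrt p * Real.log (2 / (w * p)) ≤ 1 / 10 ∧
      40 * Real.sqrt p / (γ * w ^ 2) ≤ 1 / 10 ∧
      1280 * (d + 1) / (ζ ^ 2 * k) ≤ 1 / 20 ∧
      d * ((1 + ζ / 6) / ((ζ / 6) ^ 2 * k)) ≤ 1 / 10 ∧
      1 ≤ 1 / 4 * (ζ * k) ∧
      (k : ℝ) ≤ (δ * ζ / 32) * n ∧
      (d : ℝ) * n ≤ Real.exp (δ / 2 * ζ / 4 * k) ∧
      (d : ℝ) - 1 ≤ ζ * k / 2 := by
  have hd' : (2 : ℝ) ≤ d := by exact_mod_cast hd
  set w : ℝ := 1 / (40 * d) with hw
  set γ : ℝ := w / (20 * (d + 1)) with hγ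
  set δ : ℝ := ζ ^ 2 / (25600 * (d + 1)) with hδ
  have hw0 : 0 < w := by positivity
  have hγ0 : 0 < γ := by positivity
  have hδ0 : 0 < δ := by positivity
  have hwle : w ≤ 1 := by
    rw [hw, div_le_one (by positivity)]; linarith
  set L1 : ℝ := 2 * Real.log (2 / w) + 1 with hL1
  set L2 : ℝ := 2 * Real.log d + 1 with hL2
  have hL1pos : 0 < L1 := by
    have : 0 ≤ Real.log (2 / w) := by
      apply Real.log_nonneg
      rw [le_div_iff₀ hw0]; linarith
    linarith
  have hL2pos : 0 < L2 := by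
    have : 0 ≤ Real.log d := Real.log_nonneg (by linarith)
    linarith
  set C1 : ℝ := 51200 * (d + 1) / ζ ^ 2 with hC1
  set C2 : ℝ := 12800 * (d + 1) ^ 2 * L1 / ζ ^ 2 with hC2
  set C3 : ℝ := 8 * L2 / (δ * ζ) with hC3
  have hC1pos : 0 < C1 := by positivity
  have hC2pos : 0 < C2 := by positivity
  have hC3pos : 0 < C3 := by positivity
  set c1 : ℝ := 1 / (80 * d) with hc1
  set c2 : ℝ := w / 4 * (1 / 320) ^ 4 with hc2
  set c3 : ℝ := (γ * w ^ 2 / 400) ^ 2 / 2 with hc3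
  set c4 : ℝ := δ * ζ / 32 with hc4
  have hc1pos : 0 < c1 := by positivity
  have hc2pos : 0 < c2 := by positivity
  have hc3pos : 0 < c3 := by positivity
  have hc4pos : 0 < c4 := by positivity
  set c : ℝ := min (min c1 c2) (min c3 c4) with hc
  have hcpos : 0 < c := lt_min (lt_min hc1pos hc2pos) (lt_min hc3pos hc4pos)
  have hcc1 : c ≤ c1 := (min_le_left _ _).trans (min_le_left _ _)
  have hcc2 : c ≤ c2 := (min_le_left _ _).trans (min_le_right _ _)
  have hcc3 : c ≤ c3 := (min_le_right _ _).trans (min_le_left _ _)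
  have hcc4 : c ≤ c4 := (min_le_right _ _).trans (min_le_right _ _)
  have hc1le : c1 ≤ 1 / 160 := by
    rw [hc1, div_le_div_iff₀ (by positivity) (by norm_num)]; linarith
  refine ⟨C1 + C2 + C3, c, by positivity, hcpos, ?_⟩
  intro n k hk hCk hkc
  have hk' : (1 : ℝ) ≤ k := by exact_mod_cast hk
  have hkpos : (0 : ℝ) < k := by linarith
  have hnpos : (0 : ℝ) < n := by
    by_contra h
    push Not at h
    have h0 : (n : ℝ) = 0 := le_antisymm h (Nat.cast_nonneg n)
    rw [h0, mul_zero] at hkc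
    linarith
  have hn : 0 < n := by exact_mod_cast hnpos
  have hcn : c * n ≤ 1 / 160 * n := mul_le_mul_of_nonneg_right (hcc1.trans hc1le) hnpos.le
  have hkn' : (k : ℝ) ≤ n := by linarith
  have hn2 : (2 : ℝ) ≤ n := by linarith
  have hkn : k ≤ n := by exact_mod_cast hkn'
  have hlogn : 1 / 2 ≤ Real.log n := by
    have h1 : Real.log 2 ≤ Real.log n := Real.log_le_log (by norm_num) hn2
    have := Real.log_two_gt_d9
    linarith
  have hlogn0 : 0 < Real.log n := by linarith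
  -- consequences for k
  have hk1 : 25600 * (d + 1) / ζ ^ 2 ≤ k := by
    have h1 : C1 * (1 / 2) ≤ C1 * Real.log n := mul_le_mul_of_nonneg_left hlogn hC1pos.le
    have h2 : 0 ≤ C2 * Real.log n := by positivity
    have h3 : 0 ≤ C3 * Real.log n := by positivity
    have h4 : C1 * (1 / 2) = 25600 * (d + 1) / ζ ^ 2 := by rw [hC1]; ring
    rw [← h4]
    linarith
  have hk2 : C2 * Real.log n ≤ k := by
    have h2 : 0 ≤ C1 * Real.log n := by positivity
    have h3 : 0 ≤ C3 * Real.log n := by positivity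
    linarith
  have hk3 : C3 * Real.log n ≤ k := by
    have h2 : 0 ≤ C1 * Real.log n := by positivity
    have h3 : 0 ≤ C2 * Real.log n := by positivity
    linarith
  have hk1' : 25600 * (d + 1) ≤ ζ ^ 2 * k := by
    rw [div_le_iff₀ (by positivity)] at hk1
    linarith
  have hζζ : ζ ^ 2 ≤ ζ := by nlinarith
  have hk1'' : 25600 * ((d : ℝ) + 1) ≤ ζ * k := by
    have : ζ ^ 2 * k ≤ ζ * k := mul_le_mul_of_nonneg_right hζζ hkpos.le
    linarith
  refine ⟨hn, hkn, ?_⟩
  intro p w' γ' δ' hp hw' hγ' hδ'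
  have hγ'' : γ' = γ := by rw [hγ', hw']
  rw [hw', hγ'', hδ']
  clear hw' hγ' hδ' hγ''
  have hppos : 0 < p := by rw [hp]; positivity
  have hpn : p * n = (1 + ζ / 6) * k := by rw [hp]; field_simp
  have hp2 : p ≤ 2 * c := by
    rw [hp, div_le_iff₀ hnpos]
    have h0 : (1 + ζ / 6) * k ≤ 2 * k :=
      mul_le_mul_of_nonneg_right (by linarith only [hζ1]) hkpos.le
    linarith only [h0, hkc]
  have hpk : (k : ℝ) / n ≤ p := by
    rw [hp]
    apply div_le_div_of_nonneg_right _ hnpos.le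
    have h0 : 0 ≤ ζ / 6 * k := by positivity
    linarith only [h0]
  have hp1n : 1 / (n : ℝ) ≤ p := by
    refine le_trans ?_ hpk
    apply div_le_div_of_nonneg_right hk' hnpos.le
  refine ⟨hppos, hpn, ?_, ?_, ?_, ?_, ?_, ?_, ?_, ?_, ?_, ?_, ?_, ?_⟩
  · linarith only [hp2, hcc1, hc1le]
  · have h0 : 2 * c1 = w := by rw [hc1, hw]; field_simp; norm_num
    linarith only [h0, hp2, hcc1]
  · -- hL
    have h1 : Real.log (2 / (w * p)) ≤ L1 * Real.log n := by
      have h2 : 2 / (w * p) ≤ 2 / w * n := by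
        have : 2 / (w * p) = 2 / w * (1 / p) := by field_simp
        rw [this]
        apply mul_le_mul_of_nonneg_left _ (by positivity)
        rw [div_le_iff₀ hppos]
        rw [div_le_iff₀ hnpos] at hp1n
        linarith only [hp1n]
      have h3 : Real.log (2 / (w * p)) ≤ Real.log (2 / w * n) :=
        Real.log_le_log (by positivity) h2
      rw [Real.log_mul (by positivity) hnpos.ne'] at h3
      have h4 : 0 ≤ Real.log (2 / w) := by
        apply Real.log_nonneg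
        rw [le_div_iff₀ hw0]; linarith only [hwle]
      have h5 : Real.log (2 / w) * 1 ≤ Real.log (2 / w) * (2 * Real.log n) :=
        mul_le_mul_of_nonneg_left (by linarith only [hlogn]) h4
      rw [hL1]
      linarith only [h3, h5]
    calc 1280 * ((d : ℝ) + 1) ^ 2 / (ζ ^ 2 * k) * Real.log (2 / (w * p))
        ≤ 1280 * ((d : ℝ) + 1) ^ 2 / (ζ ^ 2 * k) * (L1 * Real.log n) :=
          mul_le_mul_of_nonneg_left h1 (by positivity)
      _ = (C2 * Real.log n) / (10 * k) := by rw [hC2]; field_simp; norm_num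
      _ ≤ 1 / 10 := by
          rw [div_le_div_iff₀ (by positivity) (by norm_num)]
          linarith only [hk2]
  · rw [div_le_div_iff₀ (by positivity) (by norm_num)]
    linarith only [hk1', hd']
  · apply sqrt_mul_log_le hppos hw0
    have h1 : p ≤ w / 2 * (1 / 320) ^ 4 := by
      have h0 : 2 * c2 = w / 2 * (1 / 320) ^ 4 := by rw [hc2]; ring
      linarith only [h0, hp2, hcc2]
    rw [div_le_iff₀ hw0]
    linarith only [h1]
  · have h1 : p ≤ (γ * w ^ 2 / 400) ^ 2 := by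
      have h0 : 2 * c3 = (γ * w ^ 2 / 400) ^ 2 := by rw [hc3]; ring
      linarith only [h0, hp2, hcc3]
    have h2 := sqrt_le_of (by positivity) h1
    rw [div_le_div_iff₀ (by positivity) (by norm_num)]
    linarith only [h2]
  · rw [div_le_div_iff₀ (by positivity) (by norm_num)]
    linarith only [hk1']
  · have h1 : (d : ℝ) * ((1 + ζ / 6) / ((ζ / 6) ^ 2 * k)) = (36 * d * (1 + ζ / 6)) / (ζ ^ 2 * k) := by
      field_simp
      norm_num
    rw [h1, div_le_div_iff₀ (by positivity) (by norm_num)]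
    have h2 : 36 * (d : ℝ) * (1 + ζ / 6) ≤ 36 * d * 2 :=
      mul_le_mul_of_nonneg_left (by linarith only [hζ1]) (by positivity)
    linarith only [h2, hk1', hd']
  · linarith only [hk1'', hd']
  · exact hkc.trans (mul_le_mul_of_nonneg_right hcc4 hnpos.le)
  · -- hlog
    have hd0 : 0 ≤ Real.log (d : ℝ) := Real.log_nonneg (by linarith only [hd'])
    have h1 : Real.log (d * n) ≤ L2 * Real.log n := by
      rw [Real.log_mul (by positivity) hnpos.ne', hL2]
      have h5 : Real.log (d : ℝ) * 1 ≤ Real.log (d : ℝ) * (2 * Real.log n) :=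
        mul_le_mul_of_nonneg_left (by linarith only [hlogn]) hd0
      linarith only [h5]
    have h2 : L2 * Real.log n ≤ δ / 2 * ζ / 4 * k := by
      have h3 : δ * ζ / 8 * (C3 * Real.log n) ≤ δ * ζ / 8 * k :=
        mul_le_mul_of_nonneg_left hk3 (by positivity)
      have h4 : δ * ζ / 8 * (C3 * Real.log n) = L2 * Real.log n := by
        rw [hC3]; field_simp
      rw [h4] at h3
      linarith only [h3]
    have h3 : (d : ℝ) * n = Real.exp (Real.log (d * n)) := by
      rw [Real.exp_log (by positivity)]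
    rw [h3]
    exact Real.exp_le_exp.2 (h1.trans h2)
  · linarith only [hk1'', hd']

end Pool.Agent.Lib.MP_b0b8df_co
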