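import Mathlib
import Pool.Agent.Lib.MP_b0b8df_co.Blocks

/-!
Double counting for Regime I.
-/

set_option autoImplicit false

namespace Pool.Agent.Lib.MP_b0b8df_co

open Finset
open scoped FinsetFamily

/-- Double counting. -/
theorem double_count {n d w' k s : ℕ} (hd : 1 ≤ d) {x : Fin n} {𝓕 : Finset (Finset (Fin n))}
    (h𝓕 : ∀ C ∈ 𝓕, C.card = k) (hwk : d * w' < k) (hs : s + (d * w' - w') + 1 = k) {U : ℝ}
    (hU : ((k + s + 1 : ℕ) : ℝ) ≤ U)
    (hfree : ∀ C : Fin (d + 1) → Finset (Fin n), (∀ i, C i ∈ 𝓕) → (∀ y, ∃ i, y ∉ C i) →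
      ¬ ((Finset.univ.biUnion C).card : ℝ) ≤ U) :
    (∂^[k - d * w'] (𝓕.filter (x ∉ ·))).card * ((n - (k + 1)).choose s * (d * w').choose w')
      ≤ d * ((((Finset.powersetCard k Finset.univ).filter (x ∈ ·)) \ 𝓕).card
        * ((k - 1).choose s * (n - k).choose w')) := by
  classical
  set w := d * w' with hw
  have hw'w : w' ≤ w := by rw [hw]; exact Nat.le_mul_of_pos_left w' (by omega)
  set 𝓑 := 𝓕.filter (x ∉ ·) with h𝓑
  set M := ((Finset.powersetCard k Finset.univ).filter (x ∈ ·)) \ 𝓕 with hM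
  set S := ∂^[k - w] 𝓑 with hS
  have hSmem : ∀ W ∈ S, ∃ A ∈ 𝓑, W ⊆ A ∧ W.card = w := by
    intro W hW
    rw [hS, Finset.mem_shadow_iterate_iff_exists_mem_card_add] at hW
    obtain ⟨A, hA, hWA, hc⟩ := hW
    refine ⟨A, hA, hWA, ?_⟩
    have := h𝓕 A (Finset.mem_filter.1 hA).1
    omega
  choose! A hA𝓑 hWA hWc using hSmem
  set Ds : Finset (Fin n) → Finset (Finset (Fin n)) := fun W =>
    Finset.powersetCard s (insert x (A W))ᶜ with hDs
  set Bd : Finset (Fin n) → Finset (Fin n) → Finset (Finset (Fin n)) := fun W D =>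
    (Finset.powersetCard w' W).filter (fun Q => insert x ((W \ Q) ∪ D) ∈ M) with hBd
  have hDscard : ∀ W ∈ S, (Ds W).card = (n - (k + 1)).choose s := by
    intro W hW
    have h1 : x ∉ A W := (Finset.mem_filter.1 (hA𝓑 W hW)).2
    have h2 : (A W).card = k := h𝓕 _ (Finset.mem_filter.1 (hA𝓑 W hW)).1
    simp only [hDs]
    rw [Finset.card_powersetCard, Finset.card_compl, Finset.card_insert_of_notMem h1, h2,
      Fintype.card_fin]
  -- properties of D
  have hDprop : ∀ W ∈ S, ∀ D ∈ Ds W, x ∉ D ∧ Disjoint D (A W) ∧ D.card = s := by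
    intro W hW D hD
    simp only [hDs, Finset.mem_powersetCard] at hD
    refine ⟨?_, ?_, hD.2⟩
    · intro h
      have := hD.1 h
      rw [Finset.mem_compl] at this
      exact this (Finset.mem_insert_self _ _)
    · rw [Finset.disjoint_left]
      intro y hy hyA
      have := hD.1 hy
      rw [Finset.mem_compl] at this
      exact this (Finset.mem_insert_of_mem hyA)
  have hEcard : ∀ W ∈ S, ∀ D ∈ Ds W, ∀ Q ⊆ W, Q.card = w' →
      (insert x ((W \ Q) ∪ D)).card = k := by
    intro W hW D hD Q hQ hQc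
    obtain ⟨h1, h2, h3⟩ := hDprop W hW D hD
    have h4 : x ∉ A W := (Finset.mem_filter.1 (hA𝓑 W hW)).2
    have h5 : x ∉ (W \ Q) ∪ D := by
      rw [Finset.mem_union, Finset.mem_sdiff]
      rintro (h | h)
      · exact h4 (hWA W hW h.1)
      · exact h1 h
    have h6 : Disjoint (W \ Q) D := by
      rw [Finset.disjoint_left]
      intro y hy hyD
      exact (Finset.disjoint_left.1 h2) hyD (hWA W hW (Finset.mem_sdiff.1 hy).1)
    rw [Finset.card_insert_of_notMem h5, Finset.card_union_of_disjoint h6, h3,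
      Finset.card_sdiff_of_subset hQ, hWc W hW, hQc]
    omega
  have hBdcard : ∀ W ∈ S, ∀ D ∈ Ds W, w.choose w' ≤ d * (Bd W D).card := by
    intro W hW D hD
    obtain ⟨hxD, hDA, hDs'⟩ := hDprop W hW D hD
    have hxA : x ∉ A W := (Finset.mem_filter.1 (hA𝓑 W hW)).2
    apply blocks' W (hWc W hW)
    intro P hP1 hP2 hP3
    by_contra hcon
    push Not at hcon
    have hE : ∀ i, insert x ((W \ P i) ∪ D) ∈ 𝓕 := by
      intro i
      by_contra h
      apply hcon i
      simp only [hBd, Finset.mem_filter, Finset.mem_powersetCard]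
      refine ⟨⟨hP1 i, hP2 i⟩, ?_⟩
      rw [hM, Finset.mem_sdiff, Finset.mem_filter, Finset.mem_powersetCard]
      exact ⟨⟨⟨Finset.subset_univ _, hEcard W hW D hD (P i) (hP1 i) (hP2 i)⟩,
        Finset.mem_insert_self _ _⟩, h⟩
    apply hfree (Fin.cons (A W) (fun i => insert x ((W \ P i) ∪ D)))
    · intro i
      refine Fin.cases ?_ ?_ i
      · simpa using (Finset.mem_filter.1 (hA𝓑 W hW)).1
      · intro j; simpa using hE j
    · intro y
      by_cases hyA : y ∈ A W
      · have hyx : y ≠ x := fun h => hxA (h ▸ hyA)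
        have hyD : y ∉ D := fun h => (Finset.disjoint_left.1 hDA) h hyA
        by_cases hyW : y ∈ W
        · obtain ⟨i, hi⟩ := hP3 y hyW
          refine ⟨i.succ, ?_⟩
          simp [hyx, hyD, hi]
        · refine ⟨(⟨0, by omega⟩ : Fin d).succ, ?_⟩
          rw [Fin.cons_succ]
          simp [hyx, hyD, hyW]
      · exact ⟨0, by simpa using hyA⟩
    · refine le_trans ?_ hU
      have h1 : Finset.univ.biUnion (Fin.cons (A W) (fun i => insert x ((W \ P i) ∪ D))
          : Fin (d + 1) → Finset (Fin n)) ⊆ insert x (A W ∪ D) := by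
        intro y hy
        rw [Finset.mem_biUnion] at hy
        obtain ⟨i, _, hi⟩ := hy
        revert hi
        refine Fin.cases ?_ ?_ i
        · intro hi
          simp only [Fin.cons_zero] at hi
          exact Finset.mem_insert_of_mem (Finset.mem_union_left _ hi)
        · intro j hi
          simp only [Fin.cons_succ, Finset.mem_insert, Finset.mem_union, Finset.mem_sdiff] at hi
          rw [Finset.mem_insert, Finset.mem_union]
          rcases hi with hi | hi | hi
          · exact Or.inl hi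
          · exact Or.inr (Or.inl (hWA W hW hi.1))
          · exact Or.inr (Or.inr hi)
      have h2 := Finset.card_le_card h1
      have h3 : (insert x (A W ∪ D)).card ≤ k + s + 1 := by
        refine (Finset.card_insert_le _ _).trans ?_
        have h4 := Finset.card_union_le (A W) D
        have h5 : (A W).card = k := h𝓕 _ (Finset.mem_filter.1 (hA𝓑 W hW)).1
        omega
      exact_mod_cast h2.trans h3
  -- total count
  set T1 : Finset (Σ _ : Finset (Fin n), Σ _ : Finset (Fin n), Finset (Fin n)) :=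
    S.sigma (fun W => (Ds W).sigma (fun D => Bd W D)) with hT1
  set T2 : Finset (Σ _ : Finset (Fin n), Σ _ : Finset (Fin n), Finset (Fin n)) :=
    M.sigma (fun E => (Finset.powersetCard s (E.erase x)).sigma
      (fun _ => Finset.powersetCard w' Eᶜ)) with hT2
  have hT1card : S.card * ((n - (k + 1)).choose s * w.choose w') ≤ d * T1.card := by
    rw [hT1, Finset.card_sigma, Finset.mul_sum, ← smul_eq_mul, ← Finset.sum_const]
    apply Finset.sum_le_sum
    intro W hW
    rw [Finset.card_sigma, Finset.mul_sum, ← hDscard W hW, ← smul_eq_mul, ← Finset.sum_const]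
    apply Finset.sum_le_sum
    intro D hD
    exact hBdcard W hW D hD
  have hMprop : ∀ E ∈ M, x ∈ E ∧ E.card = k := by
    intro E hE
    rw [hM, Finset.mem_sdiff, Finset.mem_filter, Finset.mem_powersetCard] at hE
    exact ⟨hE.1.2, hE.1.1.2⟩
  have hT2card : T2.card = M.card * ((k - 1).choose s * (n - k).choose w') := by
    rw [hT2, Finset.card_sigma, ← smul_eq_mul, ← Finset.sum_const]
    apply Finset.sum_congr rfl
    intro E hE
    obtain ⟨h1, h2⟩ := hMprop E hE
    rw [Finset.card_sigma, Finset.sum_const, Finset.card_powersetCard, Finset.card_powersetCard,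
      Finset.card_compl, Finset.card_erase_of_mem h1, h2, Fintype.card_fin, smul_eq_mul]
  have hle : T1.card ≤ T2.card := by
    apply Finset.card_le_card_of_injOn
      (fun z => ⟨insert x ((z.1 \ z.2.2) ∪ z.2.1), ⟨z.2.1, z.2.2⟩⟩)
    · rintro ⟨W, D, Q⟩ hz
      rw [Finset.mem_coe, hT1, Finset.mem_sigma, Finset.mem_sigma] at hz
      obtain ⟨hW, hD, hQ⟩ := hz
      simp only at hW hD hQ
      simp only [hBd, Finset.mem_filter, Finset.mem_powersetCard] at hQ
      obtain ⟨h1, h2, h3⟩ := hDprop W hW D hD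
      rw [Finset.mem_coe, hT2, Finset.mem_sigma, Finset.mem_sigma]
      refine ⟨hQ.2, ?_, ?_⟩
      · simp only [Finset.mem_powersetCard]
        refine ⟨?_, h3⟩
        intro y hy
        rw [Finset.mem_erase]
        refine ⟨fun h => h1 (h ▸ hy), ?_⟩
        exact Finset.mem_insert_of_mem (Finset.mem_union_right _ hy)
      · simp only [Finset.mem_powersetCard]
        refine ⟨?_, hQ.1.2⟩
        intro y hy
        have hyW := hQ.1.1 hy
        have hyA := hWA W hW hyW
        rw [Finset.mem_compl, Finset.mem_insert, Finset.mem_union, Finset.mem_sdiff]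
        rintro (h | h | h)
        · exact (Finset.mem_filter.1 (hA𝓑 W hW)).2 (h ▸ hyA)
        · exact h.2 hy
        · exact (Finset.disjoint_left.1 h2) h hyA
    · rintro ⟨W, D, Q⟩ hz ⟨W2, D2, Q2⟩ hz2 heq
      rw [Finset.mem_coe, hT1, Finset.mem_sigma, Finset.mem_sigma] at hz hz2
      obtain ⟨hW, hD, hQ⟩ := hz
      obtain ⟨hW2, hD2, hQ2⟩ := hz2
      simp only at hW hD hQ hW2 hD2 hQ2
      simp only [Sigma.mk.injEq] at heq
      obtain ⟨hE, hrest⟩ := heq
      simp only [heq_eq_eq, Sigma.mk.injEq] at hrest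
      obtain ⟨hDD, hQQ⟩ := hrest
      subst hDD
      have hQQ' : Q = Q2 := by simpa using hQQ
      subst hQQ'
      simp only [hBd, Finset.mem_filter, Finset.mem_powersetCard] at hQ hQ2
      obtain ⟨h1, h2, h3⟩ := hDprop W hW D hD
      obtain ⟨h1', h2', h3'⟩ := hDprop W2 hW2 D hD2
      have hrec : ∀ W ∈ S, D ∈ Ds W → Q ⊆ W →
          W = ((insert x ((W \ Q) ∪ D)) \ (insert x D)) ∪ Q := by
        intro W hW hD hQW
        obtain ⟨h1, h2, h3⟩ := hDprop W hW D hD
        have hxA : x ∉ A W := (Finset.mem_filter.1 (hA𝓑 W hW)).2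
        ext y
        simp only [Finset.mem_union, Finset.mem_sdiff, Finset.mem_insert, not_or]
        constructor
        · intro hy
          by_cases hyQ : y ∈ Q
          · exact Or.inr hyQ
          · left
            refine ⟨Or.inr (Or.inl ⟨hy, hyQ⟩), ?_, ?_⟩
            · intro h; exact hxA (h ▸ hWA W hW hy)
            · intro h; exact (Finset.disjoint_left.1 h2) h (hWA W hW hy)
        · rintro (⟨h4 | h4 | h4, h5, h6⟩ | h4)
          · exact absurd h4 h5
          · exact h4.1
          · exact absurd h4 h6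
          · exact hQW h4
      have e1 := hrec W hW hD hQ.1.1
      have e2 := hrec W2 hW2 hD2 hQ2.1.1
      have : W = W2 := by rw [e1, e2, hE]
      subst this
      rfl
  calc S.card * ((n - (k + 1)).choose s * w.choose w') ≤ d * T1.card := hT1card
    _ ≤ d * T2.card := Nat.mul_le_mul_left _ hle
    _ = d * (M.card * ((k - 1).choose s * (n - k).choose w')) := by rw [hT2card]

end Pool.Agent.Lib.MP_b0b8df_co
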