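import Mathlib
import Pool.Agent.Lib.MP_b0b8df_co.Count

/-!
Regime I: few members outside of the star.
-/

set_option autoImplicit false

namespace Pool.Agent.Lib.MP_b0b8df_co

open Finset
open scoped FinsetFamily

lemma numeric {n k t w w' s d : ℕ} (hs : s + (w - w') + 1 = k) (hw' : w' ≤ w) (hwk : w < k)
    (hmain : d * (t + 1) ^ (k - w) * n ^ w' ≤ k * (n - k - s) ^ s) :
    d * ((t + 1).choose k * ((k - 1).choose s * (n - k).choose w'))
      ≤ t.choose w * ((n - (k + 1)).choose s * w.choose w') := by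
  obtain ⟨z, hz⟩ : ∃ z, z = w - w' := ⟨_, rfl⟩
  have hk1 : k - 1 = s + z := by omega
  have hwz : w = w' + z := by omega
  have e1 : (t + 1).descFactorial k = k.factorial * (t + 1).choose k :=
    Nat.descFactorial_eq_factorial_mul_choose _ _
  have e2 : (k - 1).choose s * s.factorial * z.factorial = (k - 1).factorial := by
    rw [hk1, Nat.choose_symm_add]; exact Nat.add_choose_mul_factorial_mul_factorial s z
  have e3 : (n - k).descFactorial w' = w'.factorial * (n - k).choose w' :=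
    Nat.descFactorial_eq_factorial_mul_choose _ _
  have e4 : t.descFactorial w = w.factorial * t.choose w :=
    Nat.descFactorial_eq_factorial_mul_choose _ _
  have e5 : (n - (k + 1)).descFactorial s = s.factorial * (n - (k + 1)).choose s :=
    Nat.descFactorial_eq_factorial_mul_choose _ _
  have e6 : w.choose w' * w'.factorial * z.factorial = w.factorial := by
    rw [hwz, Nat.choose_symm_add]; exact Nat.add_choose_mul_factorial_mul_factorial w' z
  have e7 : k.factorial = k * (k - 1).factorial := by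
    rw [Nat.mul_factorial_pred (by omega)]
  -- bounds
  have b1 : (t + 1).descFactorial k ≤ (t + 1) ^ (k - w) * t.descFactorial w := by
    obtain ⟨j, hj⟩ : ∃ j, k = w + j + 1 := ⟨k - w - 1, by omega⟩
    rw [hj, Nat.succ_descFactorial_succ]
    have h1 : t.descFactorial (w + j) = (t - w).descFactorial j * t.descFactorial w := by
      rw [← Nat.descFactorial_mul_descFactorial (n := t) (k := w) (m := w + j) (by omega)]
      congr 2
      omega
    have h2 : (t - w).descFactorial j ≤ (t + 1) ^ j :=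
      (Nat.descFactorial_le_pow _ _).trans (Nat.pow_le_pow_left (by omega) j)
    have h3 : w + j + 1 - w = j + 1 := by omega
    rw [h1, h3, pow_succ]
    calc (t + 1) * ((t - w).descFactorial j * t.descFactorial w)
        ≤ (t + 1) * ((t + 1) ^ j * t.descFactorial w) :=
          Nat.mul_le_mul_left _ (Nat.mul_le_mul_right _ h2)
      _ = (t + 1) ^ j * (t + 1) * t.descFactorial w := by ring
  have b2 : (n - k).descFactorial w' ≤ n ^ w' :=
    (Nat.descFactorial_le_pow _ _).trans (Nat.pow_le_pow_left (by omega) w')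
  have b3 : (n - k - s) ^ s ≤ (n - (k + 1)).descFactorial s := by
    refine le_trans ?_ (Nat.pow_sub_le_descFactorial (n - (k + 1)) s)
    exact Nat.pow_le_pow_left (by omega) s
  have key : d * ((t + 1).descFactorial k * (n - k).descFactorial w')
      ≤ k * (t.descFactorial w * (n - (k + 1)).descFactorial s) := by
    calc d * ((t + 1).descFactorial k * (n - k).descFactorial w')
        ≤ d * (((t + 1) ^ (k - w) * t.descFactorial w) * n ^ w') :=
          Nat.mul_le_mul_left _ (Nat.mul_le_mul b1 b2)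
      _ = (d * (t + 1) ^ (k - w) * n ^ w') * t.descFactorial w := by ring
      _ ≤ (k * (n - k - s) ^ s) * t.descFactorial w := Nat.mul_le_mul_right _ hmain
      _ = k * (t.descFactorial w * (n - k - s) ^ s) := by ring
      _ ≤ k * (t.descFactorial w * (n - (k + 1)).descFactorial s) :=
          Nat.mul_le_mul_left _ (Nat.mul_le_mul_left _ b3)
  have hpos : 0 < k.factorial * s.factorial * z.factorial * w'.factorial := by positivity
  refine Nat.le_of_mul_le_mul_right (c := k.factorial * s.factorial * z.factorial * w'.factorial)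
    ?_ hpos
  calc d * ((t + 1).choose k * ((k - 1).choose s * (n - k).choose w'))
        * (k.factorial * s.factorial * z.factorial * w'.factorial)
      = d * ((k.factorial * (t + 1).choose k) * (w'.factorial * (n - k).choose w'))
        * ((k - 1).choose s * s.factorial * z.factorial) := by ring
    _ = d * ((t + 1).descFactorial k * (n - k).descFactorial w') * (k - 1).factorial := by
        rw [← e1, ← e3, e2]
    _ ≤ k * (t.descFactorial w * (n - (k + 1)).descFactorial s) * (k - 1).factorial :=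
        Nat.mul_le_mul_right _ key
    _ = (w.choose w' * w'.factorial * z.factorial) * t.choose w
        * (s.factorial * (n - (k + 1)).choose s) * (k * (k - 1).factorial) := by
        rw [e6, e5, e4]; ring
    _ = t.choose w * ((n - (k + 1)).choose s * w.choose w')
        * (k.factorial * s.factorial * z.factorial * w'.factorial) := by
        rw [← e7]; ring

lemma one_sub_ge_exp {y : ℝ} (h0 : 0 ≤ y) (h1 : y ≤ 1 / 2) : Real.exp (-(2 * y)) ≤ 1 - y := by
  have h2 := Real.add_one_le_exp (2 * y)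
  have h3 : 1 ≤ (1 - y) * Real.exp (2 * y) := by
    have h4 : (1 - y) * (2 * y + 1) ≤ (1 - y) * Real.exp (2 * y) :=
      mul_le_mul_of_nonneg_left h2 (by linarith)
    nlinarith
  rw [Real.exp_neg, inv_le_iff_one_le_mul₀ (Real.exp_pos _)]
  exact h3

/-- the main numerical inequality -/
lemma numeric2 {n k t w w' s d : ℕ} {ζ η c : ℝ} (hs : s + (w - w') + 1 = k) (hw' : w' ≤ w)
    (hwk : w < k) (hn : 0 < n)
    (hkw : ζ * k / 2 ≤ (k : ℝ) - w) (hη : 0 ≤ η) (hc0 : 0 ≤ c) (hc1 : c ≤ 1 / 4)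
    (hkc : (k : ℝ) ≤ c * n) (hcη : 4 * c ≤ η * ζ / 4)
    (ht : ((t : ℝ) + 1) ≤ Real.exp (-η) * n)
    (hlog : (d : ℝ) * n ≤ Real.exp (η * ζ / 4 * k)) :
    d * (t + 1) ^ (k - w) * n ^ w' ≤ k * (n - k - s) ^ s := by
  have hk' : (1 : ℝ) ≤ k := by
    have : 1 ≤ k := by omega
    exact_mod_cast this
  have hn' : (0 : ℝ) < n := by exact_mod_cast hn
  have hkn : k ≤ n := by
    have : (k : ℝ) ≤ n := hkc.trans (by nlinarith)
    exact_mod_cast this
  have hsk : s ≤ k := by omega
  have h2k : k + s ≤ n := by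
    have : (k : ℝ) + s ≤ n := by
      have h1 : (s : ℝ) ≤ k := by exact_mod_cast hsk
      have h2 : c * n ≤ 1 / 4 * n := mul_le_mul_of_nonneg_right hc1 hn'.le
      linarith
    exact_mod_cast this
  have hsub : (((n - k - s : ℕ)) : ℝ) = (n : ℝ) - k - s := by
    rw [Nat.sub_sub, Nat.cast_sub h2k]; push_cast; ring
  suffices h : (d : ℝ) * ((t : ℝ) + 1) ^ (k - w) * (n : ℝ) ^ w'
      ≤ k * (((n - k - s : ℕ)) : ℝ) ^ s by
    exact_mod_cast h
  rw [hsub]
  -- lower bound of the right side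
  have hy : (2 * c) ≤ 1 / 2 := by linarith
  have hlow : n * Real.exp (-(4 * c)) ≤ (n : ℝ) - k - s := by
    have h1 := one_sub_ge_exp (by linarith : 0 ≤ 2 * c) hy
    have h2 : (s : ℝ) ≤ k := by exact_mod_cast hsk
    have h3 : n * Real.exp (-(2 * (2 * c))) ≤ n * (1 - 2 * c) :=
      mul_le_mul_of_nonneg_left h1 hn'.le
    have h4 : -(2 * (2 * c)) = -(4 * c) := by ring
    rw [h4] at h3
    linarith
  have hR : (n : ℝ) ^ s * Real.exp (-(4 * c) * k) ≤ ((n : ℝ) - k - s) ^ s := by
    have h1 : (n * Real.exp (-(4 * c))) ^ s ≤ ((n : ℝ) - k - s) ^ s :=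
      pow_le_pow_left₀ (by positivity) hlow s
    rw [mul_pow, ← Real.exp_nat_mul] at h1
    refine le_trans ?_ h1
    apply mul_le_mul_of_nonneg_left _ (by positivity)
    apply Real.exp_le_exp.2
    have h2 : (s : ℝ) ≤ k := by exact_mod_cast hsk
    nlinarith
  -- upper bound of the left side
  have hL : ((t : ℝ) + 1) ^ (k - w) ≤ Real.exp (-η * (ζ * k / 2)) * (n : ℝ) ^ (k - w) := by
    have h1 : ((t : ℝ) + 1) ^ (k - w) ≤ (Real.exp (-η) * n) ^ (k - w) :=
      pow_le_pow_left₀ (by positivity) ht _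
    rw [mul_pow, ← Real.exp_nat_mul] at h1
    refine h1.trans ?_
    apply mul_le_mul_of_nonneg_right _ (by positivity)
    apply Real.exp_le_exp.2
    have h2 : ((k - w : ℕ) : ℝ) = (k : ℝ) - w := Nat.cast_sub hwk.le
    rw [h2]
    nlinarith
  have hexp : s + 1 = (k - w) + w' := by omega
  calc (d : ℝ) * ((t : ℝ) + 1) ^ (k - w) * (n : ℝ) ^ w'
      ≤ d * (Real.exp (-η * (ζ * k / 2)) * (n : ℝ) ^ (k - w)) * (n : ℝ) ^ w' := by
        apply mul_le_mul_of_nonneg_right _ (by positivity)
        exact mul_le_mul_of_nonneg_left hL (by positivity)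
    _ = (d * n) * Real.exp (-η * (ζ * k / 2)) * (n : ℝ) ^ s := by
        have : (n : ℝ) ^ s * n = (n : ℝ) ^ (k - w) * (n : ℝ) ^ w' := by
          rw [← pow_succ, hexp, pow_add]
        calc (d : ℝ) * (Real.exp (-η * (ζ * k / 2)) * (n : ℝ) ^ (k - w)) * (n : ℝ) ^ w'
            = d * Real.exp (-η * (ζ * k / 2)) * ((n : ℝ) ^ (k - w) * (n : ℝ) ^ w') := by ring
          _ = (d * n) * Real.exp (-η * (ζ * k / 2)) * (n : ℝ) ^ s := by rw [← this]; ring
    _ ≤ Real.exp (η * ζ / 4 * k) * Real.exp (-η * (ζ * k / 2)) * (n : ℝ) ^ s := by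
        apply mul_le_mul_of_nonneg_right _ (by positivity)
        exact mul_le_mul_of_nonneg_right hlog (Real.exp_pos _).le
    _ = Real.exp (-(η * ζ / 4) * k) * (n : ℝ) ^ s := by
        rw [← Real.exp_add]
        congr 2
        ring
    _ ≤ Real.exp (-(4 * c) * k) * (n : ℝ) ^ s := by
        apply mul_le_mul_of_nonneg_right _ (by positivity)
        apply Real.exp_le_exp.2
        nlinarith
    _ ≤ 1 * ((n : ℝ) ^ s * Real.exp (-(4 * c) * k)) := by
        rw [one_mul, mul_comm]
    _ ≤ k * ((n : ℝ) - k - s) ^ s := by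
        apply mul_le_mul hk' hR (by positivity) (by positivity)

/-- bound for the Kruskal-Katona parameter -/
lemma t_bound {n k t : ℕ} {δ c : ℝ} (hn : 0 < n) (hkt : k ≤ t) (hδ0 : 0 < δ)
    (hδ1 : δ ≤ 1 / 2) (hc : c ≤ δ / 4) (hkc : (k : ℝ) ≤ c * n)
    (ht : ((t.choose k : ℕ) : ℝ) < Real.exp (-(δ * k)) * (n.choose k)) :
    (t : ℝ) + 1 ≤ Real.exp (-(δ / 2)) * n := by
  have hn' : (0 : ℝ) < n := by exact_mod_cast hn
  have h1 : (((t + 1 - k : ℕ)) : ℝ) ^ k < (Real.exp (-δ) * n) ^ k := by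
    have e1 : ((t + 1 - k) ^ k : ℕ) ≤ k.factorial * t.choose k := by
      rw [← Nat.descFactorial_eq_factorial_mul_choose]
      exact Nat.pow_sub_le_descFactorial t k
    have e2 : k.factorial * n.choose k ≤ n ^ k := by
      rw [← Nat.descFactorial_eq_factorial_mul_choose]
      exact Nat.descFactorial_le_pow n k
    have e1' : (((t + 1 - k : ℕ)) : ℝ) ^ k ≤ k.factorial * t.choose k := by exact_mod_cast e1
    have e2' : (k.factorial : ℝ) * n.choose k ≤ (n : ℝ) ^ k := by exact_mod_cast e2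
    have hf : (0 : ℝ) < k.factorial := by exact_mod_cast Nat.factorial_pos k
    calc (((t + 1 - k : ℕ)) : ℝ) ^ k ≤ k.factorial * t.choose k := e1'
      _ < k.factorial * (Real.exp (-(δ * k)) * (n.choose k)) := mul_lt_mul_of_pos_left ht hf
      _ = Real.exp (-(δ * k)) * (k.factorial * n.choose k) := by ring
      _ ≤ Real.exp (-(δ * k)) * (n : ℝ) ^ k :=
          mul_le_mul_of_nonneg_left e2' (Real.exp_pos _).le
      _ = (Real.exp (-δ) * n) ^ k := by
          rw [mul_pow, ← Real.exp_nat_mul]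
          congr 2
          ring
  have h2 : (((t + 1 - k : ℕ)) : ℝ) < Real.exp (-δ) * n :=
    lt_of_pow_lt_pow_left₀ k (by positivity) h1
  have h3 : (((t + 1 - k : ℕ)) : ℝ) = (t : ℝ) + 1 - k := by
    rw [Nat.cast_sub (by omega)]; push_cast; ring
  rw [h3] at h2
  have h4 : Real.exp (-δ) + δ / 4 ≤ Real.exp (-(δ / 2)) := by
    have h5 : Real.exp (-(δ / 2)) = Real.exp (-δ) * Real.exp (δ / 2) := by
      rw [← Real.exp_add]; congr 1; ring
    have h6 := Real.add_one_le_exp (δ / 2)
    have h7 := Real.add_one_le_exp (-δ)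
    have h8 : Real.exp (-δ) * (δ / 2 + 1) ≤ Real.exp (-δ) * Real.exp (δ / 2) :=
      mul_le_mul_of_nonneg_left h6 (Real.exp_pos _).le
    have h9 : (1 / 2) * (δ / 2) ≤ Real.exp (-δ) * (δ / 2) :=
      mul_le_mul_of_nonneg_right (by linarith) (by positivity)
    rw [h5]
    linarith
  have h5 : (Real.exp (-δ) + δ / 4) * n ≤ Real.exp (-(δ / 2)) * n :=
    mul_le_mul_of_nonneg_right h4 hn'.le
  have h6 : c * n ≤ δ / 4 * n := mul_le_mul_of_nonneg_right hc hn'.le
  linarith

/-- Regime I. -/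
theorem regime1 {d n k : ℕ} {ζ δ c : ℝ} (hd : 2 ≤ d) (hk : 0 < k) (hζ0 : 0 < ζ)
    (hζ1 : ζ ≤ 1) (hδ0 : 0 < δ) (hδ1 : δ ≤ 1 / 2) (hc : c ≤ δ * ζ / 32)
    (hkc : (k : ℝ) ≤ c * n) (hlog : (d : ℝ) * n ≤ Real.exp (δ / 2 * ζ / 4 * k))
    (hkd : (d : ℝ) - 1 ≤ ζ * k / 2) {x : Fin n} {𝓕 : Finset (Finset (Fin n))}
    (h𝓕 : ∀ C ∈ 𝓕, C.card = k)
    (hfree : ∀ C : Fin (d + 1) → Finset (Fin n), (∀ i, C i ∈ 𝓕) → (∀ y, ∃ i, y ∉ C i) →
      ¬ ((Finset.univ.biUnion C).card : ℝ) ≤ (1 + 1 / (d : ℝ)) * k + ζ * k)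
    (hB : ((𝓕.filter (x ∉ ·)).card : ℝ) < Real.exp (-(δ * k)) * (n.choose k))
    (hB1 : (𝓕.filter (x ∉ ·)).Nonempty) :
    (𝓕.filter (x ∉ ·)).card
      < (((Finset.powersetCard k Finset.univ).filter (x ∈ ·)) \ 𝓕).card := by
  classical
  have hk' : (0 : ℝ) < k := by exact_mod_cast hk
  have hd' : (2 : ℝ) ≤ d := by exact_mod_cast hd
  have hn : 0 < n := by
    have := x.2; omega
  have hn' : (0 : ℝ) < n := by exact_mod_cast hn
  have hc0 : 0 ≤ c := by
    by_contra h
    push Not at h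
    have : c * n < 0 := mul_neg_of_neg_of_pos h hn'
    linarith
  have hc4 : c ≤ 1 / 4 := by nlinarith
  have hcδ : c ≤ δ / 4 := by nlinarith
  have hkn : k ≤ n := by
    have : (k : ℝ) ≤ n := hkc.trans (by nlinarith)
    exact_mod_cast this
  set 𝓑 := 𝓕.filter (x ∉ ·) with h𝓑
  set M := ((Finset.powersetCard k Finset.univ).filter (x ∈ ·)) \ 𝓕 with hM
  -- block size
  set w' : ℕ := ⌊(1 - ζ / 2) * k / d⌋₊ with hw'
  set w : ℕ := d * w' with hw
  have hw'1 : (w' : ℝ) ≤ (1 - ζ / 2) * k / d := Nat.floor_le (by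
    have : 0 ≤ 1 - ζ / 2 := by linarith
    positivity)
  have hw'2 : (1 - ζ / 2) * k / d < w' + 1 := Nat.lt_floor_add_one _
  have hwr : (w : ℝ) ≤ (1 - ζ / 2) * k := by
    rw [hw]; push_cast
    have := mul_le_mul_of_nonneg_left hw'1 (by positivity : (0 : ℝ) ≤ d)
    have h2 : (d : ℝ) * ((1 - ζ / 2) * k / d) = (1 - ζ / 2) * k := by field_simp
    linarith
  have hkw : ζ * k / 2 ≤ (k : ℝ) - w := by linarith
  have hwk : w < k := by
    have h1 : 0 < ζ * k / 2 := by positivity
    have : (w : ℝ) < k := by linarith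
    exact_mod_cast this
  have hw'w : w' ≤ w := by rw [hw]; exact Nat.le_mul_of_pos_left w' (by omega)
  obtain ⟨s, hs⟩ : ∃ s, s + (w - w') + 1 = k := ⟨k - 1 - (w - w'), by omega⟩
  -- union bound
  have hU : ((k + s + 1 : ℕ) : ℝ) ≤ (1 + 1 / (d : ℝ)) * k + ζ * k := by
    have h1 : (s : ℝ) + ((w : ℝ) - w') + 1 = k := by
      have : ((s + (w - w') + 1 : ℕ) : ℝ) = (k : ℝ) := by rw [hs]
      push_cast [Nat.cast_sub hw'w] at this
      linarith
    have h2 : (w : ℝ) = d * w' := by rw [hw]; push_cast; ring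
    have h3 : ((d : ℝ) - 1) * ((1 - ζ / 2) * k / d - 1) ≤ (d - 1) * w' :=
      mul_le_mul_of_nonneg_left (by linarith) (by linarith)
    have h4 : ((d : ℝ) - 1) * ((1 - ζ / 2) * k / d - 1)
        = (1 - 1 / (d : ℝ)) * (1 - ζ / 2) * k - (d - 1) := by field_simp
    have h5 : (1 - 1 / (d : ℝ)) * (1 - ζ / 2) * k
        = k - 1 / (d : ℝ) * k - ζ / 2 * k + 1 / (d : ℝ) * (ζ / 2 * k) := by ring
    have h6 : 0 ≤ 1 / (d : ℝ) * (ζ / 2 * k) := by positivity
    push_cast
    rw [h4, h5] at h3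
    nlinarith
  -- the Kruskal-Katona parameter
  have hBpos : 0 < 𝓑.card := Finset.card_pos.2 hB1
  have hBlt : 𝓑.card < n.choose k := by
    have h1 : Real.exp (-(δ * k)) ≤ 1 := by
      rw [Real.exp_le_one_iff]
      have : 0 < δ * k := by positivity
      linarith
    have h2 : (𝓑.card : ℝ) < n.choose k := by
      have : Real.exp (-(δ * k)) * (n.choose k) ≤ 1 * (n.choose k) :=
        mul_le_mul_of_nonneg_right h1 (by positivity)
      linarith
    exact_mod_cast h2
  have hex : ∃ t : ℕ, 𝓑.card < t.choose k := ⟨n, hBlt⟩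
  set t' := Nat.find hex with ht'
  have ht'1 : 𝓑.card < t'.choose k := Nat.find_spec hex
  have ht'n : t' ≤ n := Nat.find_min' hex hBlt
  have ht'k : k < t' := by
    by_contra h
    push Not at h
    have : t'.choose k ≤ k.choose k := Nat.choose_le_choose k h
    rw [Nat.choose_self] at this
    omega
  obtain ⟨t, ht⟩ : ∃ t, t' = t + 1 := ⟨t' - 1, by omega⟩
  have htB : t.choose k ≤ 𝓑.card := by
    have := Nat.find_min hex (show t < Nat.find hex by rw [← ht']; omega)
    push Not at this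
    exact this
  rw [ht] at ht'1 ht'n ht'k
  have hkt : k ≤ t := by omega
  have htn : t ≤ n := by omega
  -- Kruskal-Katona
  have hKK : t.choose w ≤ (∂^[k - w] 𝓑).card := by
    have h1 : (𝓑 : Set (Finset (Fin n))).Sized k := by
      intro A hA
      exact h𝓕 A (Finset.mem_filter.1 (Finset.mem_coe.1 hA)).1
    have h2 := Finset.kruskal_katona_lovasz_form (i := k - w) (by omega) hkt htn h1 htB
    have h3 : k - (k - w) = w := by omega
    rw [h3] at h2
    exact h2
  have hDC := double_count (by omega : 1 ≤ d) (x := x) h𝓕 hwk hs hU hfree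
  -- numerical part
  have hct : (t : ℝ) + 1 ≤ Real.exp (-(δ / 2)) * n := by
    apply t_bound hn hkt hδ0 hδ1 hcδ hkc
    refine lt_of_le_of_lt ?_ hB
    exact_mod_cast htB
  have hnum := numeric (n := n) (t := t) (d := d) hs hw'w hwk (numeric2 hs hw'w hwk hn hkw
    (by positivity : 0 ≤ δ / 2) hc0 hc4 hkc (by nlinarith) hct hlog)
  by_contra hcon
  push Not at hcon
  have hMlt : M.card < (t + 1).choose k := lt_of_le_of_lt hcon ht'1
  have hpos : 0 < (k - 1).choose s * (n - k).choose w' := by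
    apply Nat.mul_pos
    · exact Nat.choose_pos (by omega)
    · apply Nat.choose_pos
      have h1 : (w' : ℝ) ≤ k := by
        have : (w' : ℝ) ≤ w := by exact_mod_cast hw'w
        have h2 : (w : ℝ) ≤ k := by exact_mod_cast hwk.le
        linarith
      have h2 : (w' : ℝ) + k ≤ n := by
        have : c * n ≤ 1 / 4 * n := mul_le_mul_of_nonneg_right hc4 hn'.le
        linarith
      have h3 : w' + k ≤ n := by exact_mod_cast h2
      omega
  have h1 : d * (M.card * ((k - 1).choose s * (n - k).choose w'))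
      < d * ((t + 1).choose k * ((k - 1).choose s * (n - k).choose w')) :=
    Nat.mul_lt_mul_of_pos_left (Nat.mul_lt_mul_of_pos_right hMlt hpos) (by omega)
  have h2 : t.choose w * ((n - (k + 1)).choose s * w.choose w')
      ≤ (∂^[k - w] 𝓑).card * ((n - (k + 1)).choose s * w.choose w') :=
    Nat.mul_le_mul_right _ hKK
  have h3 := hDC.trans_lt h1
  exact absurd (h2.trans_lt (h3.trans_le hnum)) (lt_irrefl _)

end Pool.Agent.Lib.MP_b0b8df_co
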