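import Mathlib
import Pool.Agent.Lib.MP_b0b8df_co.App

/-!
Stability: a large family without a cluster tuple is almost a star.
-/

set_option autoImplicit false

namespace Pool.Agent.Lib.MP_b0b8df_co

open Finset

section

variable (n : ℕ) (p γ : ℝ) (φ : Finset ℕ → ℝ)

/-- `e` is a medium element at the node `T` -/
def med (e : ℕ) (T : Finset ℕ) : Prop :=
  γ * B n p φ (n - e) T ≤ p * B n p φ (n - (e + 1)) (insert e T)

/-- a medium element is contained in `A` before time `m` -/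
def sig (m : ℕ) (A : Finset ℕ) : Prop :=
  ∃ e ∈ A, e < m ∧ med n p γ φ e (A.filter (· < e))

open Classical in
/-- the successful part -/
noncomputable def f1 (m : ℕ) (S : Finset ℕ) : ℝ := if sig n p γ φ m S then φ S else 0

open Classical in
/-- the unsuccessful part -/
noncomputable def f2 (m : ℕ) (S : Finset ℕ) : ℝ := if sig n p γ φ m S then 0 else φ S

variable {n p γ φ}

lemma sig_insert {m e : ℕ} {T : Finset ℕ} (hT : T ⊆ Finset.range e) :
    sig n p γ φ m (insert e T) ↔ (sig n p γ φ m T ∨ (e < m ∧ med n p γ φ e T)) := by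
  have h1 : ∀ e' ∈ T, (insert e T).filter (· < e') = T.filter (· < e') := by
    intro e' he'
    have h2 := Finset.mem_range.1 (hT he')
    ext y
    simp only [Finset.mem_filter, Finset.mem_insert]
    constructor
    · rintro ⟨h3 | h3, h4⟩
      · omega
      · exact ⟨h3, h4⟩
    · rintro ⟨h3, h4⟩
      exact ⟨Or.inr h3, h4⟩
  have h2 : (insert e T).filter (· < e) = T := by
    ext y
    simp only [Finset.mem_filter, Finset.mem_insert]
    constructor
    · rintro ⟨h3 | h3, h4⟩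
      · omega
      · exact h3
    · intro h3
      exact ⟨Or.inr h3, Finset.mem_range.1 (hT h3)⟩
  constructor
  · rintro ⟨e', he', hm, hmed⟩
    rw [Finset.mem_insert] at he'
    rcases he' with rfl | he'
    · right
      rw [h2] at hmed
      exact ⟨hm, hmed⟩
    · left
      rw [h1 e' he'] at hmed
      exact ⟨e', he', hm, hmed⟩
  · rintro (⟨e', he', hm, hmed⟩ | ⟨hm, hmed⟩)
    · refine ⟨e', Finset.mem_insert_of_mem he', hm, ?_⟩
      rw [h1 e' he']; exact hmed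
    · refine ⟨e, Finset.mem_insert_self _ _, hm, ?_⟩
      rw [h2]; exact hmed

lemma not_sig_empty (m : ℕ) : ¬ sig n p γ φ m ∅ := by
  rintro ⟨e, he, _⟩
  simp at he

lemma not_sig_zero (A : Finset ℕ) : ¬ sig n p γ φ 0 A := by
  rintro ⟨e, _, he, _⟩
  omega

lemma sub_insert_range {r : ℕ} {T : Finset ℕ} (hr : r + 1 ≤ n)
    (hT : T ⊆ Finset.range (n - (r + 1))) :
    insert (n - (r + 1)) T ⊆ Finset.range (n - r) ∧ T ⊆ Finset.range (n - r) := by
  have h1 : T ⊆ Finset.range (n - r) := by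
    intro y hy
    have := hT hy
    rw [Finset.mem_range] at this ⊢
    omega
  refine ⟨?_, h1⟩
  intro y hy
  rw [Finset.mem_insert] at hy
  rcases hy with rfl | hy
  · rw [Finset.mem_range]; omega
  · exact h1 hy

lemma B_f2_of_sig {m : ℕ} : ∀ r T, r ≤ n → T ⊆ Finset.range (n - r) → sig n p γ φ m T →
    B n p (f2 n p γ φ m) r T = 0
  | 0, T, _, _, h => by simp [B, f2, h]
  | r + 1, T, hr, hT, h => by
    obtain ⟨h1, h2⟩ := sub_insert_range hr hT
    have h3 : sig n p γ φ m (insert (n - (r + 1)) T) := (sig_insert hT).2 (Or.inl h)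
    simp only [B]
    rw [B_f2_of_sig r _ (by omega) h1 h3, B_f2_of_sig r _ (by omega) h2 h]
    ring

lemma B_f1_of_sig {m : ℕ} : ∀ r T, r ≤ n → T ⊆ Finset.range (n - r) → sig n p γ φ m T →
    B n p (f1 n p γ φ m) r T = B n p φ r T
  | 0, T, _, _, h => by simp [B, f1, h]
  | r + 1, T, hr, hT, h => by
    obtain ⟨h1, h2⟩ := sub_insert_range hr hT
    have h3 : sig n p γ φ m (insert (n - (r + 1)) T) := (sig_insert hT).2 (Or.inl h)
    simp only [B]
    rw [B_f1_of_sig r _ (by omega) h1 h3, B_f1_of_sig r _ (by omega) h2 h]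

lemma B_f1_of_not_sig {m : ℕ} : ∀ r T, r ≤ n → m ≤ n - r → T ⊆ Finset.range (n - r) →
    ¬ sig n p γ φ m T → B n p (f1 n p γ φ m) r T = 0
  | 0, T, _, _, _, h => by simp [B, f1, h]
  | r + 1, T, hr, hm, hT, h => by
    obtain ⟨h1, h2⟩ := sub_insert_range hr hT
    have h3 : ¬ sig n p γ φ m (insert (n - (r + 1)) T) := by
      rw [sig_insert hT]
      rintro (h4 | h4)
      · exact h h4
      · omega
    simp only [B]
    rw [B_f1_of_not_sig r _ (by omega) (by omega) h1 h3,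
      B_f1_of_not_sig r _ (by omega) (by omega) h2 h]
    ring

lemma f1_add_f2 (m : ℕ) (S : Finset ℕ) : f1 n p γ φ m S + f2 n p γ φ m S = φ S := by
  unfold f1 f2
  split_ifs <;> ring

lemma f1_nonneg (hφ : ∀ S, 0 ≤ φ S) (m : ℕ) (S : Finset ℕ) : 0 ≤ f1 n p γ φ m S := by
  unfold f1
  split_ifs
  · exact hφ S
  · exact le_rfl

lemma f2_nonneg (hφ : ∀ S, 0 ≤ φ S) (m : ℕ) (S : Finset ℕ) : 0 ≤ f2 n p γ φ m S := by
  unfold f2
  split_ifs
  · exact le_rfl
  · exact hφ S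

lemma f1_le (hφ : ∀ S, 0 ≤ φ S) (m : ℕ) (S : Finset ℕ) : f1 n p γ φ m S ≤ φ S := by
  unfold f1
  split_ifs
  · exact le_rfl
  · exact hφ S

lemma f2_le (hφ : ∀ S, 0 ≤ φ S) (m : ℕ) (S : Finset ℕ) : f2 n p γ φ m S ≤ φ S := by
  unfold f2
  split_ifs
  · exact hφ S
  · exact le_rfl

lemma B_f1_add_f2 (m r : ℕ) (T : Finset ℕ) :
    B n p (f1 n p γ φ m) r T + B n p (f2 n p γ φ m) r T = B n p φ r T := by
  rw [← B_add]
  congr 1
  funext S
  exact f1_add_f2 m S

lemma f2_q {m r : ℕ} {T : Finset ℕ} (hp0 : 0 < p) (hp1 : p ≤ 1) (hφ : ∀ S, 0 ≤ φ S)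
    (hr : r + 1 ≤ n) (hT : T ⊆ Finset.range (n - (r + 1))) (hm : n - (r + 1) < m)
    (hb : 0 < B n p (f2 n p γ φ m) (r + 1) T)
    (hP : 2 * γ * B n p φ (r + 1) T < B n p (f2 n p γ φ m) (r + 1) T) :
    p * B n p (f2 n p γ φ m) r (insert (n - (r + 1)) T) / B n p (f2 n p γ φ m) (r + 1) T
      ≤ 1 / 2 := by
  obtain ⟨h1, h2⟩ := sub_insert_range hr hT
  have hsig : ¬ sig n p γ φ m T := by
    intro h
    rw [B_f2_of_sig (r + 1) T hr hT h] at hb
    exact lt_irrefl _ hb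
  by_cases hmed : med n p γ φ (n - (r + 1)) T
  · have h3 : sig n p γ φ m (insert (n - (r + 1)) T) := (sig_insert hT).2 (Or.inr ⟨hm, hmed⟩)
    rw [B_f2_of_sig r _ (by omega) h1 h3]
    simp
  · unfold med at hmed
    push Not at hmed
    have e1 : n - (n - (r + 1)) = r + 1 := by omega
    have e2 : n - (n - (r + 1) + 1) = r := by omega
    rw [e1, e2] at hmed
    rw [div_le_iff₀ hb]
    have h3 : B n p (f2 n p γ φ m) r (insert (n - (r + 1)) T)
        ≤ B n p φ r (insert (n - (r + 1)) T) := B_mono hp0.le hp1 (f2_le hφ m) _ _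
    have h4 := mul_le_mul_of_nonneg_left h3 hp0.le
    linarith

end

/-- The final contradiction in the applications: a tuple of good sets gives a forbidden tuple. -/
lemma contra_of_tuple {d k : ℕ} {ζ : ℝ} (hζ : 0 < ζ) {𝓕 : Finset (Finset ℕ)}
    (hfree : ∀ C : Fin (d + 1) → Finset ℕ, (∀ i, C i ∈ 𝓕) → (∀ y, ∃ i, y ∉ C i) →
      ¬ ((Finset.univ.biUnion C).card : ℝ) ≤ (1 + 1 / (d : ℝ)) * k + ζ * k)
    (A : Fin (d + 1) → Finset ℕ) (hA : ∀ i, 0 < fd k 𝓕 (A i)) (hA2 : ∀ y, ∃ i, y ∉ A i)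
    (hA3 : ((Finset.univ.biUnion A).card : ℝ) ≤ (1 + 1 / (d : ℝ)) * k + 3 / 4 * (ζ * k)) :
    False := by
  choose C hC1 hC2 using fun i => exists_of_fd_pos (hA i)
  apply hfree C hC1
  · intro y
    obtain ⟨i, hi⟩ := hA2 y
    exact ⟨i, fun h => hi (hC2 i h)⟩
  · have h1 : (Finset.univ.biUnion C).card ≤ (Finset.univ.biUnion A).card :=
      Finset.card_le_card (Finset.biUnion_mono fun i _ => hC2 i)
    have h2 : ((Finset.univ.biUnion C).card : ℝ) ≤ (Finset.univ.biUnion A).card := by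
      exact_mod_cast h1
    have h3 : 0 ≤ ζ * k := by positivity
    linarith

/-- Application 1: the unsuccessful part is small. -/
theorem app1 {d n k : ℕ} {ζ p w γ : ℝ} (hd : 2 ≤ d) (hk : 0 < k) (hζ0 : 0 < ζ) (hζ1 : ζ ≤ 1)
    (hp0 : 0 < p) (hp : p * n = (1 + ζ / 6) * k) (hp8 : p ≤ 1 / 8)
    (hw0 : 0 < w) (hγ : γ = w / (20 * (d + 1)))
    {𝓕 : Finset (Finset ℕ)} (h𝓕 : ∀ C ∈ 𝓕, C.card = k)
    (hfree : ∀ C : Fin (d + 1) → Finset ℕ, (∀ i, C i ∈ 𝓕) → (∀ y, ∃ i, y ∉ C i) →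
      ¬ ((Finset.univ.biUnion C).card : ℝ) ≤ (1 + 1 / (d : ℝ)) * k + ζ * k)
    (hb : p / 2 ≤ B n p (fd k 𝓕) n ∅)
    (hL : 1280 * (d + 1) ^ 2 / (ζ ^ 2 * k) * Real.log (2 / (w * p)) ≤ 1 / 10)
    (hk32 : 32 / (ζ ^ 2 * k) ≤ 1 / 16) :
    B n p (f2 n p γ (fd k 𝓕) n) n ∅ < w * B n p (fd k 𝓕) n ∅ := by
  by_contra hcon
  push Not at hcon
  have hφ0 := fd_nonneg k 𝓕
  have hφ1 : ∀ S, fd k 𝓕 S ≤ 1 := fd_le_one h𝓕
  set b0 := B n p (fd k 𝓕) n ∅ with hb0
  set b := B n p (f2 n p γ (fd k 𝓕) n) n ∅ with hbdef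
  have hb0pos : 0 < b0 := by linarith [half_pos hp0]
  have hbpos : 0 < b := lt_of_lt_of_le (by positivity) hcon
  have hγ0 : 0 < γ := by rw [hγ]; positivity
  have hk' : (0 : ℝ) < k := by exact_mod_cast hk
  obtain ⟨A, hA1, hA2, hA3, hA4, hA5⟩ := app hd hk hζ0 hζ1 hp0 hp hp8
    (fun _ => f2 n p γ (fd k 𝓕) n) (fun _ => f2_nonneg hφ0 n)
    (fun _ S => (f2_le hφ0 n S).trans (hφ1 S)) (fun _ => 0) (fun _ => le_rfl)
    (fun _ r T => 2 * γ * B n p (fd k 𝓕) r T)
    (fun _ r T => by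
      have := B_nonneg (N := n) hp0.le (by linarith : p ≤ 1) hφ0 r T
      positivity)
    (by
      intro _ r T _ _ _ _
      simp only [B]
      apply le_of_eq
      ring)
    (by
      intro r T hr hT hbT hPT
      have h1 : ∀ i, p * B n p (f2 n p γ (fd k 𝓕) n) r (insert (n - (r + 1)) (T i))
        / B n p (f2 n p γ (fd k 𝓕) n) (r + 1) (T i) ≤ 1 / 2 := fun i =>
          f2_q hp0 (by linarith) hφ0 hr (hT i) (by omega) (hbT i) (hPT i)
      have h2 := Finset.sum_le_sum fun (i : Fin (d + 1)) (_ : i ∈ Finset.univ) => h1 i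
      have h3 : ∑ _i : Fin (d + 1), (1 / 2 : ℝ) ≤ d := by
        rw [Finset.sum_const, Finset.card_univ, Fintype.card_fin, nsmul_eq_mul]
        push_cast
        have : (2 : ℝ) ≤ d := by exact_mod_cast hd
        linarith
      rw [max_eq_right (by linarith)]
      simp)
    (fun _ => hbpos)
    (by
      have h1 : - Real.log b ≤ Real.log (2 / (w * p)) := by
        rw [← Real.log_inv]
        apply Real.log_le_log (by positivity)
        rw [inv_le_comm₀ hbpos (by positivity), inv_div]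
        calc w * p / 2 = w * (p / 2) := by ring
          _ ≤ w * b0 := mul_le_mul_of_nonneg_left hb hw0.le
          _ ≤ b := hcon
      have h2 : 2 * γ * b0 / b ≤ 1 / (10 * (d + 1)) := by
        rw [div_le_div_iff₀ hbpos (by positivity), hγ]
        have : 2 * (w / (20 * ((d : ℝ) + 1))) * b0 * (10 * (d + 1)) = w * b0 := by
          field_simp; norm_num
        rw [this]; linarith
      have h3 : (1280 * ((d : ℝ) + 1) / (ζ ^ 2 * k) + 0) * (- Real.log b)
          ≤ 1280 * (d + 1) / (ζ ^ 2 * k) * Real.log (2 / (w * p)) := by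
        rw [add_zero]
        exact mul_le_mul_of_nonneg_left h1 (by positivity)
      rw [Finset.sum_const, Finset.card_univ, Fintype.card_fin, nsmul_eq_mul]
      push_cast
      have h4 : ((d : ℝ) + 1) * (1280 * (d + 1) / (ζ ^ 2 * k) * Real.log (2 / (w * p)))
          = 1280 * (d + 1) ^ 2 / (ζ ^ 2 * k) * Real.log (2 / (w * p)) := by ring
      have h5 : ((d : ℝ) + 1) * (1 / (10 * (d + 1))) = 1 / 10 := by field_simp
      have h6 : ((d : ℝ) + 1) * ((1280 * ((d : ℝ) + 1) / (ζ ^ 2 * k) + 0) * (- Real.log b)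
          + 2 * γ * b0 / b) ≤ ((d : ℝ) + 1) * (1280 * (d + 1) / (ζ ^ 2 * k)
            * Real.log (2 / (w * p)) + 1 / (10 * (d + 1))) :=
        mul_le_mul_of_nonneg_left (add_le_add h3 h2) (by positivity)
      rw [mul_add ((d : ℝ) + 1) (1280 * (d + 1) / (ζ ^ 2 * k) * Real.log (2 / (w * p))), h4, h5]
        at h6
      linarith)
  exact contra_of_tuple hζ0 hfree A (fun i => lt_of_lt_of_le (hA2 i) (f2_le hφ0 n _)) hA4 hA5

end Pool.Agent.Lib.MP_b0b8df_co
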