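import Mathlib
import Pool.Agent.Lib.MP_b0b8df_co.Stability

/-!
Stability, second application and the jump argument.
-/

set_option autoImplicit false

namespace Pool.Agent.Lib.MP_b0b8df_co

open Finset

open Classical in
/-- potential of law `0` in the second application -/
noncomputable def P0 (n : ℕ) (p γ : ℝ) (φ : Finset ℕ → ℝ) (m : ℕ) (s t κ : ℝ) (r : ℕ)
    (T : Finset ℕ) : ℝ :=
  if sig n p γ φ m T then s else t + κ * B n p φ r T

lemma P0_M1 {n : ℕ} {p γ : ℝ} {φ : Finset ℕ → ℝ} {m : ℕ} {s t κ : ℝ} {r : ℕ}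
    {T : Finset ℕ} (hp0 : 0 < p) (hp1 : p ≤ 1) (hφ : ∀ S, 0 ≤ φ S)
    (ht : 0 ≤ t) (hκ : 0 ≤ κ) (hγ : 0 ≤ γ) (hs : p * s ≤ κ * (γ * t))
    (hr : r + 1 ≤ n) (hT : T ⊆ Finset.range (n - (r + 1)))
    (hP : P0 n p γ φ m s t κ (r + 1) T < B n p (f1 n p γ φ m) (r + 1) T) :
    p * P0 n p γ φ m s t κ r (insert (n - (r + 1)) T) + (1 - p) * P0 n p γ φ m s t κ r T
      ≤ P0 n p γ φ m s t κ (r + 1) T := by
  by_cases h : sig n p γ φ m T
  · have h3 : sig n p γ φ m (insert (n - (r + 1)) T) := (sig_insert hT).2 (Or.inl h)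
    simp only [P0, h, h3, if_true]
    linarith
  · by_cases h4 : n - (r + 1) < m ∧ med n p γ φ (n - (r + 1)) T
    · have h3 : sig n p γ φ m (insert (n - (r + 1)) T) := (sig_insert hT).2 (Or.inr h4)
      simp only [P0, h, h3, if_true, if_false] at hP ⊢
      have hmed := h4.2
      unfold med at hmed
      have e1 : n - (n - (r + 1)) = r + 1 := by omega
      have e2 : n - (n - (r + 1) + 1) = r := by omega
      rw [e1, e2] at hmed
      have h5 : B n p (f1 n p γ φ m) (r + 1) T ≤ B n p φ (r + 1) T :=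
        B_mono hp0.le hp1 (f1_le hφ m) _ _
      have h6 : 0 ≤ B n p φ (r + 1) T := B_nonneg hp0.le hp1 hφ _ _
      have h7 : t ≤ B n p φ (r + 1) T := by
        have := mul_nonneg hκ h6
        linarith
      have h8 : γ * t ≤ p * B n p φ r (insert (n - (r + 1)) T) :=
        (mul_le_mul_of_nonneg_left h7 hγ).trans hmed
      have h9 := mul_le_mul_of_nonneg_left h8 hκ
      have h10 : B n p φ (r + 1) T = p * B n p φ r (insert (n - (r + 1)) T)
        + (1 - p) * B n p φ r T := rfl
      rw [h10]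
      have h11 : 0 ≤ p * t := mul_nonneg hp0.le ht
      linarith
    · have h3 : ¬ sig n p γ φ m (insert (n - (r + 1)) T) := by
        rw [sig_insert hT]; tauto
      simp only [P0, h, h3, if_false]
      have h10 : B n p φ (r + 1) T = p * B n p φ r (insert (n - (r + 1)) T)
        + (1 - p) * B n p φ r T := rfl
      rw [h10]
      apply le_of_eq
      ring

/-- Application 2: the success probability is never of intermediate size. -/
theorem app2 {d n k m : ℕ} {ζ p w γ : ℝ} (hd : 2 ≤ d) (hk : 0 < k) (hζ0 : 0 < ζ) (hζ1 : ζ ≤ 1)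
    (hp0 : 0 < p) (hp : p * n = (1 + ζ / 6) * k) (hp8 : p ≤ 1 / 8)
    (hw0 : 0 < w) (hγ : γ = w / (20 * (d + 1)))
    {𝓕 : Finset (Finset ℕ)} (h𝓕 : ∀ C ∈ 𝓕, C.card = k)
    (hfree : ∀ C : Fin (d + 1) → Finset ℕ, (∀ i, C i ∈ 𝓕) → (∀ y, ∃ i, y ∉ C i) →
      ¬ ((Finset.univ.biUnion C).card : ℝ) ≤ (1 + 1 / (d : ℝ)) * k + ζ * k)
    (hb : p / 2 ≤ B n p (fd k 𝓕) n ∅)
    (hL : 1280 * (d + 1) ^ 2 / (ζ ^ 2 * k) * Real.log (2 / (w * p)) ≤ 1 / 10)
    (hk32 : 32 / (ζ ^ 2 * k) ≤ 1 / 16)
    (hρ : 8 * Real.sqrt p * Real.log (2 / (w * p)) ≤ 1 / 10)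
    (hκ : 40 * Real.sqrt p / (γ * w ^ 2) ≤ 1 / 10)
    (h1w : w * B n p (fd k 𝓕) n ∅ ≤ B n p (f1 n p γ (fd k 𝓕) m) n ∅)
    (h2w : w * B n p (fd k 𝓕) n ∅ ≤ B n p (f2 n p γ (fd k 𝓕) m) n ∅) : False := by
  have hφ0 := fd_nonneg k 𝓕
  have hφ1 : ∀ S, fd k 𝓕 S ≤ 1 := fd_le_one h𝓕
  have hp1 : p ≤ 1 := by linarith
  set φ := fd k 𝓕 with hφdef
  set b0 := B n p φ n ∅ with hb0
  set b1 := B n p (f1 n p γ φ m) n ∅ with hb1def
  set b2 := B n p (f2 n p γ φ m) n ∅ with hb2def
  have hb0pos : 0 < b0 := by linarith [half_pos hp0]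
  have hb1pos : 0 < b1 := lt_of_lt_of_le (by positivity) h1w
  have hb2pos : 0 < b2 := lt_of_lt_of_le (by positivity) h2w
  have hγ0 : 0 < γ := by rw [hγ]; positivity
  have hk' : (0 : ℝ) < k := by exact_mod_cast hk
  have hd' : (2 : ℝ) ≤ d := by exact_mod_cast hd
  set g := Real.sqrt p with hg
  have hg0 : 0 < g := Real.sqrt_pos.2 hp0
  have hgg : g * g = p := Real.mul_self_sqrt hp0.le
  have hg1 : g ≤ 1 / 2 := by
    rw [hg]
    have : Real.sqrt p ≤ Real.sqrt (1 / 4) := Real.sqrt_le_sqrt (by linarith)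
    have h2 : Real.sqrt (1 / 4) = 1 / 2 := by
      rw [show (1 / 4 : ℝ) = (1 / 2) ^ 2 by norm_num]
      exact Real.sqrt_sq (by norm_num)
    linarith
  -- parameters
  set t : ℝ := w * b0 / 20 with ht
  set κ : ℝ := 20 * p * g / (γ * w * b0) with hκdef
  have ht0 : 0 < t := by positivity
  have hκ0 : 0 < κ := by positivity
  set f : Fin (d + 1) → Finset ℕ → ℝ := fun i => if i = 0 then f1 n p γ φ m else f2 n p γ φ m
    with hf
  set P : Fin (d + 1) → ℕ → Finset ℕ → ℝ := fun i r T =>
    if i = 0 then P0 n p γ φ m g t κ r T else 2 * γ * B n p φ r T with hPdef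
  set ρ : Fin (d + 1) → ℝ := fun i => if i = 1 then 8 * g else 0 with hρdef
  have h01 : (0 : Fin (d + 1)) ≠ 1 := by
    intro h
    have h6 := congrArg Fin.val h
    have h7 : ((1 : Fin (d + 1)) : ℕ) = 1 := by
      rw [Fin.val_one']
      exact Nat.mod_eq_of_lt (by omega)
    rw [h7] at h6
    simp at h6
  obtain ⟨A, hA1, hA2, hA3, hA4, hA5⟩ := app hd hk hζ0 hζ1 hp0 hp hp8 f
    (by
      intro i S
      by_cases h : i = 0
      · simp only [hf, h, if_true]; exact f1_nonneg hφ0 m S
      · simp only [hf, h, if_false]; exact f2_nonneg hφ0 m S)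
    (by
      intro i S
      by_cases h : i = 0
      · simp only [hf, h, if_true]; exact (f1_le hφ0 m S).trans (hφ1 S)
      · simp only [hf, h, if_false]; exact (f2_le hφ0 m S).trans (hφ1 S))
    ρ
    (by
      intro i
      simp only [hρdef]
      split_ifs <;> positivity)
    P
    (by
      intro i r T
      have := B_nonneg (N := n) hp0.le hp1 hφ0 r T
      simp only [hPdef, P0]
      split_ifs <;> positivity)
    (by
      intro i r T hr hT hbT hPT
      by_cases h : i = 0
      · simp only [hf, hPdef, h, if_true] at hbT hPT ⊢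
        apply P0_M1 hp0 hp1 hφ0 ht0.le hκ0.le hγ0.le _ hr hT hPT
        apply le_of_eq
        rw [hκdef, ht]
        field_simp
      · simp only [hf, hPdef, h, if_false] at hbT hPT ⊢
        simp only [B]
        apply le_of_eq
        ring)
    (by
      intro r T hr hT hbT hPT
      set q : Fin (d + 1) → ℝ := fun i => p * B n p (f i) r (insert (n - (r + 1)) (T i))
        / B n p (f i) (r + 1) (T i) with hq
      change max (∑ i, q i - d) 0 ≤ ∑ i, ρ i * Dq p (q i)
      have hfi0 : ∀ i S, 0 ≤ f i S := by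
        intro i S
        by_cases h : i = 0
        · simp only [hf, h, if_true]; exact f1_nonneg hφ0 m S
        · simp only [hf, h, if_false]; exact f2_nonneg hφ0 m S
      have hq0 : ∀ i, 0 ≤ q i := by
        intro i
        have h1 := B_nonneg (N := n) hp0.le hp1 (hfi0 i) r (insert (n - (r + 1)) (T i))
        have h2 := hbT i
        change 0 ≤ p * B n p (f i) r (insert (n - (r + 1)) (T i))
          / B n p (f i) (r + 1) (T i)
        positivity
      have hq1 : ∀ i, q i ≤ 1 := by
        intro i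
        change p * B n p (f i) r (insert (n - (r + 1)) (T i))
          / B n p (f i) (r + 1) (T i) ≤ 1
        rw [div_le_one (hbT i)]
        have h1 := B_nonneg (N := n) hp0.le hp1 (hfi0 i) r (T i)
        have h2 : B n p (f i) (r + 1) (T i) = p * B n p (f i) r (insert (n - (r + 1)) (T i))
          + (1 - p) * B n p (f i) r (T i) := rfl
        rw [h2]
        have h3 : 0 ≤ (1 - p) * B n p (f i) r (T i) := mul_nonneg (by linarith) h1
        linarith
      have hρD : ∀ i, 0 ≤ ρ i * Dq p (q i) := by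
        intro i
        apply mul_nonneg _ (Dq_nonneg (hq0 i))
        simp only [hρdef]
        split_ifs <;> positivity
      have hρDsum : 0 ≤ ∑ i, ρ i * Dq p (q i) := Finset.sum_nonneg fun i _ => hρD i
      by_cases hm : n - (r + 1) < m
      · -- before time m
        have h1 : ∀ i : Fin d, q i.succ ≤ 1 / 2 := by
          intro i
          have hi : i.succ ≠ 0 := Fin.succ_ne_zero i
          have hbTi := hbT i.succ
          have hPTi := hPT i.succ
          simp only [hf, hPdef, hi, if_false] at hbTi hPTi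
          have := f2_q hp0 hp1 hφ0 hr (hT i.succ) hm hbTi hPTi
          simp only [hq, hf, hi, if_false]
          exact this
        have h2 : ∑ i : Fin d, q i.succ ≤ ∑ _i : Fin d, (1 / 2 : ℝ) :=
          Finset.sum_le_sum fun i _ => h1 i
        rw [Finset.sum_const, Finset.card_univ, Fintype.card_fin, nsmul_eq_mul] at h2
        rw [max_eq_right]
        · exact hρDsum
        · rw [Fin.sum_univ_succ]
          have := hq1 0
          linarith
      · -- after time m
        push Not at hm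
        have hbT0 := hbT 0
        have hPT0 := hPT 0
        simp only [hf, hPdef, if_true] at hbT0 hPT0
        have hsig : sig n p γ φ m (T 0) := by
          by_contra h
          rw [B_f1_of_not_sig (r + 1) (T 0) hr hm (hT 0) h] at hbT0
          exact lt_irrefl _ hbT0
        simp only [P0, hsig, if_true] at hPT0
        have hq0' : q 0 ≤ g := by
          have e1 : q 0 = p * B n p (f1 n p γ φ m) r (insert (n - (r + 1)) (T 0))
            / B n p (f1 n p γ φ m) (r + 1) (T 0) := by
            simp only [hq, hf, if_true]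
          rw [e1, div_le_iff₀ hbT0]
          have h1 : B n p (f1 n p γ φ m) r (insert (n - (r + 1)) (T 0)) ≤ 1 :=
            B_le_one hp0.le hp1 (fun S => (f1_le hφ0 m S).trans (hφ1 S)) _ _
          have h2 := mul_le_mul_of_nonneg_left h1 hp0.le
          have h3 := mul_lt_mul_of_pos_left hPT0 hg0
          linarith
        by_cases hle : ∑ i, q i - d ≤ 0
        · rw [max_eq_right hle]; exact hρDsum
        · push Not at hle
          rw [max_eq_left hle.le]
          have hsum1 : ∑ i : Fin (d + 1), q i ≤ q 0 + q 1 + (d - 1) := by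
            have h1 : ∑ i : Fin (d + 1), q i = q 0 + (q 1 + ∑ i ∈ (Finset.univ.erase 0).erase 1, q i) := by
              rw [Finset.add_sum_erase _ _ (Finset.mem_erase.2 ⟨h01.symm, Finset.mem_univ _⟩),
                Finset.add_sum_erase _ _ (Finset.mem_univ _)]
            have h2 : ∑ i ∈ (Finset.univ.erase (0 : Fin (d + 1))).erase 1, q i
                ≤ ∑ i ∈ (Finset.univ.erase (0 : Fin (d + 1))).erase 1, 1 :=
              Finset.sum_le_sum fun i _ => hq1 i
            rw [Finset.sum_const, Finset.card_erase_of_mem (Finset.mem_erase.2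
              ⟨h01.symm, Finset.mem_univ _⟩), Finset.card_erase_of_mem (Finset.mem_univ _),
              Finset.card_univ, Fintype.card_fin, nsmul_eq_mul, mul_one] at h2
            have h3 : ((d + 1 - 1 - 1 : ℕ) : ℝ) = d - 1 := by
              have : d + 1 - 1 - 1 = d - 1 := by omega
              rw [this, Nat.cast_sub (by omega)]
              simp
            rw [h3] at h2
            linarith
          have hq1' : 1 / 2 ≤ q 1 := by linarith
          have hD := one_le_Dq hp0 hp8 hq1'
          have h1 : ρ 1 * Dq p (q 1) ≤ ∑ i, ρ i * Dq p (q i) :=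
            Finset.single_le_sum (f := fun i => ρ i * Dq p (q i)) (fun i _ => hρD i)
              (Finset.mem_univ 1)
          have h2 : ρ 1 = 8 * g := by simp [hρdef]
          rw [h2] at h1
          have h3 : g ≤ 8 * g * Dq p (q 1) := by nlinarith
          have h4 := hq1 1
          linarith)
    (by
      intro i
      by_cases h : i = 0
      · simp only [hf, h, if_true]; exact hb1pos
      · simp only [hf, h, if_false]; exact hb2pos)
    (by
      have hLog : ∀ b : ℝ, 0 < b → w * b0 ≤ b → - Real.log b ≤ Real.log (2 / (w * p)) := by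
        intro b hbpos hwb
        rw [← Real.log_inv]
        apply Real.log_le_log (by positivity)
        rw [inv_le_comm₀ hbpos (by positivity), inv_div]
        calc w * p / 2 = w * (p / 2) := by ring
          _ ≤ w * b0 := mul_le_mul_of_nonneg_left hb hw0.le
          _ ≤ b := hwb
      set L := Real.log (2 / (w * p)) with hLdef
      set κ0 : ℝ := 1280 * (d + 1) / (ζ ^ 2 * k) with hκ0def
      have hκ0nn : 0 ≤ κ0 := by positivity
      -- bound for each term
      have hterm0 : (κ0 + ρ 0) * (- Real.log (B n p (f 0) n ∅)) + P 0 n ∅ / B n p (f 0) n ∅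
          ≤ κ0 * L + (1 / 20 + 1 / 10) := by
        have e1 : ρ 0 = 0 := by simp [hρdef, h01]
        have e2 : B n p (f 0) n ∅ = b1 := by simp [hf, hb1def]
        have e3 : P 0 n ∅ = t + κ * b0 := by
          simp only [hPdef, P0, if_true, not_sig_empty, if_false]
          rfl
        rw [e1, e2, e3, add_zero]
        apply add_le_add (mul_le_mul_of_nonneg_left (hLog b1 hb1pos h1w) hκ0nn)
        rw [div_le_iff₀ hb1pos]
        have h1 : t ≤ 1 / 20 * b1 := by rw [ht]; linarith
        have h2 : κ * b0 ≤ 1 / 10 * b1 := by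
          have h3 : κ * b0 = 20 * p * g / (γ * w) := by rw [hκdef]; field_simp
          rw [h3]
          have h4 : 20 * p * g / (γ * w) = (40 * g / (γ * w ^ 2)) * (w * (p / 2)) := by
            field_simp; norm_num
          rw [h4]
          have h5 : w * (p / 2) ≤ b1 := (mul_le_mul_of_nonneg_left hb hw0.le).trans h1w
          calc (40 * g / (γ * w ^ 2)) * (w * (p / 2)) ≤ 1 / 10 * (w * (p / 2)) :=
                mul_le_mul_of_nonneg_right hκ (by positivity)
            _ ≤ 1 / 10 * b1 := by linarith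
        linarith
      have hterm : ∀ i : Fin d, (κ0 + ρ i.succ) * (- Real.log (B n p (f i.succ) n ∅))
          + P i.succ n ∅ / B n p (f i.succ) n ∅
          ≤ κ0 * L + 1 / (10 * (d + 1)) + ρ i.succ * L := by
        intro i
        have hi : i.succ ≠ 0 := Fin.succ_ne_zero i
        have e2 : B n p (f i.succ) n ∅ = b2 := by simp only [hf, hi, if_false, hb2def]
        have e3 : P i.succ n ∅ = 2 * γ * b0 := by
          simp only [hPdef, hi, if_false, hb0]
        rw [e2, e3]
        have hρ0 : 0 ≤ ρ i.succ := by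
          simp only [hρdef]
          split_ifs <;> positivity
        have h1 := mul_le_mul_of_nonneg_left (hLog b2 hb2pos h2w) (add_nonneg hκ0nn hρ0)
        have h2 : 2 * γ * b0 / b2 ≤ 1 / (10 * (d + 1)) := by
          rw [div_le_div_iff₀ hb2pos (by positivity), hγ]
          have : 2 * (w / (20 * ((d : ℝ) + 1))) * b0 * (10 * (d + 1)) = w * b0 := by
            field_simp; norm_num
          rw [this]; linarith
        rw [add_mul] at h1
        linarith
      have hρsum : ∑ i : Fin d, ρ i.succ * L = 8 * g * L := by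
        have h1 : ∑ i : Fin (d + 1), ρ i * L = 8 * g * L := by
          have : ∀ i : Fin (d + 1), ρ i * L = if i = 1 then 8 * g * L else 0 := by
            intro i
            simp only [hρdef]
            split_ifs <;> ring
          rw [Finset.sum_congr rfl (fun i _ => this i), Finset.sum_ite_eq' Finset.univ 1]
          simp
        rw [Fin.sum_univ_succ] at h1
        have e1 : ρ 0 = 0 := by simp [hρdef, h01]
        rw [e1] at h1
        linarith
      rw [Fin.sum_univ_succ]
      have h1 := Finset.sum_le_sum fun (i : Fin d) (_ : i ∈ Finset.univ) => hterm i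
      have hR : ∑ i : Fin d, (κ0 * L + 1 / (10 * ((d : ℝ) + 1)) + ρ i.succ * L)
          = d * (κ0 * L + 1 / (10 * ((d : ℝ) + 1))) + 8 * g * L := by
        rw [Finset.sum_add_distrib, hρsum, Finset.sum_const, Finset.card_univ, Fintype.card_fin,
          nsmul_eq_mul]
      rw [hR] at h1
      have h4 : ((d : ℝ) + 1) * (κ0 * L) ≤ 1 / 10 := by
        have : ((d : ℝ) + 1) * (κ0 * L)
          = 1280 * (d + 1) ^ 2 / (ζ ^ 2 * k) * Real.log (2 / (w * p)) := by
          rw [hκ0def]; ring
        rw [this]; exact hL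
      have h5 : (d : ℝ) * (1 / (10 * (d + 1))) ≤ 1 / 10 := by
        rw [mul_one_div, div_le_div_iff₀ (by positivity) (by norm_num)]
        linarith
      have h6 : (d : ℝ) * (κ0 * L + 1 / (10 * (d + 1)))
          = d * (κ0 * L) + d * (1 / (10 * (d + 1))) := by ring
      rw [h6] at h1
      linarith)
  apply contra_of_tuple hζ0 hfree A _ hA4 hA5
  intro i
  have h := hA2 i
  by_cases hi : i = 0
  · simp only [hf, hi, if_true] at h
    rw [hi]
    exact lt_of_lt_of_le h (f1_le hφ0 m _)
  · simp only [hf, hi, if_false] at h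
    exact lt_of_lt_of_le h (f2_le hφ0 m _)

/-- Stability theorem. -/
theorem stability {d n k : ℕ} {ζ p w γ : ℝ} (hd : 2 ≤ d) (hk : 0 < k) (hζ0 : 0 < ζ)
    (hζ1 : ζ ≤ 1) (hp0 : 0 < p) (hp : p * n = (1 + ζ / 6) * k) (hp8 : p ≤ 1 / 8)
    (hw0 : 0 < w) (hγ : γ = w / (20 * (d + 1)))
    {𝓕 : Finset (Finset ℕ)} (h𝓕 : ∀ C ∈ 𝓕, C ⊆ Finset.range n ∧ C.card = k)
    (hfree : ∀ C : Fin (d + 1) → Finset ℕ, (∀ i, C i ∈ 𝓕) → (∀ y, ∃ i, y ∉ C i) →
      ¬ ((Finset.univ.biUnion C).card : ℝ) ≤ (1 + 1 / (d : ℝ)) * k + ζ * k)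
    (hb : p / 2 ≤ B n p (fd k 𝓕) n ∅)
    (hL : 1280 * (d + 1) ^ 2 / (ζ ^ 2 * k) * Real.log (2 / (w * p)) ≤ 1 / 10)
    (hk32 : 32 / (ζ ^ 2 * k) ≤ 1 / 16)
    (hρ : 8 * Real.sqrt p * Real.log (2 / (w * p)) ≤ 1 / 10)
    (hκ : 40 * Real.sqrt p / (γ * w ^ 2) ≤ 1 / 10) :
    ∃ x, x < n ∧ (1 - 2 * w - 2 * p) * 𝓕.card ≤ (𝓕.filter (x ∈ ·)).card := by
  have h𝓕' : ∀ C ∈ 𝓕, C.card = k := fun C hC => (h𝓕 C hC).2
  have hφ0 := fd_nonneg k 𝓕
  have hφ1 : ∀ S, fd k 𝓕 S ≤ 1 := fd_le_one h𝓕'
  have hp1 : p ≤ 1 := by linarith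
  set φ := fd k 𝓕 with hφdef
  set b0 := B n p φ n ∅ with hb0
  have hb0pos : 0 < b0 := by linarith [half_pos hp0]
  set a : ℕ → ℝ := fun m => B n p (f1 n p γ φ m) n ∅ with ha
  have ha0 : a 0 = 0 := by
    have : f1 n p γ φ 0 = fun _ => 0 := by
      funext S
      simp [f1, not_sig_zero]
    simp only [ha, this, B_const]
  have han : (1 - w) * b0 < a n := by
    have h1 := app1 hd hk hζ0 hζ1 hp0 hp hp8 hw0 hγ h𝓕' hfree hb hL hk32
    have h2 := B_f1_add_f2 (n := n) (p := p) (γ := γ) (φ := φ) n n ∅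
    simp only [ha]
    linarith
  -- size of 1 - w: if w > 1/2 the claim is trivial-ish; we treat it uniformly
  by_cases hwhalf : 1 / 2 < w
  · -- trivial case: the left side is at most 0
    have hn : 0 < n := by
      rcases Nat.eq_zero_or_pos n with h | h
      · subst h
        have hk' : (0 : ℝ) < k := by exact_mod_cast hk
        have : (0 : ℝ) < (1 + ζ / 6) * k := by positivity
        simp at hp
        rcases hp with hp | hp
        · linarith
        · omega
      · exact h
    refine ⟨0, hn, ?_⟩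
    have h1 : (1 - 2 * w - 2 * p) * (𝓕.card : ℝ) ≤ 0 :=
      mul_nonpos_of_nonpos_of_nonneg (by linarith) (by positivity)
    have h2 : (0 : ℝ) ≤ (𝓕.filter ((0 : ℕ) ∈ ·)).card := by positivity
    linarith
  push Not at hwhalf
  -- the jump
  have hex : ∃ m, w * b0 ≤ a m := ⟨n, by
    have : w * b0 ≤ (1 - w) * b0 := mul_le_mul_of_nonneg_right (by linarith) hb0pos.le
    linarith⟩
  classical
  set M := Nat.find hex with hM
  have hM1 : w * b0 ≤ a M := Nat.find_spec hex
  have hMn : M ≤ n := Nat.find_min' hex (by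
    have : w * b0 ≤ (1 - w) * b0 := mul_le_mul_of_nonneg_right (by linarith) hb0pos.le
    linarith)
  have hM0 : M ≠ 0 := by
    intro h
    rw [h, ha0] at hM1
    have : 0 < w * b0 := by positivity
    linarith
  obtain ⟨m, hm⟩ := Nat.exists_eq_succ_of_ne_zero hM0
  have hm1 : a m < w * b0 := by
    have := Nat.find_min hex (show m < Nat.find hex by rw [← hM, hm]; exact Nat.lt_succ_self m)
    push Not at this
    exact this
  rw [hm] at hM1
  have hm2 : (1 - w) * b0 < a (m + 1) := by
    by_contra hcon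
    push Not at hcon
    have h2 := B_f1_add_f2 (n := n) (p := p) (γ := γ) (φ := φ) (m + 1) n ∅
    refine app2 hd hk hζ0 hζ1 hp0 hp hp8 hw0 hγ h𝓕' hfree hb hL hk32 hρ hκ (m := m + 1) hM1 ?_
    simp only [ha] at hcon
    linarith
  refine ⟨m, by omega, ?_⟩
  -- sets containing m
  have hstep : a (m + 1) ≤ a m + B n p (fun S => if m ∈ S then φ S else 0) n ∅ := by
    simp only [ha]
    rw [← B_add]
    apply B_mono hp0.le hp1
    intro S
    by_cases h1 : sig n p γ φ (m + 1) S
    · by_cases h2 : sig n p γ φ m S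
      · simp only [f1, h1, h2, if_true]
        have := hφ0 S
        split_ifs <;> linarith
      · have h3 : m ∈ S := by
          obtain ⟨e, he, hem, hmed⟩ := h1
          by_cases hem' : e < m
          · exact absurd ⟨e, he, hem', hmed⟩ h2
          · have : e = m := by omega
            rw [← this]; exact he
        simp only [f1, h1, h2, h3, if_true, if_false]
        linarith
    · simp only [f1, h1, if_false]
      have := hφ0 S
      split_ifs <;> linarith
  set 𝓧 := 𝓕.filter (m ∈ ·) with h𝓧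
  set 𝓑 := 𝓕.filter (m ∉ ·) with h𝓑
  have hdisj : Disjoint 𝓧 𝓑 := Finset.disjoint_filter_filter_not _ _ _
  have hun : 𝓧 ∪ 𝓑 = 𝓕 := Finset.filter_union_filter_not_eq _ _
  have hcard : 𝓧.card + 𝓑.card = 𝓕.card := by
    rw [← Finset.card_union_of_disjoint hdisj, hun]
  have hφsplit : ∀ S, φ S = fd k 𝓧 S + fd k 𝓑 S := by
    intro S
    rw [hφdef, ← hun]
    exact fd_union hdisj S
  have h𝓧U : ∀ C ∈ 𝓧, C ⊆ Finset.range n ∧ C.card = k := fun C hC =>
    h𝓕 C (Finset.mem_filter.1 hC).1
  have h𝓑U : ∀ C ∈ 𝓑, C ⊆ Finset.range n ∧ C.card = k := fun C hC =>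
    h𝓕 C (Finset.mem_filter.1 hC).1
  have h𝓑x : ∀ C ∈ 𝓑, m ∉ C ∧ C.card = k := fun C hC =>
    ⟨(Finset.mem_filter.1 hC).2, (h𝓑U C hC).2⟩
  have hsplit2 : B n p (fun S => if m ∈ S then φ S else 0) n ∅
      ≤ Ew p (Finset.range n) (fd k 𝓧) + p / (1 - p) * Ew p (Finset.range n) (fd k 𝓑) := by
    rw [B_eq_Ew']
    have h1 : Ew p (Finset.range n) (fun S => if m ∈ S then φ S else 0)
        ≤ Ew p (Finset.range n) (fun S => fd k 𝓧 S + (if m ∈ S then fd k 𝓑 S else 0)) := by
      apply Ew_mono hp0.le hp1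
      intro S _
      have h2 := fd_nonneg k 𝓧 S
      have h3 := hφsplit S
      split_ifs <;> linarith
    rw [Ew_add] at h1
    have h2 := Ew_pair hp0.le (by linarith : p < 1) (U := Finset.range n) (x := m)
      (Finset.mem_range.2 (by omega)) h𝓑x
    linarith
  set Pk := Ew p (Finset.range n) (fun S => if k ≤ S.card then 1 else 0) with hPk
  have e1 := Ew_fd (p := p) h𝓧U
  have e2 := Ew_fd (p := p) h𝓑U
  have e3 := Ew_fd (p := p) h𝓕
  have e4 : b0 = Pk * (𝓕.card / ((Finset.range n).card.choose k)) := by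
    rw [hb0, B_eq_Ew', e3]
  rw [e1, e2, ← hPk] at hsplit2
  have hPk0 : 0 ≤ Pk := by
    apply Ew_nonneg hp0.le hp1
    intro S _
    split_ifs <;> norm_num
  set c : ℝ := Pk / ((Finset.range n).card.choose k) with hc
  have hcc : ∀ z : ℝ, Pk * (z / ((Finset.range n).card.choose k)) = c * z := by
    intro z; rw [hc]; ring
  rw [hcc] at e4
  rw [hcc, hcc] at hsplit2
  have hc0 : 0 ≤ c := by positivity
  have hcpos : 0 < c := by
    rcases hc0.lt_or_eq with h | h
    · exact h
    · exfalso
      rw [← h, zero_mul] at e4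
      linarith
  have hpp : p / (1 - p) ≤ 2 * p := by
    rw [div_le_iff₀ (by linarith)]
    nlinarith
  have h𝓑le : (𝓑.card : ℝ) ≤ 𝓕.card := by
    exact_mod_cast Finset.card_le_card (Finset.filter_subset _ _)
  have hfin : c * ((1 - 2 * w) * 𝓕.card) ≤ c * (𝓧.card + 2 * p * 𝓕.card) := by
    have h1 : (1 - 2 * w) * b0 ≤ c * 𝓧.card + p / (1 - p) * (c * 𝓑.card) := by linarith
    have h2 : p / (1 - p) * (c * 𝓑.card) ≤ 2 * p * (c * 𝓕.card) := by
      apply mul_le_mul hpp (mul_le_mul_of_nonneg_left h𝓑le hc0) (by positivity) (by positivity)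
    rw [e4] at h1
    linarith
  have := le_of_mul_le_mul_left hfin hcpos
  linarith

end Pool.Agent.Lib.MP_b0b8df_co
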