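import Mathlib
import Pool.Agent.Lib.MP_b0b8df_co.Stability2

/-!
Regime II: an almost-star with many members outside of the star contains a cluster.
-/

set_option autoImplicit false

namespace Pool.Agent.Lib.MP_b0b8df_co

open Finset

open Classical in
/-- `1` if no member of `𝓕` through `x` lies inside `insert x S`. -/
noncomputable def gg (𝓕 : Finset (Finset ℕ)) (x : ℕ) (S : Finset ℕ) : ℝ :=
  if ∃ C ∈ 𝓕, x ∈ C ∧ C ⊆ insert x S then 0 else 1

lemma gg_nonneg (𝓕 : Finset (Finset ℕ)) (x : ℕ) (S : Finset ℕ) : 0 ≤ gg 𝓕 x S := by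
  unfold gg; split_ifs <;> norm_num

lemma Ew_erase {p : ℝ} {U : Finset ℕ} {x : ℕ} (hx : x ∈ U) (ψ : Finset ℕ → ℝ) :
    Ew p U (fun S => ψ (S.erase x)) = Ew p (U.erase x) ψ := by
  have h1 : U = insert x (U.erase x) := (Finset.insert_erase hx).symm
  have h2 : x ∉ U.erase x := Finset.notMem_erase x U
  conv_lhs => rw [h1]
  rw [Ew_insert h2]
  have h3 : Ew p (U.erase x) (fun S => ψ ((insert x S).erase x)) = Ew p (U.erase x) ψ := by
    apply Ew_congr
    intro S hS
    rw [Finset.erase_insert (fun h => h2 (hS h))]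
  have h4 : Ew p (U.erase x) (fun S => ψ (S.erase x)) = Ew p (U.erase x) ψ := by
    apply Ew_congr
    intro S hS
    rw [Finset.erase_eq_of_notMem (fun h => h2 (hS h))]
  rw [h3, h4]; ring

lemma Ew_le_one {p : ℝ} (hp0 : 0 ≤ p) (hp1 : p ≤ 1) {U : Finset ℕ} {φ : Finset ℕ → ℝ}
    (h : ∀ S ⊆ U, φ S ≤ 1) : Ew p U φ ≤ 1 := by
  refine (Ew_mono hp0 hp1 h).trans ?_
  unfold Ew
  simp only [mul_one]
  have := Finset.sum_pow_mul_eq_add_pow p (1 - p) U
  rw [this]
  simp

lemma gg_bound {n k x : ℕ} {p θ : ℝ} (hk : 0 < k) (hx : x < n) (hp0 : 0 ≤ p)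
    (hp1 : p ≤ 1) (hkn : k ≤ n) {𝓕 : Finset (Finset ℕ)}
    (hM : (((Finset.powersetCard k (Finset.range n)).filter (x ∈ ·) \ 𝓕).card : ℝ)
      ≤ θ * ((n - 1).choose (k - 1))) :
    B n p (gg 𝓕 x) n ∅
      ≤ B n p (fun S => if k ≤ S.card then 0 else 1) n ∅ + θ := by
  set M := (Finset.powersetCard k (Finset.range n)).filter (x ∈ ·) \ 𝓕 with hMdef
  set M' := M.image (fun C => C.erase x) with hM'
  have hMmem : ∀ C ∈ M, C ⊆ Finset.range n ∧ C.card = k ∧ x ∈ C ∧ C ∉ 𝓕 := by
    intro C hC
    rw [hMdef, Finset.mem_sdiff, Finset.mem_filter, Finset.mem_powersetCard] at hC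
    exact ⟨hC.1.1.1, hC.1.1.2, hC.1.2, hC.2⟩
  have hM'mem : ∀ C ∈ M', C ⊆ (Finset.range n).erase x ∧ C.card = k - 1 := by
    intro C hC
    rw [hM', Finset.mem_image] at hC
    obtain ⟨D, hD, rfl⟩ := hC
    obtain ⟨h1, h2, h3, h4⟩ := hMmem D hD
    exact ⟨Finset.erase_subset_erase x h1, by rw [Finset.card_erase_of_mem h3, h2]⟩
  rw [B_eq_Ew', B_eq_Ew']
  have hpt : ∀ S ⊆ Finset.range n, gg 𝓕 x S
      ≤ (if k ≤ S.card then 0 else 1) + fd (k - 1) M' (S.erase x) := by
    intro S hS
    by_cases hkS : k ≤ S.card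
    · rw [if_pos hkS, zero_add]
      unfold gg
      split_ifs with h
      · exact fd_nonneg _ _ _
      · push Not at h
        unfold fd
        have hcard : k - 1 ≤ (S.erase x).card := by
          have := Finset.pred_card_le_card_erase (s := S) (a := x)
          omega
        have hpos : (0 : ℝ) < (S.erase x).card.choose (k - 1) := by
          exact_mod_cast Nat.choose_pos hcard
        rw [le_div_iff₀ hpos, one_mul]
        have hsub : Finset.powersetCard (k - 1) (S.erase x) ⊆ M'.filter (· ⊆ S.erase x) := by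
          intro C hC
          rw [Finset.mem_powersetCard] at hC
          rw [Finset.mem_filter]
          refine ⟨?_, hC.1⟩
          have hxC : x ∉ C := fun h => Finset.notMem_erase x S (hC.1 h)
          rw [hM', Finset.mem_image]
          refine ⟨insert x C, ?_, Finset.erase_insert hxC⟩
          rw [hMdef, Finset.mem_sdiff, Finset.mem_filter, Finset.mem_powersetCard]
          refine ⟨⟨⟨?_, ?_⟩, Finset.mem_insert_self _ _⟩, ?_⟩
          · intro y hy
            rw [Finset.mem_insert] at hy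
            rcases hy with rfl | hy
            · exact Finset.mem_range.2 hx
            · exact hS (Finset.erase_subset _ _ (hC.1 hy))
          · rw [Finset.card_insert_of_notMem hxC, hC.2]; omega
          · intro hmem
            apply h (insert x C) hmem (Finset.mem_insert_self _ _)
            exact Finset.insert_subset_insert x (hC.1.trans (Finset.erase_subset _ _))
        have := Finset.card_le_card hsub
        rw [Finset.card_powersetCard] at this
        exact_mod_cast this
    · rw [if_neg hkS]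
      have h1 := fd_nonneg (k - 1) M' (S.erase x)
      have h2 : gg 𝓕 x S ≤ 1 := by unfold gg; split_ifs <;> norm_num
      linarith
  have h1 := Ew_mono hp0 hp1 hpt
  rw [Ew_add, Ew_erase (Finset.mem_range.2 hx) (fd (k - 1) M'), Ew_fd hM'mem] at h1
  have h2 : Ew p ((Finset.range n).erase x) (fun S => if k - 1 ≤ S.card then 1 else 0)
      * ((M'.card : ℝ) / (((Finset.range n).erase x).card.choose (k - 1))) ≤ θ := by
    have hc : ((Finset.range n).erase x).card = n - 1 := by
      rw [Finset.card_erase_of_mem (Finset.mem_range.2 hx), Finset.card_range]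
    rw [hc]
    have hpos : (0 : ℝ) < (n - 1).choose (k - 1) := by
      exact_mod_cast Nat.choose_pos (by omega)
    have h3 : (M'.card : ℝ) / ((n - 1).choose (k - 1)) ≤ θ := by
      rw [div_le_iff₀ hpos]
      have h4 : (M'.card : ℝ) ≤ M.card := by exact_mod_cast Finset.card_image_le
      linarith
    have h5 : Ew p ((Finset.range n).erase x) (fun S => if k - 1 ≤ S.card then 1 else 0) ≤ 1 := by
      apply Ew_le_one hp0 hp1
      intro S _
      split_ifs <;> norm_num
    have h6 : 0 ≤ (M'.card : ℝ) / ((n - 1).choose (k - 1)) := by positivity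
    calc _ ≤ 1 * ((M'.card : ℝ) / ((n - 1).choose (k - 1))) :=
          mul_le_mul_of_nonneg_right h5 h6
      _ ≤ θ := by rw [one_mul]; exact h3
  linarith

/-- Regime II. -/
theorem regime2 {d n k x : ℕ} {ζ p : ℝ} (hd : 2 ≤ d) (hk : 0 < k) (hkn : k ≤ n) (hζ0 : 0 < ζ)
    (hζ1 : ζ ≤ 1) (hp0 : 0 < p) (hp : p * n = (1 + ζ / 6) * k) (hp8 : p ≤ 1 / 8)
    (hx : x < n) {𝓕 : Finset (Finset ℕ)} (h𝓕 : ∀ C ∈ 𝓕, C ⊆ Finset.range n ∧ C.card = k)
    (hfree : ∀ C : Fin (d + 1) → Finset ℕ, (∀ i, C i ∈ 𝓕) → (∀ y, ∃ i, y ∉ C i) →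
      ¬ ((Finset.univ.biUnion C).card : ℝ) ≤ (1 + 1 / (d : ℝ)) * k + ζ * k)
    (hM : (((Finset.powersetCard k (Finset.range n)).filter (x ∈ ·) \ 𝓕).card : ℝ)
      ≤ 1 / (10 * d) * ((n - 1).choose (k - 1)))
    (hk1 : 32 / (ζ ^ 2 * k) ≤ 1 / 16)
    (hk2 : 1280 * (d + 1) / (ζ ^ 2 * k) ≤ 1 / 20)
    (hk3 : d * ((1 + ζ / 6) / ((ζ / 6) ^ 2 * k)) ≤ 1 / 10)
    (hk4 : 1 ≤ 1 / 4 * (ζ * k)) :
    ((𝓕.filter (x ∉ ·)).card : ℝ)
      < Real.exp (-(ζ ^ 2 / (25600 * (d + 1)) * k)) * (n.choose k) := by
  by_contra hcon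
  push Not at hcon
  set 𝓑 := 𝓕.filter (x ∉ ·) with h𝓑
  have hp1 : p ≤ 1 := by linarith
  have hk' : (0 : ℝ) < k := by exact_mod_cast hk
  have hd' : (2 : ℝ) ≤ d := by exact_mod_cast hd
  set δ : ℝ := ζ ^ 2 / (25600 * (d + 1)) with hδ
  have hδ0 : 0 < δ := by positivity
  have h𝓑U : ∀ C ∈ 𝓑, C ⊆ Finset.range n ∧ C.card = k := fun C hC =>
    h𝓕 C (Finset.mem_filter.1 hC).1
  have h𝓑x : ∀ C ∈ 𝓑, x ∉ C := fun C hC => (Finset.mem_filter.1 hC).2
  have hφ0 := fd_nonneg k 𝓑
  have hφ1 : ∀ S, fd k 𝓑 S ≤ 1 := fd_le_one fun C hC => (h𝓑U C hC).2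
  set b0 := B n p (fd k 𝓑) n ∅ with hb0
  set ε1 : ℝ := (1 + ζ / 6) / ((ζ / 6) ^ 2 * k) with hε1
  have hε1' : ε1 ≤ 1 / 2 := by
    have h0 : 0 ≤ ε1 := by positivity
    nlinarith
  have htail := tail_bound hk (by positivity : 0 < ζ / 6) hp hp0.le hp1
  have htail' := tail_bound' hk (by positivity : 0 < ζ / 6) hp hp0.le hp1
  have hb0ge : 1 / 2 * Real.exp (-(δ * k)) ≤ b0 := by
    rw [hb0, B_eq_Ew', Ew_fd h𝓑U, ← B_eq_Ew', Finset.card_range]
    have hpos : (0 : ℝ) < n.choose k := by exact_mod_cast Nat.choose_pos hkn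
    have h1 : Real.exp (-(δ * k)) ≤ (𝓑.card : ℝ) / (n.choose k) := by
      rw [le_div_iff₀ hpos]; exact hcon
    apply mul_le_mul _ h1 (Real.exp_pos _).le
    · exact B_nonneg hp0.le hp1 (fun S => by split_ifs <;> norm_num) _ _
    · linarith
  have hb0pos : 0 < b0 := lt_of_lt_of_le (by positivity) hb0ge
  have hG := gg_bound hk hx hp0.le hp1 hkn hM
  set G := B n p (gg 𝓕 x) n ∅ with hGdef
  have hG0 : 0 ≤ G := B_nonneg hp0.le hp1 (gg_nonneg 𝓕 x) _ _
  set f : Fin (d + 1) → Finset ℕ → ℝ := fun i => if i = 0 then fd k 𝓑 else fun _ => 1 with hf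
  set P : Fin (d + 1) → ℕ → Finset ℕ → ℝ := fun i r T =>
    if i = 0 then 0 else B n p (gg 𝓕 x) r T with hPdef
  obtain ⟨A, hA1, hA2, hA3, hA4, hA5⟩ := app hd hk hζ0 hζ1 hp0 hp hp8 f
    (by
      intro i S
      by_cases h : i = 0
      · simp only [hf, h, if_true]; exact hφ0 S
      · simp only [hf, h, if_false]; norm_num)
    (by
      intro i S
      by_cases h : i = 0
      · simp only [hf, h, if_true]; exact hφ1 S
      · simp only [hf, h, if_false]; norm_num)
    (fun _ => 0) (fun _ => le_rfl) P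
    (by
      intro i r T
      have := B_nonneg (N := n) hp0.le hp1 (gg_nonneg 𝓕 x) r T
      simp only [hPdef]
      split_ifs <;> positivity)
    (by
      intro i r T hr hT hbT hPT
      by_cases h : i = 0
      · simp only [hPdef, h, if_true]
        simp
      · simp only [hPdef, h, if_false]
        exact le_rfl)
    (by
      intro r T hr hT hbT hPT
      have h0 : p * B n p (f 0) r (insert (n - (r + 1)) (T 0))
          / B n p (f 0) (r + 1) (T 0) ≤ 1 := by
        rw [div_le_one (hbT 0)]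
        have h1 : 0 ≤ B n p (f 0) r (T 0) := by
          apply B_nonneg hp0.le hp1
          intro S
          simp only [hf, if_true]; exact hφ0 S
        have h2 : B n p (f 0) (r + 1) (T 0) = p * B n p (f 0) r (insert (n - (r + 1)) (T 0))
          + (1 - p) * B n p (f 0) r (T 0) := rfl
        rw [h2]
        have h3 : 0 ≤ (1 - p) * B n p (f 0) r (T 0) := mul_nonneg (by linarith) h1
        linarith
      have h1 : ∀ i : Fin d, p * B n p (f i.succ) r (insert (n - (r + 1)) (T i.succ))
          / B n p (f i.succ) (r + 1) (T i.succ) = p := by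
        intro i
        have hi : i.succ ≠ 0 := Fin.succ_ne_zero i
        simp only [hf, hi, if_false]
        rw [B_const, B_const]
        ring
      rw [Fin.sum_univ_succ, Finset.sum_congr rfl (fun i _ => h1 i), Finset.sum_const,
        Finset.card_univ, Fintype.card_fin, nsmul_eq_mul, max_eq_right]
      · simp
      · nlinarith)
    (by
      intro i
      by_cases h : i = 0
      · simp only [hf, h, if_true]; exact hb0pos
      · simp only [hf, h, if_false]
        rw [B_const]; norm_num)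
    (by
      rw [Fin.sum_univ_succ]
      have h1 : ∀ i : Fin d, (1280 * ((d : ℝ) + 1) / (ζ ^ 2 * k) + 0)
          * (- Real.log (B n p (f i.succ) n ∅)) + P i.succ n ∅ / B n p (f i.succ) n ∅ = G := by
        intro i
        have hi : i.succ ≠ 0 := Fin.succ_ne_zero i
        simp only [hf, hPdef, hi, if_false]
        rw [B_const, Real.log_one, div_one]
        ring
      rw [Finset.sum_congr rfl (fun i _ => h1 i), Finset.sum_const,
        Finset.card_univ, Fintype.card_fin, nsmul_eq_mul]
      have h2 : (1280 * ((d : ℝ) + 1) / (ζ ^ 2 * k) + 0) * (- Real.log (B n p (f 0) n ∅))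
          + P 0 n ∅ / B n p (f 0) n ∅ ≤ 1 / 20 + 1 / 20 := by
        have e1 : B n p (f 0) n ∅ = b0 := by simp only [hf, if_true, hb0]
        have e2 : P 0 n ∅ = 0 := by simp only [hPdef, if_true]
        rw [e1, e2, zero_div, add_zero, add_zero]
        have h3 : - Real.log b0 ≤ δ * k + 1 := by
          have h4 : Real.log (1 / 2 * Real.exp (-(δ * k))) ≤ Real.log b0 :=
            Real.log_le_log (by positivity) hb0ge
          rw [Real.log_mul (by norm_num) (Real.exp_pos _).ne', Real.log_exp] at h4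
          have h5 : Real.log (1 / 2) = - Real.log 2 := by
            rw [one_div, Real.log_inv]
          have h6 : Real.log 2 ≤ 1 := by
            have := Real.log_two_lt_d9
            linarith
          linarith
        calc 1280 * ((d : ℝ) + 1) / (ζ ^ 2 * k) * (- Real.log b0)
            ≤ 1280 * ((d : ℝ) + 1) / (ζ ^ 2 * k) * (δ * k + 1) :=
              mul_le_mul_of_nonneg_left h3 (by positivity)
          _ = 1280 * ((d : ℝ) + 1) / (ζ ^ 2 * k) * (δ * k)
              + 1280 * ((d : ℝ) + 1) / (ζ ^ 2 * k) := by ring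
          _ ≤ 1 / 20 + 1 / 20 := by
              apply add_le_add _ hk2
              apply le_of_eq
              rw [hδ]; field_simp; norm_num
      have h3 : (d : ℝ) * G ≤ 1 / 5 := by
        have h4 : G ≤ ε1 + 1 / (10 * d) := by linarith
        have h5 : (d : ℝ) * G ≤ d * (ε1 + 1 / (10 * d)) :=
          mul_le_mul_of_nonneg_left h4 (by positivity)
        have h6 : (d : ℝ) * (1 / (10 * d)) = 1 / 10 := by field_simp
        rw [mul_add, h6] at h5
        linarith
      linarith)
  -- the final tuple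
  have hC0 : ∃ C ∈ 𝓑, C ⊆ A 0 := by
    apply exists_of_fd_pos (k := k)
    have := hA2 0
    simpa only [hf, if_true] using this
  obtain ⟨C0, hC0𝓑, hC0A⟩ := hC0
  have hCi : ∀ i : Fin d, ∃ C ∈ 𝓕, x ∈ C ∧ C ⊆ insert x (A i.succ) := by
    intro i
    have hi : i.succ ≠ 0 := Fin.succ_ne_zero i
    have h1 := hA3 i.succ
    simp only [hf, hPdef, hi, if_false, B] at h1
    by_contra h
    unfold gg at h1
    rw [if_neg h] at h1
    exact lt_irrefl _ h1
  choose C hC1 hC2 hC3 using hCi
  apply hfree (Fin.cons C0 C)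
  · intro i
    refine Fin.cases ?_ ?_ i
    · simpa using (Finset.mem_filter.1 hC0𝓑).1
    · intro j; simpa using hC1 j
  · intro y
    by_cases hy : y = x
    · refine ⟨0, ?_⟩
      rw [hy]; simpa using h𝓑x C0 hC0𝓑
    · obtain ⟨i, hi⟩ := hA4 y
      refine ⟨i, ?_⟩
      revert hi
      refine Fin.cases ?_ ?_ i
      · intro hi
        simpa using fun h => hi (hC0A h)
      · intro j hi
        simp only [Fin.cons_succ]
        intro h
        have := hC3 j h
        rw [Finset.mem_insert] at this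
        rcases this with h2 | h2
        · exact hy h2
        · exact hi h2
  · have h1 : Finset.univ.biUnion (Fin.cons C0 C : Fin (d + 1) → Finset ℕ)
        ⊆ insert x (Finset.univ.biUnion A) := by
      intro y hy
      rw [Finset.mem_biUnion] at hy
      obtain ⟨i, _, hi⟩ := hy
      revert hi
      refine Fin.cases ?_ ?_ i
      · intro hi
        simp only [Fin.cons_zero] at hi
        exact Finset.mem_insert_of_mem (Finset.mem_biUnion.2 ⟨0, Finset.mem_univ _, hC0A hi⟩)
      · intro j hi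
        simp only [Fin.cons_succ] at hi
        have := hC3 j hi
        rw [Finset.mem_insert] at this ⊢
        rcases this with h2 | h2
        · exact Or.inl h2
        · exact Or.inr (Finset.mem_biUnion.2 ⟨j.succ, Finset.mem_univ _, h2⟩)
    have h2 := (Finset.card_le_card h1).trans (Finset.card_insert_le _ _)
    have h3 : ((Finset.univ.biUnion (Fin.cons C0 C : Fin (d + 1) → Finset ℕ)).card : ℝ)
        ≤ (Finset.univ.biUnion A).card + 1 := by exact_mod_cast h2
    linarith

end Pool.Agent.Lib.MP_b0b8df_co
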