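import Mathlib
import Pool.Agent.Lib.MP_b0b8df_co.Constants
import Pool.Agent.Lib.MP_b0b8df_co.Regime1
import Pool.Agent.Lib.MP_b0b8df_co.Regime2

/-!
Assembly of the proof.
-/

set_option autoImplicit false

namespace Pool.Agent.Lib.MP_b0b8df_co

open Finset

lemma card_star {α : Type*} [DecidableEq α] (U : Finset α) {x : α} (hx : x ∈ U) {k : ℕ}
    (hk : 0 < k) :
    ((Finset.powersetCard k U).filter (x ∈ ·)).card = (U.card - 1).choose (k - 1) := by
  have h1 : (Finset.powersetCard k U).filter (x ∈ ·)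
      = (Finset.powersetCard (k - 1) (U.erase x)).image (insert x) := by
    ext A
    simp only [Finset.mem_filter, Finset.mem_powersetCard, Finset.mem_image]
    constructor
    · rintro ⟨⟨h1, h2⟩, h3⟩
      refine ⟨A.erase x, ⟨Finset.erase_subset_erase x h1, ?_⟩, Finset.insert_erase h3⟩
      rw [Finset.card_erase_of_mem h3, h2]
    · rintro ⟨D, ⟨h1, h2⟩, rfl⟩
      have hxD : x ∉ D := fun h => Finset.notMem_erase x U (h1 h)
      refine ⟨⟨?_, ?_⟩, Finset.mem_insert_self _ _⟩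
      · intro y hy
        rw [Finset.mem_insert] at hy
        rcases hy with rfl | hy
        · exact hx
        · exact Finset.erase_subset _ _ (h1 hy)
      · rw [Finset.card_insert_of_notMem hxD, h2]; omega
  rw [h1, Finset.card_image_of_injOn, Finset.card_powersetCard, Finset.card_erase_of_mem hx]
  intro D hD D' hD' h
  rw [Finset.mem_coe, Finset.mem_powersetCard] at hD hD'
  have hxD : x ∉ D := fun h => Finset.notMem_erase x U (hD.1 h)
  have hxD' : x ∉ D' := fun h => Finset.notMem_erase x U (hD'.1 h)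
  have := congrArg (fun S => S.erase x) h
  simpa [Finset.erase_insert hxD, Finset.erase_insert hxD'] using this

/-- transfer to finite sets of natural numbers -/
noncomputable def toN {n : ℕ} (F : Finset (Finset (Fin n))) : Finset (Finset ℕ) :=
  F.map (Finset.mapEmbedding Fin.valEmbedding).toEmbedding

lemma mem_toN {n : ℕ} {F : Finset (Finset (Fin n))} {C : Finset ℕ} :
    C ∈ toN F ↔ ∃ A ∈ F, A.map Fin.valEmbedding = C := by
  simp [toN, Finset.mapEmbedding]

lemma card_toN {n : ℕ} (F : Finset (Finset (Fin n))) : (toN F).card = F.card :=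
  Finset.card_map _

lemma toN_filter_mem {n : ℕ} (F : Finset (Finset (Fin n))) {x : ℕ} (hx : x < n) :
    (toN F).filter (x ∈ ·) = toN (F.filter ((⟨x, hx⟩ : Fin n) ∈ ·)) := by
  ext C
  rw [Finset.mem_filter, mem_toN, mem_toN]
  constructor
  · rintro ⟨⟨A, hA, rfl⟩, h⟩
    refine ⟨A, Finset.mem_filter.2 ⟨hA, ?_⟩, rfl⟩
    rw [Finset.mem_map] at h
    obtain ⟨a, ha, hax⟩ := h
    have : a = ⟨x, hx⟩ := Fin.ext hax
    rw [← this]; exact ha
  · rintro ⟨A, hA, rfl⟩
    rw [Finset.mem_filter] at hA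
    exact ⟨⟨A, hA.1, rfl⟩, Finset.mem_map.2 ⟨_, hA.2, rfl⟩⟩

lemma toN_filter_not_mem {n : ℕ} (F : Finset (Finset (Fin n))) {x : ℕ} (hx : x < n) :
    (toN F).filter (x ∉ ·) = toN (F.filter ((⟨x, hx⟩ : Fin n) ∉ ·)) := by
  ext C
  rw [Finset.mem_filter, mem_toN, mem_toN]
  constructor
  · rintro ⟨⟨A, hA, rfl⟩, h⟩
    refine ⟨A, Finset.mem_filter.2 ⟨hA, ?_⟩, rfl⟩
    intro h2
    exact h (Finset.mem_map.2 ⟨_, h2, rfl⟩)
  · rintro ⟨A, hA, rfl⟩
    rw [Finset.mem_filter] at hA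
    refine ⟨⟨A, hA.1, rfl⟩, ?_⟩
    intro h
    rw [Finset.mem_map] at h
    obtain ⟨a, ha, hax⟩ := h
    have : a = ⟨x, hx⟩ := Fin.ext hax
    rw [this] at ha
    exact hA.2 ha

lemma toN_prop {n k : ℕ} {F : Finset (Finset (Fin n))} (hF : ∀ A ∈ F, A.card = k) :
    ∀ C ∈ toN F, C ⊆ Finset.range n ∧ C.card = k := by
  intro C hC
  obtain ⟨A, hA, rfl⟩ := mem_toN.1 hC
  refine ⟨?_, by rw [Finset.card_map, hF A hA]⟩
  intro y hy
  rw [Finset.mem_map] at hy
  obtain ⟨a, _, rfl⟩ := hy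
  exact Finset.mem_range.2 a.2

lemma toN_free {n m : ℕ} {F : Finset (Finset (Fin n))} {U : ℝ}
    (hfree : ∀ C : Fin m → Finset (Fin n), (∀ i, C i ∈ F) → (∀ y, ∃ i, y ∉ C i) →
      ¬ ((Finset.univ.biUnion C).card : ℝ) ≤ U) :
    ∀ C : Fin m → Finset ℕ, (∀ i, C i ∈ toN F) → (∀ y, ∃ i, y ∉ C i) →
      ¬ ((Finset.univ.biUnion C).card : ℝ) ≤ U := by
  intro C hC hC2 hC3
  choose A hA1 hA2 using fun i => mem_toN.1 (hC i)
  apply hfree A hA1
  · intro y
    obtain ⟨i, hi⟩ := hC2 y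
    refine ⟨i, fun h => hi ?_⟩
    rw [← hA2 i]
    exact Finset.mem_map.2 ⟨y, h, rfl⟩
  · refine le_trans ?_ hC3
    have h1 : (Finset.univ.biUnion A).map Fin.valEmbedding ⊆ Finset.univ.biUnion C := by
      intro y hy
      rw [Finset.mem_map] at hy
      obtain ⟨a, ha, rfl⟩ := hy
      rw [Finset.mem_biUnion] at ha
      obtain ⟨i, _, hi⟩ := ha
      rw [Finset.mem_biUnion]
      refine ⟨i, Finset.mem_univ _, ?_⟩
      rw [← hA2 i]
      exact Finset.mem_map.2 ⟨a, hi, rfl⟩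
    have h2 := Finset.card_le_card h1
    rw [Finset.card_map] at h2
    exact_mod_cast h2

/-- Main theorem, tuple version. -/
theorem main_tuple (d : ℕ) (hd : 2 ≤ d) (ζ : ℝ) (hζ0 : 0 < ζ) (hζ1 : ζ ≤ 1) :
    ∃ C c : ℝ, 0 < C ∧ 0 < c ∧ ∀ n k : ℕ, 0 < k → C * Real.log n ≤ k → (k : ℝ) ≤ c * n →
      ∀ F : Finset (Finset (Fin n)), (∀ A ∈ F, A.card = k) →
      (∀ C : Fin (d + 1) → Finset (Fin n), (∀ i, C i ∈ F) → (∀ y, ∃ i, y ∉ C i) →
        ¬ ((Finset.univ.biUnion C).card : ℝ) ≤ (1 + 1 / (d : ℝ)) * k + ζ * k) →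
      (n - 1).choose (k - 1) ≤ F.card →
      ∃ x : Fin n, F = (Finset.powersetCard k Finset.univ).filter (x ∈ ·) := by
  obtain ⟨C, c, hC, hc, H⟩ := constants d hd ζ hζ0 hζ1
  refine ⟨C, c, hC, hc, ?_⟩
  intro n k hk hCk hkc F hF hfree hcard
  obtain ⟨hn, hkn, H⟩ := H n k hk hCk hkc
  set p : ℝ := (1 + ζ / 6) * k / n with hp
  set w : ℝ := 1 / (40 * d) with hw
  set γ : ℝ := w / (20 * (d + 1)) with hγ
  set δ : ℝ := ζ ^ 2 / (25600 * (d + 1)) with hδ
  obtain ⟨hp0, hpn, hp8, hpd, hL, hk32, hρ, hκ, hk2, hk3, hk4, hkδ, hlog, hkd⟩ :=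
    H p w γ δ rfl rfl rfl rfl
  have hd' : (2 : ℝ) ≤ d := by exact_mod_cast hd
  have hk' : (0 : ℝ) < k := by exact_mod_cast hk
  have hn' : (0 : ℝ) < n := by exact_mod_cast hn
  have hw0 : 0 < w := by positivity
  have hδ0 : 0 < δ := by positivity
  have hp1 : p ≤ 1 := by linarith
  have h𝓕 := toN_prop hF
  have hfreeN := toN_free hfree
  have hpos : (0 : ℝ) < n.choose k := by exact_mod_cast Nat.choose_pos hkn
  have hcard' : ((n - 1).choose (k - 1) : ℝ) ≤ F.card := by exact_mod_cast hcard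
  have hratio : ((n - 1).choose (k - 1) : ℝ) = (k : ℝ) / n * n.choose k := by
    have h1 : n * (n - 1).choose (k - 1) = n.choose k * k := by
      obtain ⟨n', rfl⟩ : ∃ n', n = n' + 1 := ⟨n - 1, by omega⟩
      obtain ⟨k', rfl⟩ : ∃ k', k = k' + 1 := ⟨k - 1, by omega⟩
      simpa using Nat.add_one_mul_choose_eq n' k'
    have h2 : (n : ℝ) * (n - 1).choose (k - 1) = n.choose k * k := by exact_mod_cast h1
    field_simp
    linarith
  have hchpos : (0 : ℝ) < (n - 1).choose (k - 1) := by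
    rw [hratio]; positivity
  -- the measure of the family
  have hε1 : (1 + ζ / 6) / ((ζ / 6) ^ 2 * k) ≤ 1 / 20 := by
    have h0 : 0 ≤ (1 + ζ / 6) / ((ζ / 6) ^ 2 * k) := by positivity
    have h1 : 2 * ((1 + ζ / 6) / ((ζ / 6) ^ 2 * k)) ≤ d * ((1 + ζ / 6) / ((ζ / 6) ^ 2 * k)) :=
      mul_le_mul_of_nonneg_right hd' h0
    linarith only [h1, hk3]
  have htail' := tail_bound' hk (by positivity : 0 < ζ / 6) hpn hp0.le hp1
  have hb : p / 2 ≤ B n p (fd k (toN F)) n ∅ := by
    rw [B_eq_Ew', Ew_fd h𝓕, ← B_eq_Ew', Finset.card_range, card_toN]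
    have h1 : (k : ℝ) / n ≤ (F.card : ℝ) / (n.choose k) := by
      rw [le_div_iff₀ hpos, ← hratio]; exact hcard'
    have h2 : (19 / 20 : ℝ) ≤ B n p (fun S => if k ≤ S.card then 1 else 0) n ∅ := by linarith
    calc p / 2 = (1 + ζ / 6) / 2 * (k / n) := by rw [hp]; ring
      _ ≤ 19 / 20 * (k / n) := mul_le_mul_of_nonneg_right (by linarith) (by positivity)
      _ ≤ _ := mul_le_mul h2 h1 (by positivity) (by linarith)
  -- stability
  obtain ⟨x0, hx0, hstab⟩ := stability hd hk hζ0 hζ1 hp0 hpn hp8 hw0 hγ h𝓕 hfreeN hb hL hk32 hρ hκ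
  set x : Fin n := ⟨x0, hx0⟩ with hx
  rw [toN_filter_mem F hx0, card_toN, card_toN, ← hx] at hstab
  have hwd : 2 * w + 2 * p ≤ 1 / (10 * d) := by
    have : 1 / (10 * (d : ℝ)) = 4 * w := by rw [hw]; field_simp; norm_num
    rw [this]; linarith
  have hwd1 : 1 / (10 * (d : ℝ)) ≤ 1 := by
    rw [div_le_one (by positivity)]; linarith
  have hFx : (1 - 1 / (10 * (d : ℝ))) * ((n - 1).choose (k - 1)) ≤ (F.filter (x ∈ ·)).card := by
    calc (1 - 1 / (10 * (d : ℝ))) * ((n - 1).choose (k - 1))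
        ≤ (1 - 2 * w - 2 * p) * F.card :=
          mul_le_mul (by linarith) hcard' hchpos.le (by linarith)
      _ ≤ _ := hstab
  -- the star
  set St : Finset (Finset (Fin n)) := (Finset.powersetCard k Finset.univ).filter (x ∈ ·) with hSt
  have hStcard : St.card = (n - 1).choose (k - 1) := by
    rw [hSt, card_star _ (Finset.mem_univ x) hk, Finset.card_univ, Fintype.card_fin]
  have hFxSt : F.filter (x ∈ ·) ⊆ St := by
    intro A hA
    rw [Finset.mem_filter] at hA
    rw [hSt, Finset.mem_filter, Finset.mem_powersetCard]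
    exact ⟨⟨Finset.subset_univ _, hF A hA.1⟩, hA.2⟩
  have hMeq : St \ F = St \ F.filter (x ∈ ·) := by
    ext A
    rw [Finset.mem_sdiff, Finset.mem_sdiff]
    constructor
    · rintro ⟨h1, h2⟩
      exact ⟨h1, fun h => h2 (Finset.mem_filter.1 h).1⟩
    · rintro ⟨h1, h2⟩
      exact ⟨h1, fun h => h2 (Finset.mem_filter.2 ⟨h, (Finset.mem_filter.1 h1).2⟩)⟩
  have hMcard : (St \ F).card + (F.filter (x ∈ ·)).card = (n - 1).choose (k - 1) := by
    rw [hMeq, Finset.card_sdiff_add_card_eq_card hFxSt, hStcard]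
  have hFsplit : (F.filter (x ∈ ·)).card + (F.filter (x ∉ ·)).card = F.card :=
    Finset.card_filter_add_card_filter_not _
  -- regime II
  have hMN : (((Finset.powersetCard k (Finset.range n)).filter (x0 ∈ ·) \ toN F).card : ℝ)
      ≤ 1 / (10 * d) * ((n - 1).choose (k - 1)) := by
    have h1 : (Finset.powersetCard k (Finset.range n)).filter (x0 ∈ ·) \ toN F
        = toN (St \ F) := by
      ext C
      rw [Finset.mem_sdiff, Finset.mem_filter, Finset.mem_powersetCard, mem_toN, mem_toN]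
      constructor
      · rintro ⟨⟨⟨h1, h2⟩, h3⟩, h4⟩
        refine ⟨C.attachFin (fun m hm => Finset.mem_range.1 (h1 hm)), ?_, ?_⟩
        · rw [Finset.mem_sdiff, hSt, Finset.mem_filter, Finset.mem_powersetCard]
          refine ⟨⟨⟨Finset.subset_univ _, by rw [Finset.card_attachFin, h2]⟩, ?_⟩, ?_⟩
          · rw [Finset.mem_attachFin]; exact h3
          · intro h5
            apply h4
            exact ⟨_, h5, Finset.map_valEmbedding_attachFin _⟩
        · exact Finset.map_valEmbedding_attachFin _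
      · rintro ⟨A, hA, rfl⟩
        rw [Finset.mem_sdiff, hSt, Finset.mem_filter, Finset.mem_powersetCard] at hA
        refine ⟨⟨⟨?_, ?_⟩, ?_⟩, ?_⟩
        · intro y hy
          rw [Finset.mem_map] at hy
          obtain ⟨a, _, rfl⟩ := hy
          exact Finset.mem_range.2 a.2
        · rw [Finset.card_map, hA.1.1.2]
        · exact Finset.mem_map.2 ⟨x, hA.1.2, rfl⟩
        · rintro ⟨A', hA', hAA'⟩
          have : A' = A := Finset.map_injective _ hAA'
          rw [this] at hA'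
          exact hA.2 hA'
    rw [h1, card_toN]
    have h2 : ((St \ F).card : ℝ) + (F.filter (x ∈ ·)).card = (n - 1).choose (k - 1) := by
      exact_mod_cast hMcard
    linarith
  have hreg2 := regime2 hd hk hkn hζ0 hζ1 hp0 hpn hp8 hx0 h𝓕 hfreeN hMN hk32 hk2 hk3 hk4
  rw [toN_filter_not_mem F hx0, card_toN, ← hx, ← hδ] at hreg2
  -- regime I
  have hBempty : F.filter (x ∉ ·) = ∅ := by
    by_contra hne
    have hne' : (F.filter (x ∉ ·)).Nonempty := Finset.nonempty_iff_ne_empty.2 hne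
    have hδ1 : δ ≤ 1 / 2 := by
      rw [hδ, div_le_div_iff₀ (by positivity) (by norm_num)]
      have hζζ : ζ ^ 2 ≤ 1 := pow_le_one₀ hζ0.le hζ1
      linarith only [hζζ, hd']
    have hreg1 := regime1 hd hk hζ0 hζ1 hδ0 hδ1 le_rfl hkδ hlog hkd (x := x) hF hfree hreg2 hne'
    rw [← hSt] at hreg1
    omega
  have hFsub : F ⊆ St := by
    intro A hA
    by_cases hxA : x ∈ A
    · exact hFxSt (Finset.mem_filter.2 ⟨hA, hxA⟩)
    · have : A ∈ F.filter (x ∉ ·) := Finset.mem_filter.2 ⟨hA, hxA⟩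
      rw [hBempty] at this
      simp at this
  exact ⟨x, Finset.eq_of_subset_of_card_le hFsub (by rw [hStcard]; exact hcard)⟩

/-- For small `ζ` a tuple with empty intersection and small union has distinct entries. -/
lemma tuple_injective {n d k : ℕ} (hd : 2 ≤ d) (hk : 0 < k) {ζ : ℝ} (hζ : ζ * d ^ 2 < 1)
    (C : Fin (d + 1) → Finset (Fin n)) (hC1 : ∀ i, (C i).card = k) (hC2 : ∀ y, ∃ i, y ∉ C i)
    (hC3 : ((Finset.univ.biUnion C).card : ℝ) ≤ (1 + 1 / (d : ℝ)) * k + ζ * k) :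
    Function.Injective C := by
  classical
  intro i j hij
  by_contra hne
  have hk' : (0 : ℝ) < k := by exact_mod_cast hk
  have hd' : (2 : ℝ) ≤ d := by exact_mod_cast hd
  set I : Finset (Fin (d + 1)) := Finset.univ.erase j with hI
  have hIcard : I.card = d := by
    rw [hI, Finset.card_erase_of_mem (Finset.mem_univ _), Finset.card_univ, Fintype.card_fin]
    omega
  have hiI : i ∈ I := Finset.mem_erase.2 ⟨hne, Finset.mem_univ _⟩
  set V := Finset.univ.biUnion C with hV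
  have h1 : ∑ l ∈ I, (C l).card = d * k := by
    rw [Finset.sum_congr rfl (fun l _ => hC1 l), Finset.sum_const, hIcard, smul_eq_mul]
  have h2 : ∑ l ∈ I, (C l).card = ∑ y ∈ V, (I.filter (fun l => y ∈ C l)).card := by
    have h3 : ∀ l ∈ I, (C l).card = ∑ y ∈ V, if y ∈ C l then 1 else 0 := by
      intro l _
      rw [← Finset.sum_filter, Finset.sum_const, smul_eq_mul, mul_one]
      congr 1
      ext y
      rw [Finset.mem_filter]
      constructor
      · intro hy
        exact ⟨Finset.mem_biUnion.2 ⟨l, Finset.mem_univ _, hy⟩, hy⟩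
      · exact fun h => h.2
    rw [Finset.sum_congr rfl h3, Finset.sum_comm]
    apply Finset.sum_congr rfl
    intro y _
    rw [← Finset.sum_filter, Finset.sum_const, smul_eq_mul, mul_one]
  have h3 : ∀ y ∈ V, (I.filter (fun l => y ∈ C l)).card ≤ d - 1 := by
    intro y _
    have h4 : ∃ l ∈ I, y ∉ C l := by
      obtain ⟨l, hl⟩ := hC2 y
      by_cases hlj : l = j
      · refine ⟨i, hiI, ?_⟩
        rw [hij, ← hlj]; exact hl
      · exact ⟨l, Finset.mem_erase.2 ⟨hlj, Finset.mem_univ _⟩, hl⟩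
    obtain ⟨l, hlI, hl⟩ := h4
    have h5 : I.filter (fun l => y ∈ C l) ⊆ I.erase l := by
      intro l' hl'
      rw [Finset.mem_filter] at hl'
      rw [Finset.mem_erase]
      refine ⟨?_, hl'.1⟩
      rintro rfl
      exact hl hl'.2
    have h6 := Finset.card_le_card h5
    rw [Finset.card_erase_of_mem hlI, hIcard] at h6
    exact h6
  have h4 : d * k ≤ V.card * (d - 1) := by
    rw [← h1, h2]
    calc ∑ y ∈ V, (I.filter (fun l => y ∈ C l)).card ≤ ∑ _y ∈ V, (d - 1) :=
          Finset.sum_le_sum h3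
      _ = V.card * (d - 1) := by rw [Finset.sum_const, smul_eq_mul]
  have h5 : (d : ℝ) * k ≤ V.card * (d - 1) := by
    have h6 : ((d * k : ℕ) : ℝ) ≤ ((V.card * (d - 1) : ℕ) : ℝ) := by exact_mod_cast h4
    rw [Nat.cast_mul, Nat.cast_mul, Nat.cast_sub (by omega)] at h6
    simpa using h6
  have h6 : (V.card : ℝ) * (d - 1) ≤ ((1 + 1 / (d : ℝ)) * k + ζ * k) * (d - 1) :=
    mul_le_mul_of_nonneg_right hC3 (by linarith)
  have h7 : ((1 + 1 / (d : ℝ)) * k + ζ * k) * (d - 1)
      = (d * k) + (ζ * (d * (d - 1)) - 1) / d * k := by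
    field_simp; ring
  have h8 : (ζ * (d * (d - 1)) - 1) / d * k < 0 := by
    apply mul_neg_of_neg_of_pos _ hk'
    apply div_neg_of_neg_of_pos _ (by positivity)
    by_cases hζ0 : 0 ≤ ζ
    · nlinarith [mul_nonneg hζ0 (by positivity : (0 : ℝ) ≤ d)]
    · push Not at hζ0
      have : 0 < (d : ℝ) * (d - 1) := by
        apply mul_pos <;> linarith
      nlinarith
  linarith

end Pool.Agent.Lib.MP_b0b8df_co
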